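import Mathlib

/-!
Definitions used in the statement on locally dependent random graphs.
-/

namespace Pool.Agent.Work.MP_c7de0c_pr

open MeasureTheory ProbabilityTheory

/-- The possible edges of a simple graph on `Fin n`: unordered pairs of distinct vertices. -/
abbrev Edge (n : ℕ) : Type := {e : Sym2 (Fin n) // ¬ e.IsDiag}

/-- `μ` is a `d`-dependent random graph distribution on the vertex set `Fin n` with edge
probability `p`: a probability measure on simple graphs under which every possible edge is
present with probability exactly `p`, and the edge indicators have a dependency graph `D`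
of maximum degree at most `d`. -/
structure IsDepDist (n : ℕ) (p : ℝ) (d : ℕ) (μ : Measure (SimpleGraph (Fin n))) : Prop where
  prob : IsProbabilityMeasure μ
  marginal : ∀ e : Edge n, μ.real {G | e.1 ∈ G.edgeSet} = p
  dep : ∃ D : SimpleGraph (Edge n), (∀ e, (D.neighborSet e).ncard ≤ d) ∧
    ∀ A B : Set (Edge n), Disjoint A B → (∀ a ∈ A, ∀ b ∈ B, ¬ D.Adj a b) →
      IndepFun (fun (G : SimpleGraph (Fin n)) (a : A) => a.1.1 ∈ G.edgeSet)
        (fun (G : SimpleGraph (Fin n)) (b : B) => b.1.1 ∈ G.edgeSet) μ

end Pool.Agent.Work.MP_c7de0c_pr
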