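import Mathlib
import Pool.Agent.Work.MP_c7de0c_pr.Defs

-- merged part: Pool.Agent.Work.MP_c7de0c_pr.Core
section
/-!
Finite core for locally dependent random subsets of a finite set.
Distributions are weight functions on `Finset E`.
-/

set_option linter.unusedSectionVars false

namespace Pool.Agent.Work.MP_c7de0c_pr

open Finset

variable {E : Type*} [Fintype E] [DecidableEq E]

/-- expectation of `f` under the weights `w` -/
noncomputable def ex (w : Finset E → ℝ) (f : Finset E → ℝ) : ℝ := ∑ X, w X * f X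

/-- inclusion probability -/
noncomputable def incl (w : Finset E → ℝ) (S : Finset E) : ℝ :=
  ex w (fun X => if S ⊆ X then 1 else 0)

/-- independence of the traces on `A` and on `B` -/
def IndepOn (w : Finset E → ℝ) (A B : Finset E) : Prop :=
  ∀ f g : Finset E → ℝ,
    ex w (fun X => f (X ∩ A) * g (X ∩ B)) = ex w (fun X => f (X ∩ A)) * ex w (fun X => g (X ∩ B))

/-- `w` is a probability distribution with marginals `p` and dependency graph `D` -/
structure Dep (D : SimpleGraph E) (p : ℝ) (w : Finset E → ℝ) : Prop where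
  nonneg : ∀ X, 0 ≤ w X
  total : ∑ X, w X = 1
  marg : ∀ e, ex w (fun X => if e ∈ X then 1 else 0) = p
  indep : ∀ A B : Finset E, Disjoint A B → (∀ a ∈ A, ∀ b ∈ B, ¬ D.Adj a b) → IndepOn w A B

lemma ex_mono {w : Finset E → ℝ} (hw : ∀ X, 0 ≤ w X) {f g : Finset E → ℝ} (h : ∀ X, f X ≤ g X) :
    ex w f ≤ ex w g :=
  sum_le_sum fun X _ => mul_le_mul_of_nonneg_left (h X) (hw X)

lemma ex_const {w : Finset E → ℝ} (hw : ∑ X, w X = 1) (c : ℝ) : ex w (fun _ => c) = c := by
  unfold ex; rw [← sum_mul, hw, one_mul]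

lemma ex_nonneg {w : Finset E → ℝ} (hw : ∀ X, 0 ≤ w X) {f : Finset E → ℝ} (h : ∀ X, 0 ≤ f X) :
    0 ≤ ex w f :=
  sum_nonneg fun X _ => mul_nonneg (hw X) (h X)

lemma ex_sum {ι : Type*} (w : Finset E → ℝ) (s : Finset ι) (f : ι → Finset E → ℝ) :
    ex w (fun X => ∑ i ∈ s, f i X) = ∑ i ∈ s, ex w (f i) := by
  unfold ex; simp_rw [mul_sum]; rw [sum_comm]

lemma ex_mul_left (w : Finset E → ℝ) (c : ℝ) (f : Finset E → ℝ) :
    ex w (fun X => c * f X) = c * ex w f := by
  unfold ex; rw [mul_sum]; exact sum_congr rfl fun X _ => by ring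

lemma ex_mul_right (w : Finset E → ℝ) (c : ℝ) (f : Finset E → ℝ) :
    ex w (fun X => f X * c) = ex w f * c := by
  unfold ex; rw [sum_mul]; exact sum_congr rfl fun X _ => by ring

lemma ex_sub (w : Finset E → ℝ) (f g : Finset E → ℝ) :
    ex w (fun X => f X - g X) = ex w f - ex w g := by
  unfold ex; rw [← sum_sub_distrib]; exact sum_congr rfl fun X _ => by ring

/-- every function on subsets is a sum over subsets -/
lemma exists_coeff (f : Finset E → ℝ) : ∃ c : Finset E → ℝ, ∀ X, f X = ∑ S ∈ X.powerset, c S := by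
  let L : (Finset E → ℝ) →ₗ[ℝ] (Finset E → ℝ) :=
    { toFun := fun c X => ∑ S ∈ X.powerset, c S
      map_add' := fun c c' => by ext X; simp [sum_add_distrib]
      map_smul' := fun a c => by ext X; simp [mul_sum] }
  have hinj : Function.Injective L := by
    rw [← LinearMap.ker_eq_bot, LinearMap.ker_eq_bot']
    intro c hc
    have hc' : ∀ X : Finset E, ∑ S ∈ X.powerset, c S = 0 := fun X => congrFun hc X
    ext X
    induction X using Finset.strongInduction with
    | H X ih =>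
      have h1 := hc' X
      rw [← Finset.add_sum_erase _ _ (mem_powerset_self X)] at h1
      have h2 : ∑ S ∈ X.powerset.erase X, c S = 0 := by
        apply sum_eq_zero
        intro S hS
        rw [mem_erase, mem_powerset] at hS
        exact ih S (Finset.ssubset_iff_subset_ne.2 ⟨hS.2, hS.1⟩)
      simpa [h2] using h1
  obtain ⟨c, hc⟩ := (LinearMap.injective_iff_surjective.1 hinj) f
  exact ⟨c, fun X => (congrFun hc X).symm⟩

lemma exists_coeff_trace (f : Finset E → ℝ) (A : Finset E) :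
    ∃ c : Finset E → ℝ, ∀ X, f (X ∩ A) = ∑ S ∈ A.powerset, c S * (if S ⊆ X then 1 else 0) := by
  obtain ⟨c, hc⟩ := exists_coeff f
  refine ⟨c, fun X => ?_⟩
  rw [hc]
  have : (X ∩ A).powerset = A.powerset.filter (fun S => S ⊆ X) := by
    ext S; simp only [mem_powerset, mem_filter, subset_inter_iff]; tauto
  rw [this, sum_filter]
  exact sum_congr rfl fun S _ => by split_ifs <;> simp

lemma ex_trace_eq {w w' : Finset E → ℝ} {A : Finset E} (h : ∀ S ⊆ A, incl w S = incl w' S)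
    (f : Finset E → ℝ) : ex w (fun X => f (X ∩ A)) = ex w' (fun X => f (X ∩ A)) := by
  obtain ⟨c, hc⟩ := exists_coeff_trace f A
  simp_rw [hc, ex_sum, ex_mul_left]
  exact sum_congr rfl fun S hS => by
    have := h S (mem_powerset.1 hS)
    unfold incl at this
    rw [this]

lemma indepOn_of_incl {w : Finset E → ℝ} {A B : Finset E}
    (h : ∀ S ⊆ A, ∀ T ⊆ B, incl w (S ∪ T) = incl w S * incl w T) : IndepOn w A B := by
  intro f g
  obtain ⟨c, hc⟩ := exists_coeff_trace f A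
  obtain ⟨c', hc'⟩ := exists_coeff_trace g B
  simp_rw [hc, hc', sum_mul_sum, ex_sum, ex_mul_left, sum_mul_sum]
  refine sum_congr rfl fun S hS => sum_congr rfl fun T hT => ?_
  have h1 := h S (mem_powerset.1 hS) T (mem_powerset.1 hT)
  unfold incl at h1
  have h2 : (fun X : Finset E => (c S * if S ⊆ X then (1:ℝ) else 0) * (c' T * if T ⊆ X then 1 else 0))
      = fun X => (c S * c' T) * (if S ∪ T ⊆ X then 1 else 0) := by
    ext X
    by_cases h1 : S ⊆ X <;> by_cases h2 : T ⊆ X <;> simp [h1, h2, union_subset_iff]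
  rw [h2, ex_mul_left, h1]; ring

lemma Dep.incl_indep {D : SimpleGraph E} {p : ℝ} {w : Finset E → ℝ} (h : Dep D p w)
    (S : Finset E) (hS : ∀ a ∈ S, ∀ b ∈ S, ¬ D.Adj a b) : incl w S = p ^ S.card := by
  induction S using Finset.induction_on with
  | empty => simp [incl, ex_const h.total]
  | insert v S hv ih =>
    have ih' := ih fun a ha b hb => hS a (mem_insert_of_mem ha) b (mem_insert_of_mem hb)
    have h1 := h.indep {v} S (by simpa using hv)
      (fun a ha b hb => hS a (by rw [mem_singleton.1 ha]; exact mem_insert_self _ _) b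
        (mem_insert_of_mem hb))
      (fun X => if v ∈ X then 1 else 0) (fun X => if S ⊆ X then 1 else 0)
    have e1 : (fun X : Finset E => if v ∈ X ∩ {v} then (1:ℝ) else 0) = fun X => if v ∈ X then 1 else 0 := by
      ext X; simp
    have e2 : (fun X : Finset E => if S ⊆ X ∩ S then (1:ℝ) else 0) = fun X => if S ⊆ X then 1 else 0 := by
      ext X; simp [subset_inter_iff]
    have e3 : (fun X : Finset E => (if v ∈ X ∩ {v} then (1:ℝ) else 0) * if S ⊆ X ∩ S then (1:ℝ) else 0)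
        = fun X => if insert v S ⊆ X then 1 else 0 := by
      ext X
      by_cases h1 : v ∈ X <;> by_cases h2 : S ⊆ X <;> simp [h1, h2, insert_subset_iff, subset_inter_iff]
    rw [e3, e1, e2, h.marg] at h1
    unfold incl at ih' ⊢
    rw [h1, ih', card_insert_of_notMem hv, pow_succ']

lemma Dep.mono {D D' : SimpleGraph E} (hD : D ≤ D') {p : ℝ} {w : Finset E → ℝ} (h : Dep D p w) :
    Dep D' p w :=
  ⟨h.nonneg, h.total, h.marg, fun A B hAB hadj =>
    h.indep A B hAB fun a ha b hb hab => hadj a ha b hb (hD hab)⟩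

/-! ### Convolution -/

/-- law of `op X Y` for independent `X`, `Y` -/
noncomputable def conv (op : Finset E → Finset E → Finset E) (w₁ w₂ : Finset E → ℝ)
    (Z : Finset E) : ℝ :=
  ∑ X, ∑ Y, if op X Y = Z then w₁ X * w₂ Y else 0

lemma ex_conv (op : Finset E → Finset E → Finset E) (w₁ w₂ : Finset E → ℝ) (f : Finset E → ℝ) :
    ex (conv op w₁ w₂) f = ex w₁ (fun X => ex w₂ (fun Y => f (op X Y))) := by
  unfold ex conv
  simp_rw [sum_mul, mul_sum]
  rw [sum_comm]
  refine sum_congr rfl fun X _ => ?_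
  rw [sum_comm]
  refine sum_congr rfl fun Y _ => ?_
  simp_rw [ite_mul, zero_mul]
  rw [sum_ite_eq]
  simp [mul_assoc]

lemma ex_comm (w₁ w₂ : Finset E → ℝ) (F : Finset E → Finset E → ℝ) :
    ex w₁ (fun X => ex w₂ (fun Y => F X Y)) = ex w₂ (fun Y => ex w₁ (fun X => F X Y)) := by
  unfold ex
  simp_rw [mul_sum]
  rw [sum_comm]
  refine sum_congr rfl fun X _ => sum_congr rfl fun Y _ => by ring

lemma conv_nonneg (op : Finset E → Finset E → Finset E) {w₁ w₂ : Finset E → ℝ}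
    (h₁ : ∀ X, 0 ≤ w₁ X) (h₂ : ∀ X, 0 ≤ w₂ X) (Z : Finset E) : 0 ≤ conv op w₁ w₂ Z :=
  sum_nonneg fun X _ => sum_nonneg fun Y _ => by
    split_ifs
    · exact mul_nonneg (h₁ X) (h₂ Y)
    · exact le_rfl

lemma conv_total (op : Finset E → Finset E → Finset E) {w₁ w₂ : Finset E → ℝ}
    (h₁ : ∑ X, w₁ X = 1) (h₂ : ∑ X, w₂ X = 1) : ∑ Z, conv op w₁ w₂ Z = 1 := by
  have := ex_conv op w₁ w₂ (fun _ => 1)
  simp only [ex_const h₂, ex_const h₁] at this
  simpa [ex] using this

lemma conv_indepOn (op : Finset E → Finset E → Finset E)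
    (hop : ∀ X Y A, op X Y ∩ A = op (X ∩ A) (Y ∩ A)) {w₁ w₂ : Finset E → ℝ} {A B : Finset E}
    (h₁ : IndepOn w₁ A B) (h₂ : IndepOn w₂ A B) : IndepOn (conv op w₁ w₂) A B := by
  intro f g
  simp only [ex_conv]
  simp_rw [hop]
  have e : ∀ X, ex w₂ (fun Y => f (op (X ∩ A) (Y ∩ A)) * g (op (X ∩ B) (Y ∩ B)))
      = ex w₂ (fun Y => f (op (X ∩ A) (Y ∩ A))) * ex w₂ (fun Y => g (op (X ∩ B) (Y ∩ B))) :=
    fun X => h₂ (fun Y => f (op (X ∩ A) Y)) (fun Y => g (op (X ∩ B) Y))
  simp_rw [e]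
  exact h₁ (fun X => ex w₂ (fun Y => f (op X (Y ∩ A)))) (fun X => ex w₂ (fun Y => g (op X (Y ∩ B))))

lemma Dep.inter {D : SimpleGraph E} {p q : ℝ} {w₁ w₂ : Finset E → ℝ} (h₁ : Dep D p w₁)
    (h₂ : Dep D q w₂) : Dep D (p * q) (conv (· ∩ ·) w₁ w₂) where
  nonneg := conv_nonneg _ h₁.nonneg h₂.nonneg
  total := conv_total _ h₁.total h₂.total
  marg e := by
    rw [ex_conv]
    have : ∀ X Y : Finset E, (if e ∈ X ∩ Y then (1:ℝ) else 0)
        = (if e ∈ X then 1 else 0) * (if e ∈ Y then 1 else 0) := by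
      intro X Y
      by_cases h1 : e ∈ X <;> by_cases h2 : e ∈ Y <;> simp [h1, h2]
    simp_rw [this, ex_mul_left, h₂.marg, ex_mul_right, h₁.marg]
  indep A B hAB hadj := conv_indepOn _ (fun X Y A => by ext x; simp only [mem_inter]; tauto)
    (h₁.indep A B hAB hadj) (h₂.indep A B hAB hadj)

lemma Dep.union {D : SimpleGraph E} {p q : ℝ} {w₁ w₂ : Finset E → ℝ} (h₁ : Dep D p w₁)
    (h₂ : Dep D q w₂) : Dep D (1 - (1 - p) * (1 - q)) (conv (· ∪ ·) w₁ w₂) where
  nonneg := conv_nonneg _ h₁.nonneg h₂.nonneg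
  total := conv_total _ h₁.total h₂.total
  marg e := by
    rw [ex_conv]
    have : ∀ X Y : Finset E, (if e ∈ X ∪ Y then (1:ℝ) else 0)
        = 1 - (1 - if e ∈ X then 1 else 0) * (1 - if e ∈ Y then 1 else 0) := by
      intro X Y
      by_cases h1 : e ∈ X <;> by_cases h2 : e ∈ Y <;> simp [h1, h2]
    simp_rw [this, ex_sub, ex_mul_left, ex_sub, h₂.marg, ex_const h₂.total, ex_mul_right, ex_sub,
      h₁.marg, ex_const h₁.total]
  indep A B hAB hadj := conv_indepOn _ (fun X Y A => by ext x; simp; tauto)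
    (h₁.indep A B hAB hadj) (h₂.indep A B hAB hadj)

end Pool.Agent.Work.MP_c7de0c_pr
end

-- merged part: Pool.Agent.Work.MP_c7de0c_pr.Shearer
section
/-!
Shearer's measure: a random independent set of a graph `D` of maximum degree at most `d`,
whose indicators have dependency graph `D`.
-/

set_option linter.unusedSectionVars false

namespace Pool.Agent.Work.MP_c7de0c_pr

open Finset

variable {E : Type*} [Fintype E] [DecidableEq E]

/-- signed sum: the would-be probability that `R` is contained and `W` is avoided -/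
noncomputable def zz (I : Finset E → ℝ) (R W : Finset E) : ℝ :=
  ∑ Q ∈ W.powerset, (-1) ^ Q.card * I (R ∪ Q)

lemma zz_empty (I : Finset E → ℝ) (R : Finset E) : zz I R ∅ = I R := by simp [zz]

lemma zz_insert (I : Finset E → ℝ) (R W : Finset E) {v : E} (hv : v ∉ W) :
    zz I R (insert v W) = zz I R W - zz I (insert v R) W := by
  unfold zz
  rw [sum_powerset_insert hv, sub_eq_add_neg, ← sum_neg_distrib]
  congr 1
  refine sum_congr rfl fun Q hQ => ?_
  have hvQ : v ∉ Q := fun h => hv (mem_powerset.1 hQ h)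
  rw [card_insert_of_notMem hvQ, pow_succ, union_insert, insert_union]
  ring

lemma sum_zz (I : Finset E → ℝ) (M : Finset E) : ∀ S W : Finset E, Disjoint M W →
    ∑ R ∈ M.powerset, zz I (S ∪ R) (W ∪ (M \ R)) = zz I S W := by
  induction M using Finset.induction_on with
  | empty => intro S W _; simp
  | insert v M hv ih =>
    intro S W hMW
    rw [disjoint_insert_left] at hMW
    rw [sum_powerset_insert hv]
    have e1 : ∑ R ∈ M.powerset, zz I (S ∪ R) (W ∪ (insert v M \ R))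
        = ∑ R ∈ M.powerset, zz I (S ∪ R) (insert v W ∪ (M \ R)) := by
      refine sum_congr rfl fun R hR => ?_
      have hvR : v ∉ R := fun h => hv (mem_powerset.1 hR h)
      congr 1
      ext x
      simp only [mem_union, mem_sdiff, mem_insert]
      constructor
      · rintro (h | ⟨rfl | h, h'⟩) <;> tauto
      · rintro ((rfl | h) | h) <;> tauto
    have e2 : ∑ R ∈ M.powerset, zz I (S ∪ insert v R) (W ∪ (insert v M \ insert v R))
        = ∑ R ∈ M.powerset, zz I (insert v S ∪ R) (W ∪ (M \ R)) := by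
      refine sum_congr rfl fun R hR => ?_
      congr 1
      · rw [union_insert, insert_union]
      · ext x
        simp only [mem_union, mem_sdiff, mem_insert]
        constructor
        · rintro (h | ⟨rfl | h, h'⟩) <;> tauto
        · rintro (h | ⟨h, h'⟩)
          · tauto
          · right
            refine ⟨Or.inr h, ?_⟩
            rintro (rfl | h'')
            · exact hv h
            · exact h' h''
    rw [e1, e2, ih S (insert v W) (by rw [disjoint_insert_right]; exact ⟨hv, hMW.2⟩),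
      ih (insert v S) W hMW.2, zz_insert I S W hMW.1]
    ring

lemma incl_zz (I : Finset E → ℝ) (S : Finset E) : incl (fun R => zz I R Rᶜ) S = I S := by
  have h := sum_zz I Sᶜ S ∅ (by simp)
  rw [zz_empty] at h
  rw [← h]
  unfold incl ex
  simp_rw [mul_ite, mul_one, mul_zero]
  rw [← sum_filter]
  symm
  refine sum_bij' (fun R _ => S ∪ R) (fun X _ => X \ S) ?_ ?_ ?_ ?_ ?_
  · intro R _; simp
  · intro X _; rw [mem_powerset]; intro x hx; simp [(mem_sdiff.1 hx).2]
  · intro R hR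
    rw [mem_powerset] at hR
    ext x
    simp only [mem_sdiff, mem_union]
    constructor
    · tauto
    · intro hx; exact ⟨Or.inr hx, by simpa using hR hx⟩
  · intro X hX
    rw [mem_filter] at hX
    exact union_sdiff_of_subset hX.2
  · intro R hR
    congr 1
    ext x
    simp

open Classical in
/-- inclusion probabilities of Shearer's measure -/
noncomputable def shI (D : SimpleGraph E) (ρ : ℝ) (S : Finset E) : ℝ :=
  if ∀ a ∈ S, ∀ b ∈ S, ¬ D.Adj a b then ρ ^ S.card else 0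

lemma shI_nonneg (D : SimpleGraph E) {ρ : ℝ} (hρ : 0 ≤ ρ) (S : Finset E) : 0 ≤ shI D ρ S := by
  unfold shI; split_ifs
  · positivity
  · exact le_rfl

lemma shI_adj (D : SimpleGraph E) (ρ : ℝ) {S : Finset E} {a b : E} (ha : a ∈ S) (hb : b ∈ S)
    (hab : D.Adj a b) : shI D ρ S = 0 := by
  unfold shI
  rw [if_neg]
  intro h
  exact h a ha b hb hab

lemma shI_union (D : SimpleGraph E) (ρ : ℝ) {S T : Finset E} (hST : Disjoint S T)
    (hadj : ∀ a ∈ S, ∀ b ∈ T, ¬ D.Adj a b) : shI D ρ (S ∪ T) = shI D ρ S * shI D ρ T := by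
  unfold shI
  by_cases hS : ∀ a ∈ S, ∀ b ∈ S, ¬ D.Adj a b
  · by_cases hT : ∀ a ∈ T, ∀ b ∈ T, ¬ D.Adj a b
    · rw [if_pos hS, if_pos hT, if_pos, card_union_of_disjoint hST, pow_add]
      intro a ha b hb
      rcases mem_union.1 ha with ha | ha <;> rcases mem_union.1 hb with hb | hb
      · exact hS a ha b hb
      · exact hadj a ha b hb
      · exact fun h => hadj b hb a ha h.symm
      · exact hT a ha b hb
    · rw [if_neg hT, if_neg, mul_zero]
      intro h
      exact hT fun a ha b hb => h a (mem_union_right _ ha) b (mem_union_right _ hb)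
  · rw [if_neg hS, if_neg, zero_mul]
    intro h
    exact hS fun a ha b hb => h a (mem_union_left _ ha) b (mem_union_left _ hb)

lemma shI_singleton (D : SimpleGraph E) (ρ : ℝ) (v : E) : shI D ρ {v} = ρ := by
  unfold shI
  rw [if_pos]
  · simp
  · simp

lemma zz_eq_zero_of_adj (D : SimpleGraph E) (ρ : ℝ) {R : Finset E} (W : Finset E) {a b : E}
    (ha : a ∈ R) (hb : b ∈ R) (hab : D.Adj a b) : zz (shI D ρ) R W = 0 := by
  unfold zz
  refine sum_eq_zero fun Q _ => ?_
  rw [shI_adj D ρ (mem_union_left _ ha) (mem_union_left _ hb) hab, mul_zero]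

/-- neighbours of a contained vertex are avoided for free -/
lemma zz_union_nbr (D : SimpleGraph E) (ρ : ℝ) {R W : Finset E} {v : E} (hv : v ∈ R)
    (W₁ : Finset E) (hW₁ : ∀ u ∈ W₁, D.Adj v u) (hd : Disjoint W₁ W) :
    zz (shI D ρ) R (W ∪ W₁) = zz (shI D ρ) R W := by
  induction W₁ using Finset.induction_on with
  | empty => simp
  | insert u W₁ hu ih =>
    rw [disjoint_insert_left] at hd
    rw [union_insert, zz_insert _ _ _ (by simp [hu, hd.1]),
      ih (fun x hx => hW₁ x (mem_insert_of_mem hx)) hd.2,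
      zz_eq_zero_of_adj D ρ _ (mem_insert_of_mem hv) (mem_insert_self u R)
        (hW₁ u (mem_insert_self _ _)), sub_zero]

lemma zz_insert_left (D : SimpleGraph E) (ρ : ℝ) {R W : Finset E} {v : E} (hvR : v ∉ R)
    (hvW : v ∉ W) (hR : ∀ u ∈ R, ¬ D.Adj v u) (hW : ∀ u ∈ W, ¬ D.Adj v u) :
    zz (shI D ρ) (insert v R) W = ρ * zz (shI D ρ) R W := by
  unfold zz
  rw [mul_sum]
  refine sum_congr rfl fun Q hQ => ?_
  rw [mem_powerset] at hQ
  rw [insert_union, insert_eq, shI_union D ρ, shI_singleton]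
  · ring
  · simp only [disjoint_singleton_left, mem_union, not_or]
    exact ⟨hvR, fun h => hvW (hQ h)⟩
  · intro a ha b hb
    rw [mem_singleton.1 ha]
    rcases mem_union.1 hb with hb | hb
    · exact hR b hb
    · exact hW b (hQ hb)

/-- the local-lemma induction -/
lemma zz_lll (D : SimpleGraph E) {d : ℕ} (hD : ∀ v, (D.neighborSet v).ncard ≤ d) {ρ x : ℝ}
    (hρ : 0 ≤ ρ) (hx0 : 0 ≤ x) (hx1 : x ≤ 1) (hρx : ρ ≤ x * (1 - x) ^ d) (m : ℕ) :
    ∀ W : Finset E, W.card = m → ∀ R : Finset E, Disjoint R W →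
      0 ≤ zz (shI D ρ) R W ∧
      ∀ v, v ∉ R → v ∉ W → zz (shI D ρ) (insert v R) W ≤ x * zz (shI D ρ) R W := by
  classical
  induction m using Nat.strong_induction_on with
  | _ m ih =>
    intro W hW R hRW
    -- adding vertices one at a time
    have step : ∀ W₁ W₂ : Finset E, Disjoint W₁ W₂ → W₂ ∪ W₁ ⊆ W →
        (1 - x) ^ W₁.card * zz (shI D ρ) R W₂ ≤ zz (shI D ρ) R (W₂ ∪ W₁) := by
      intro W₁ W₂
      induction W₁ using Finset.induction_on with
      | empty => intro _ _; simp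
      | insert u W₁ hu ih₁ =>
        intro hd hsub
        rw [disjoint_insert_left] at hd
        rw [union_insert] at hsub ⊢
        have hu' : u ∉ W₂ ∪ W₁ := by simp [hu, hd.1]
        have hsub' : W₂ ∪ W₁ ⊆ W := (subset_insert _ _).trans hsub
        have hlt : (W₂ ∪ W₁).card < m := by
          rw [← hW]
          exact card_lt_card ⟨hsub', fun h => hu' (h (hsub (mem_insert_self _ _)))⟩
        have huR : u ∉ R := fun h => (disjoint_left.1 hRW) h (hsub (mem_insert_self _ _))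
        obtain ⟨-, h2⟩ := ih _ hlt (W₂ ∪ W₁) rfl R (hRW.mono_right hsub')
        have h3 := h2 u huR hu'
        have h4 := ih₁ hd.2 hsub'
        rw [zz_insert _ _ _ hu', card_insert_of_notMem hu, pow_succ]
        have h5 : 0 ≤ 1 - x := by linarith
        nlinarith [mul_le_mul_of_nonneg_left h4 h5]
    have hpos : 0 ≤ zz (shI D ρ) R W := by
      have := step W ∅ (by simp) (by simp)
      rw [empty_union, zz_empty] at this
      refine le_trans ?_ this
      exact mul_nonneg (pow_nonneg (by linarith) _) (shI_nonneg D hρ R)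
    refine ⟨hpos, fun v hvR hvW => ?_⟩
    by_cases hRadj : ∃ u ∈ R, D.Adj v u
    · obtain ⟨u, hu, hadj⟩ := hRadj
      rw [zz_eq_zero_of_adj D ρ W (mem_insert_self v R) (mem_insert_of_mem hu) hadj]
      exact mul_nonneg hx0 hpos
    push Not at hRadj
    set W₁ := W.filter (fun u => D.Adj v u) with hW₁
    set W₂ := W.filter (fun u => ¬ D.Adj v u) with hW₂
    have hdis : Disjoint W₁ W₂ := disjoint_filter_filter_not _ _ _
    have hun : W₂ ∪ W₁ = W := by
      rw [union_comm]; exact filter_union_filter_not_eq _ _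
    have hcard : W₁.card ≤ d := by
      refine le_trans ?_ (hD v)
      rw [← Set.ncard_coe_finset]
      exact Set.ncard_le_ncard (fun u hu => (mem_filter.1 hu).2) (Set.toFinite _)
    have h1 := step W₁ W₂ hdis hun.subset
    rw [hun] at h1
    have h2 : zz (shI D ρ) (insert v R) W = ρ * zz (shI D ρ) R W₂ := by
      conv_lhs => rw [← hun]
      rw [zz_union_nbr D ρ (mem_insert_self v R) W₁ (fun u hu => (mem_filter.1 hu).2) hdis]
      exact zz_insert_left D ρ hvR (fun h => hvW (mem_filter.1 h).1) hRadj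
        (fun u hu => (mem_filter.1 hu).2)
    have h3 : 0 ≤ zz (shI D ρ) R W₂ := by
      have := step W₂ ∅ (by simp) (by simp [hW₂])
      rw [empty_union, zz_empty] at this
      refine le_trans ?_ this
      exact mul_nonneg (pow_nonneg (by linarith) _) (shI_nonneg D hρ R)
    have h4 : (1 - x) ^ d ≤ (1 - x) ^ W₁.card :=
      pow_le_pow_of_le_one (by linarith) (by linarith) hcard
    rw [h2]
    calc ρ * zz (shI D ρ) R W₂ ≤ x * (1 - x) ^ W₁.card * zz (shI D ρ) R W₂ :=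
          mul_le_mul_of_nonneg_right (hρx.trans (mul_le_mul_of_nonneg_left h4 hx0)) h3
      _ = x * ((1 - x) ^ W₁.card * zz (shI D ρ) R W₂) := by ring
      _ ≤ x * zz (shI D ρ) R W := mul_le_mul_of_nonneg_left h1 hx0

/-- Shearer's measure -/
noncomputable def sh (D : SimpleGraph E) (ρ : ℝ) (R : Finset E) : ℝ := zz (shI D ρ) R Rᶜ

lemma incl_sh (D : SimpleGraph E) (ρ : ℝ) (S : Finset E) : incl (sh D ρ) S = shI D ρ S :=
  incl_zz _ S

lemma sh_dep (D : SimpleGraph E) {d : ℕ} (hD : ∀ v, (D.neighborSet v).ncard ≤ d) {ρ x : ℝ}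
    (hρ : 0 ≤ ρ) (hx0 : 0 ≤ x) (hx1 : x ≤ 1) (hρx : ρ ≤ x * (1 - x) ^ d) :
    Dep D ρ (sh D ρ) where
  nonneg R := (zz_lll D hD hρ hx0 hx1 hρx _ Rᶜ rfl R disjoint_compl_right).1
  total := by
    have := incl_sh D ρ ∅
    simpa [incl, ex, shI] using this
  marg e := by
    have := incl_sh D ρ {e}
    rw [shI_singleton] at this
    simpa [incl] using this
  indep A B hAB hadj := indepOn_of_incl fun S hS T hT => by
    rw [incl_sh, incl_sh, incl_sh]
    exact shI_union D ρ (hAB.mono hS hT) fun a ha b hb => hadj a (hS ha) b (hT hb)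

lemma sh_eq_zero (D : SimpleGraph E) (ρ : ℝ) {R : Finset E} {a b : E}
    (ha : a ∈ R) (hb : b ∈ R) (hab : D.Adj a b) : sh D ρ R = 0 :=
  zz_eq_zero_of_adj D ρ _ ha hb hab

/-- the product measure -/
lemma bern_dep {ρ : ℝ} (h0 : 0 ≤ ρ) (h1 : ρ ≤ 1) : Dep (⊥ : SimpleGraph E) ρ (sh ⊥ ρ) :=
  sh_dep ⊥ (d := 0) (fun v => by simp) h0 h0 h1 (by simp)

lemma sh_dep' (D : SimpleGraph E) {d : ℕ} (hD : ∀ v, (D.neighborSet v).ncard ≤ d) :
    Dep D (1 / (4 * ((d : ℝ) + 1))) (sh D (1 / (4 * ((d : ℝ) + 1)))) := by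
  have hd : (0 : ℝ) ≤ d := Nat.cast_nonneg d
  refine sh_dep D hD (x := 1 / (2 * ((d : ℝ) + 1))) (by positivity) (by positivity) ?_ ?_
  · rw [div_le_one (by positivity)]; linarith
  · have h1 : 1 + (d : ℝ) * (-(1 / (2 * ((d : ℝ) + 1)))) ≤ (1 + -(1 / (2 * ((d : ℝ) + 1)))) ^ d := by
      apply one_add_mul_le_pow
      have : 1 / (2 * ((d : ℝ) + 1)) ≤ 1 := by rw [div_le_one (by positivity)]; linarith
      linarith
    have h2 : (1 : ℝ) / 2 ≤ 1 + (d : ℝ) * (-(1 / (2 * ((d : ℝ) + 1)))) := by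
      have : (d : ℝ) * (1 / (2 * ((d : ℝ) + 1))) ≤ 1 / 2 := by
        rw [mul_one_div, div_le_div_iff₀ (by positivity) (by positivity)]; linarith
      linarith
    rw [← sub_eq_add_neg] at h1
    calc 1 / (4 * ((d : ℝ) + 1)) = 1 / (2 * ((d : ℝ) + 1)) * (1 / 2) := by field_simp; ring
      _ ≤ _ := mul_le_mul_of_nonneg_left (h2.trans h1) (by positivity)

end Pool.Agent.Work.MP_c7de0c_pr
end

-- merged part: Pool.Agent.Work.MP_c7de0c_pr.Key
section
/-!
The two amplification lemmas.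
-/

set_option linter.unusedSectionVars false

namespace Pool.Agent.Work.MP_c7de0c_pr

open Finset

variable {E : Type*} [Fintype E] [DecidableEq E]

open Classical in
/-- probability of an event -/
noncomputable def pr (w : Finset E → ℝ) (A : Finset E → Prop) : ℝ :=
  ex w (fun X => if A X then 1 else 0)

lemma Dep.pr_nonneg {D : SimpleGraph E} {p : ℝ} {w : Finset E → ℝ} (h : Dep D p w)
    (A : Finset E → Prop) : 0 ≤ pr w A :=
  ex_nonneg h.nonneg fun X => by split_ifs <;> norm_num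

lemma Dep.pr_le_one {D : SimpleGraph E} {p : ℝ} {w : Finset E → ℝ} (h : Dep D p w)
    (A : Finset E → Prop) : pr w A ≤ 1 := by
  rw [← ex_const h.total 1]
  exact ex_mono h.nonneg fun X => by split_ifs <;> norm_num

lemma Dep.pr_not {D : SimpleGraph E} {p : ℝ} {w : Finset E → ℝ} (h : Dep D p w)
    (A : Finset E → Prop) : pr w (fun X => ¬ A X) = 1 - pr w A := by
  unfold pr
  rw [← ex_const h.total 1, ← ex_sub]
  congr 1
  ext X
  rw [ex_const h.total]
  by_cases hA : A X <;> simp [hA]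

lemma Dep.pr_union_le {D : SimpleGraph E} {p q : ℝ} {w₁ w₂ : Finset E → ℝ} (h₁ : Dep D p w₁)
    (h₂ : Dep D q w₂) {A : Finset E → Prop} (hA : ∀ X Y, X ⊆ Y → A Y → A X) :
    pr (conv (· ∪ ·) w₁ w₂) A ≤ pr w₁ A * pr w₂ A := by
  classical
  unfold pr
  rw [ex_conv, ← ex_mul_right]
  refine ex_mono h₁.nonneg fun X => ?_
  rw [← ex_mul_left]
  refine ex_mono h₂.nonneg fun Y => ?_
  by_cases h : A (X ∪ Y)
  · rw [if_pos h, if_pos (hA _ _ subset_union_left h), if_pos (hA _ _ subset_union_right h)]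
    norm_num
  · rw [if_neg h]
    split_ifs <;> norm_num

/-- union of `k` independent copies -/
lemma Dep.exists_pow {D : SimpleGraph E} {q : ℝ} {w : Finset E → ℝ} (h : Dep D q w)
    {A : Finset E → Prop} (hA : ∀ X Y, X ⊆ Y → A Y → A X) (k : ℕ) :
    ∃ w', Dep D (1 - (1 - q) ^ k) w' ∧ pr w' A ≤ pr w A ^ k := by
  induction k with
  | zero =>
    have hb : Dep D 0 (sh ⊥ 0) := (bern_dep le_rfl zero_le_one).mono bot_le
    exact ⟨sh ⊥ 0, by simpa using hb, by simpa using hb.pr_le_one A⟩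
  | succ k ih =>
    obtain ⟨w', hw', hle⟩ := ih
    refine ⟨conv (· ∪ ·) w' w, ?_, ?_⟩
    · have := hw'.union h
      convert this using 1
      ring
    · refine (hw'.pr_union_le h hA).trans ?_
      rw [pow_succ]
      exact mul_le_mul_of_nonneg_right hle (h.pr_nonneg A)

/-- sprinkling -/
lemma Dep.exists_raise {D : SimpleGraph E} {q p : ℝ} {w : Finset E → ℝ} (h : Dep D q w)
    (hqp : q ≤ p) (hp : p ≤ 1) {A : Finset E → Prop} (hA : ∀ X Y, X ⊆ Y → A Y → A X) :
    ∃ w', Dep D p w' ∧ pr w' A ≤ pr w A := by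
  rcases eq_or_lt_of_le hqp with rfl | hlt
  · exact ⟨w, h, le_rfl⟩
  have h1 : 0 < 1 - q := by linarith
  have hr0 : 0 ≤ (p - q) / (1 - q) := div_nonneg (by linarith) h1.le
  have hr1 : (p - q) / (1 - q) ≤ 1 := by rw [div_le_one h1]; linarith
  have hb : Dep D _ (sh ⊥ _) := (bern_dep hr0 hr1).mono bot_le
  refine ⟨_, ?_, (h.pr_union_le hb hA).trans ?_⟩
  · have := h.union hb
    convert this using 1
    field_simp
    ring
  · exact mul_le_of_le_one_right (h.pr_nonneg A) (hb.pr_le_one A)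

/-- lower amplification -/
lemma Dep.amp_up {D : SimpleGraph E} {q p : ℝ} {w : Finset E → ℝ} (h : Dep D q w)
    (hq1 : q ≤ 1) {k : ℕ} (hqp : k * q ≤ p) (hp : p ≤ 1) {A : Finset E → Prop}
    (hA : ∀ X Y, X ⊆ Y → A Y → A X) :
    ∃ w', Dep D p w' ∧ pr w' A ≤ pr w A ^ k := by
  obtain ⟨w₁, h₁, hle₁⟩ := h.exists_pow hA k
  have hb : 1 + (k : ℝ) * (-q) ≤ (1 + -q) ^ k := one_add_mul_le_pow (by linarith) k
  obtain ⟨w₂, h₂, hle₂⟩ := h₁.exists_raise (p := p) (by rw [← sub_eq_add_neg] at hb; linarith) hp hA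
  exact ⟨w₂, h₂, hle₂.trans hle₁⟩

/-- upper amplification, through Shearer's measure -/
lemma Dep.amp_down {D : SimpleGraph E} {d : ℕ} (hD : ∀ v, (D.neighborSet v).ncard ≤ d)
    {q p : ℝ} {w : Finset E → ℝ} (h : Dep D q w) (hq1 : q ≤ 1) (hp0 : 0 ≤ p) {k : ℕ} (hk : 0 < k)
    (hpq : 4 * ((d : ℝ) + 1) * k * p ≤ q) {A : Finset E → Prop}
    (hA : ∀ X Y, X ⊆ Y → A Y → A X) {y : ℝ} (hy : y ^ k ≤ pr w A) :
    ∃ w', Dep D p w' ∧ y ≤ pr w' A := by
  classical
  have hd : (0 : ℝ) ≤ d := Nat.cast_nonneg d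
  have hk' : (1 : ℝ) ≤ k := by exact_mod_cast hk
  set θ : ℝ := 4 * ((d : ℝ) + 1) * p with hθ
  have hθ0 : 0 ≤ θ := by positivity
  have hkθ : k * θ ≤ q := by rw [hθ]; linarith
  have hθ1 : θ ≤ 1 := by nlinarith
  have hb : Dep (⊥ : SimpleGraph E) θ (sh ⊥ θ) := bern_dep hθ0 hθ1
  have hs := sh_dep' D hD
  refine ⟨conv (· ∩ ·) (sh D (1 / (4 * ((d : ℝ) + 1)))) (sh ⊥ θ), ?_, ?_⟩
  · have := hs.inter (hb.mono bot_le)
    convert this using 1
    rw [hθ]
    field_simp
  · unfold pr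
    rw [ex_conv, ← ex_const hs.total y]
    refine sum_le_sum fun T _ => ?_
    by_cases hT : ∀ a ∈ T, ∀ b ∈ T, ¬ D.Adj a b
    · refine mul_le_mul_of_nonneg_left ?_ (hs.nonneg T)
      have hA' : ∀ X Y : Finset E, X ⊆ Y → A (Y ∩ T) → A (X ∩ T) :=
        fun X Y hXY => hA _ _ (inter_subset_inter_right hXY)
      obtain ⟨w', hw', hle⟩ := hb.amp_up hθ1 hkθ hq1 (A := fun X => A (X ∩ T)) hA'
      have e1 : pr w' (fun X => A (X ∩ T)) = pr w (fun X => A (X ∩ T)) := by
        unfold pr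
        refine ex_trace_eq (A := T) (fun S hS => ?_) (fun X => if A X then 1 else 0)
        rw [hw'.incl_indep S (by simp), h.incl_indep S fun a ha b hb => hT a (hS ha) b (hS hb)]
      have e2 : pr w A ≤ pr w (fun X => A (X ∩ T)) := by
        unfold pr
        refine ex_mono h.nonneg fun X => ?_
        by_cases hX : A X
        · rw [if_pos hX, if_pos (hA _ _ inter_subset_left hX)]
        · rw [if_neg hX]; split_ifs <;> norm_num
      have e3 : y ^ k ≤ pr (sh ⊥ θ) (fun X => A (X ∩ T)) ^ k := hy.trans (e2.trans (e1 ▸ hle))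
      have e4 := le_of_pow_le_pow_left₀ hk.ne' (hb.pr_nonneg _) e3
      unfold pr at e4
      simpa only [inter_comm T] using e4
    · push Not at hT
      obtain ⟨a, ha, b, hb, hab⟩ := hT
      rw [sh_eq_zero D _ ha hb hab, zero_mul, zero_mul]

lemma Dep.pr_ne_empty_le {D : SimpleGraph E} {p : ℝ} {w : Finset E → ℝ} (h : Dep D p w)
    {A : Finset E → Prop} (hA : ¬ A ∅) : pr w A ≤ Fintype.card E * p := by
  classical
  have : (Fintype.card E : ℝ) * p = ex w (fun X => ∑ e : E, if e ∈ X then 1 else 0) := by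
    rw [ex_sum]
    simp [h.marg]
  rw [this]
  refine ex_mono h.nonneg fun X => ?_
  split_ifs with hX
  · have hne : X.Nonempty := by
      rw [nonempty_iff_ne_empty]; rintro rfl; exact hA hX
    obtain ⟨e, he⟩ := hne
    calc (1 : ℝ) = if e ∈ X then 1 else 0 := by rw [if_pos he]
      _ ≤ _ := single_le_sum (f := fun e => if e ∈ X then (1 : ℝ) else 0)
          (fun i _ => by split_ifs <;> norm_num) (mem_univ e)
  · exact sum_nonneg fun i _ => by split_ifs <;> norm_num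

lemma pr_bern_one {A : Finset E → Prop} (hA : A univ) : pr (sh (⊥ : SimpleGraph E) 1) A = 1 := by
  classical
  have hb : Dep (⊥ : SimpleGraph E) 1 (sh ⊥ 1) := bern_dep zero_le_one le_rfl
  refine le_antisymm (hb.pr_le_one A) ?_
  have h1 := hb.incl_indep univ (by simp)
  rw [one_pow] at h1
  refine h1.symm.le.trans ?_
  refine ex_mono hb.nonneg fun X => ?_
  split_ifs with h1 h2
  · exact le_rfl
  · exact absurd ((univ_subset_iff.1 h1) ▸ hA) h2
  · norm_num
  · exact le_rfl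

end Pool.Agent.Work.MP_c7de0c_pr
end

-- merged part: Pool.Agent.Work.MP_c7de0c_pr.Bridge
section
/-!
From measures on graphs to weight functions on sets of edges, and back.
-/

namespace Pool.Agent.Work.MP_c7de0c_pr

open Finset MeasureTheory ProbabilityTheory

variable {n : ℕ}

/-- the graph with a given set of edges -/
def ofFin (X : Finset (Edge n)) : SimpleGraph (Fin n) :=
  SimpleGraph.fromEdgeSet (Subtype.val '' (X : Set (Edge n)))

lemma mem_ofFin (X : Finset (Edge n)) (e : Edge n) : e.1 ∈ (ofFin X).edgeSet ↔ e ∈ X := by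
  unfold ofFin
  rw [SimpleGraph.edgeSet_fromEdgeSet]
  constructor
  · rintro ⟨⟨e', he', h⟩, -⟩
    rw [← Subtype.ext h]; exact he'
  · intro he
    exact ⟨⟨e, he, rfl⟩, e.2⟩

lemma ofFin_injective : Function.Injective (ofFin : Finset (Edge n) → SimpleGraph (Fin n)) := by
  intro X Y h
  ext e
  rw [← mem_ofFin, ← mem_ofFin, h]

lemma ofFin_surjective : Function.Surjective (ofFin : Finset (Edge n) → SimpleGraph (Fin n)) := by
  classical
  intro G
  refine ⟨univ.filter (fun e => e.1 ∈ G.edgeSet), ?_⟩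
  apply SimpleGraph.edgeSet_injective
  ext e
  by_cases he : e.IsDiag
  · constructor
    · intro h; exact absurd he (SimpleGraph.not_isDiag_of_mem_edgeSet _ h)
    · intro h; exact absurd he (SimpleGraph.not_isDiag_of_mem_edgeSet _ h)
  · have := mem_ofFin (univ.filter (fun e => e.1 ∈ G.edgeSet)) ⟨e, he⟩
    simpa using this

lemma ofFin_mono {X Y : Finset (Edge n)} (h : X ⊆ Y) : ofFin X ≤ ofFin Y :=
  SimpleGraph.fromEdgeSet_mono (Set.image_mono h)

lemma ofFin_empty : ofFin (∅ : Finset (Edge n)) = ⊥ := by simp [ofFin]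

lemma le_ofFin_univ (G : SimpleGraph (Fin n)) : G ≤ ofFin univ := by
  obtain ⟨X, rfl⟩ := ofFin_surjective G
  exact ofFin_mono (subset_univ X)

lemma measurableSet_graph (s : Set (SimpleGraph (Fin n))) : MeasurableSet s := by
  have h1 : ∀ G : SimpleGraph (Fin n), MeasurableSet ({G} : Set (SimpleGraph (Fin n))) := by
    intro G
    have : ({G} : Set (SimpleGraph (Fin n))) = SimpleGraph.edgeSet ⁻¹' {G.edgeSet} := by
      ext H; simp
    rw [this]
    exact SimpleGraph.measurable_edgeSet (measurableSet_singleton _)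
  have : s = ⋃ G ∈ s, {G} := by simp
  rw [this]
  exact MeasurableSet.biUnion (Set.to_countable s) fun G _ => h1 G

/-- the weights `w` represent the measure `μ` -/
def Rep (μ : Measure (SimpleGraph (Fin n))) (w : Finset (Edge n) → ℝ) : Prop :=
  ∀ s : Set (SimpleGraph (Fin n)), μ.real s = pr w (fun X => ofFin X ∈ s)

lemma exists_rep (μ : Measure (SimpleGraph (Fin n))) [IsProbabilityMeasure μ] :
    ∃ w, Rep μ w ∧ ∀ X, 0 ≤ w X := by
  classical
  refine ⟨fun X => μ.real {ofFin X}, fun s => ?_, fun X => measureReal_nonneg⟩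
  have h1 : s = ⋃ X ∈ univ.filter (fun X : Finset (Edge n) => ofFin X ∈ s), {ofFin X} := by
    ext G
    obtain ⟨X, rfl⟩ := ofFin_surjective G
    simp [ofFin_injective.eq_iff]
  conv_lhs => rw [h1]
  rw [measureReal_biUnion_finset]
  · unfold pr ex
    rw [sum_filter]
    exact sum_congr rfl fun X _ => by by_cases hX : ofFin X ∈ s <;> simp [hX]
  · intro X _ Y _ hXY
    simp [Function.onFun, ofFin_injective.eq_iff, hXY]
  · intro X _; exact measurableSet_graph _

lemma exists_measure (w : Finset (Edge n) → ℝ) (h0 : ∀ X, 0 ≤ w X) (h1 : ∑ X, w X = 1) :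
    ∃ μ : Measure (SimpleGraph (Fin n)), IsProbabilityMeasure μ ∧ Rep μ w := by
  classical
  let μ : Measure (SimpleGraph (Fin n)) := ∑ X, ENNReal.ofReal (w X) • Measure.dirac (ofFin X)
  have hμ : ∀ s, μ s = ENNReal.ofReal (pr w (fun X => ofFin X ∈ s)) := by
    intro s
    simp only [μ, Measure.coe_finsetSum, Finset.sum_apply, Measure.smul_apply, smul_eq_mul]
    unfold pr ex
    rw [ENNReal.ofReal_sum_of_nonneg]
    · refine sum_congr rfl fun X _ => ?_
      rw [Measure.dirac_apply' _ (measurableSet_graph s)]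
      by_cases hX : ofFin X ∈ s <;> simp [hX]
    · intro X _
      exact mul_nonneg (h0 X) (by by_cases hX : ofFin X ∈ s <;> simp [hX])
  refine ⟨μ, ⟨?_⟩, fun s => ?_⟩
  · rw [hμ]
    simp [pr, ex, h1]
  · rw [measureReal_def, hμ, ENNReal.toReal_ofReal]
    exact ex_nonneg h0 fun X => by split_ifs <;> norm_num

lemma pr_congr {E : Type*} [Fintype E] [DecidableEq E] (w : Finset E → ℝ) {A B : Finset E → Prop}
    (h : ∀ X, A X ↔ B X) : pr w A = pr w B := by
  have : A = B := funext fun X => propext (h X)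
  rw [this]

lemma pr_eq_ex {E : Type*} [Fintype E] [DecidableEq E] (w : Finset E → ℝ) (A : Finset E → Prop)
    [DecidablePred A] : pr w A = ex w (fun X => if A X then 1 else 0) := by
  unfold pr
  congr 1
  ext X
  by_cases h : A X <;> simp [h]

lemma IsDepDist.exists_dep {p : ℝ} {d : ℕ} {μ : Measure (SimpleGraph (Fin n))}
    (h : IsDepDist n p d μ) :
    ∃ (D : SimpleGraph (Edge n)) (w : Finset (Edge n) → ℝ),
      (∀ e, (D.neighborSet e).ncard ≤ d) ∧ Dep D p w ∧ Rep μ w := by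
  classical
  have := h.prob
  obtain ⟨D, hD, hind⟩ := h.dep
  obtain ⟨w, hw, h0⟩ := exists_rep μ
  have hincl : ∀ S : Finset (Edge n), incl w S = μ.real {G | ∀ e ∈ S, e.1 ∈ G.edgeSet} := by
    intro S
    rw [hw, pr_congr w (B := fun X => S ⊆ X), pr_eq_ex]
    · rfl
    · intro X
      simp only [Set.mem_ofPred_eq, mem_ofFin]
      rfl
  refine ⟨D, w, hD, ⟨h0, ?_, fun e => ?_, fun A B hAB hadj => ?_⟩, hw⟩
  · have := hw Set.univ
    simpa [pr, ex] using this.symm
  · rw [← h.marginal e, hw, pr_congr w (B := fun X => e ∈ X), pr_eq_ex]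
    intro X
    simp only [Set.mem_ofPred_eq, mem_ofFin]
  · refine indepOn_of_incl fun S hS T hT => ?_
    have h1 := hind (A : Set (Edge n)) (B : Set (Edge n)) (by exact_mod_cast hAB) hadj
    rw [indepFun_iff_measure_inter_preimage_eq_mul] at h1
    have h2 := h1 {φ | ∀ a, a.1 ∈ S → φ a} {φ | ∀ b, b.1 ∈ T → φ b}
      (Set.toFinite _).measurableSet (Set.toFinite _).measurableSet
    rw [hincl, hincl, hincl]
    simp only [measureReal_def]
    rw [← ENNReal.toReal_mul]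
    congr 1
    convert h2 using 3
    · ext G
      simp only [Set.mem_ofPred_eq, Set.mem_inter_iff, Set.mem_preimage, mem_union]
      constructor
      · intro hG
        exact ⟨fun a ha => hG _ (Or.inl ha), fun b hb => hG _ (Or.inr hb)⟩
      · rintro ⟨h1, h2⟩ e (he | he)
        · exact h1 ⟨e, hS he⟩ he
        · exact h2 ⟨e, hT he⟩ he
    · ext G
      simp only [Set.mem_ofPred_eq, Set.mem_preimage]
      exact ⟨fun hG a ha => hG _ ha, fun h1 e he => h1 ⟨e, hS he⟩ he⟩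
    · ext G
      simp only [Set.mem_ofPred_eq, Set.mem_preimage]
      exact ⟨fun hG a ha => hG _ ha, fun h1 e he => h1 ⟨e, hT he⟩ he⟩

lemma Dep.exists_isDepDist {p : ℝ} {d : ℕ} {D : SimpleGraph (Edge n)} {w : Finset (Edge n) → ℝ}
    (hD : ∀ e, (D.neighborSet e).ncard ≤ d) (h : Dep D p w) :
    ∃ μ : Measure (SimpleGraph (Fin n)), IsDepDist n p d μ ∧ Rep μ w := by
  classical
  obtain ⟨μ, hμ, hw⟩ := exists_measure w h.nonneg h.total
  refine ⟨μ, ⟨hμ, fun e => ?_, D, hD, fun A B hAB hadj => ?_⟩, hw⟩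
  · rw [← h.marg e, hw, pr_congr w (B := fun X => e ∈ X), pr_eq_ex]
    intro X
    simp only [Set.mem_ofPred_eq, mem_ofFin]
  · rw [indepFun_iff_measure_inter_preimage_eq_mul]
    intro s t _ _
    have h1 := h.indep A.toFinset B.toFinset (by simpa using hAB)
      (fun a ha b hb => hadj a (by simpa using ha) b (by simpa using hb))
      (fun X => if (fun a : A => a.1 ∈ X) ∈ s then 1 else 0)
      (fun X => if (fun b : B => b.1 ∈ X) ∈ t then 1 else 0)
    have eA : ∀ X : Finset (Edge n), (fun a : A => a.1 ∈ X ∩ A.toFinset) = fun a : A => a.1 ∈ X := by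
      intro X; ext a; simp
    have eB : ∀ X : Finset (Edge n), (fun b : B => b.1 ∈ X ∩ B.toFinset) = fun b : B => b.1 ∈ X := by
      intro X; ext b; simp
    simp only [eA, eB] at h1
    rw [← ENNReal.toReal_eq_toReal_iff' (measure_ne_top _ _)
      (ENNReal.mul_ne_top (measure_ne_top _ _) (measure_ne_top _ _)), ENNReal.toReal_mul,
      ← measureReal_def, ← measureReal_def, ← measureReal_def, hw, hw, hw,
      pr_congr w (B := fun X => (fun a : A => a.1 ∈ X) ∈ s ∧ (fun b : B => b.1 ∈ X) ∈ t),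
      pr_congr w (A := fun X => ofFin X ∈ _ ⁻¹' s) (B := fun X => (fun a : A => a.1 ∈ X) ∈ s),
      pr_congr w (A := fun X => ofFin X ∈ _ ⁻¹' t) (B := fun X => (fun b : B => b.1 ∈ X) ∈ t),
      pr_eq_ex, pr_eq_ex, pr_eq_ex, ← h1]
    · congr 1
      ext X
      by_cases h1 : (fun a : A => a.1 ∈ X) ∈ s <;> by_cases h2 : (fun b : B => b.1 ∈ X) ∈ t <;>
        simp [h1, h2]
    · intro X; simp only [Set.mem_preimage, mem_ofFin]
    · intro X; simp only [Set.mem_preimage, mem_ofFin]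
    · intro X; simp only [Set.mem_inter_iff, Set.mem_preimage, mem_ofFin]

end Pool.Agent.Work.MP_c7de0c_pr
end

-- merged part: Pool.Agent.Work.MP_c7de0c_pr.Main
section
/-!
Lower and upper thresholds for locally dependent random graphs.
-/

namespace Pool.Agent.Work.MP_c7de0c_pr

open Finset MeasureTheory ProbabilityTheory Filter Asymptotics Topology

section OneSize

variable {n d : ℕ} {P : Set (SimpleGraph (Fin n))}

lemma IsDepDist.compl {p : ℝ} {μ : Measure (SimpleGraph (Fin n))} (h : IsDepDist n p d μ)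
    (P : Set (SimpleGraph (Fin n))) : μ.real Pᶜ = 1 - μ.real P := by
  have := h.prob
  rw [measureReal_compl (measurableSet_graph P)]
  simp

lemma IsDepDist.le_one {p : ℝ} {μ : Measure (SimpleGraph (Fin n))} (h : IsDepDist n p d μ)
    (P : Set (SimpleGraph (Fin n))) : μ.real P ≤ 1 := by
  have := h.prob
  exact measureReal_le_one

lemma bot_deg (d : ℕ) : ∀ e, ((⊥ : SimpleGraph (Edge n)).neighborSet e).ncard ≤ d := by
  intro e; simp

lemma exists_isDepDist (n d : ℕ) {p : ℝ} (h0 : 0 ≤ p) (h1 : p ≤ 1) :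
    ∃ μ, IsDepDist n p d μ := by
  obtain ⟨μ, hμ, -⟩ := (bern_dep (E := Edge n) h0 h1).exists_isDepDist (bot_deg d)
  exact ⟨μ, hμ⟩

lemma down_compl (hP : IsUpperSet P) :
    ∀ X Y : Finset (Edge n), X ⊆ Y → ofFin Y ∈ Pᶜ → ofFin X ∈ Pᶜ :=
  fun _ _ hXY hY hX => hY (hP (ofFin_mono hXY) hX)

lemma IsDepDist.amp_up (hP : IsUpperSet P) {q p : ℝ} {μ : Measure (SimpleGraph (Fin n))}
    (h : IsDepDist n q d μ) (hq1 : q ≤ 1) {k : ℕ} (hqp : k * q ≤ p) (hp : p ≤ 1) :
    ∃ ν, IsDepDist n p d ν ∧ ν.real Pᶜ ≤ μ.real Pᶜ ^ k := by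
  obtain ⟨D, w, hD, hw, hrep⟩ := h.exists_dep
  obtain ⟨w', hw', hle⟩ := hw.amp_up hq1 hqp hp (down_compl hP)
  obtain ⟨ν, hν, hrep'⟩ := hw'.exists_isDepDist hD
  exact ⟨ν, hν, by rw [hrep, hrep']; exact hle⟩

lemma IsDepDist.amp_down (hP : IsUpperSet P) {q p : ℝ} {μ : Measure (SimpleGraph (Fin n))}
    (h : IsDepDist n q d μ) (hq1 : q ≤ 1) (hp0 : 0 ≤ p) {k : ℕ} (hk : 0 < k)
    (hpq : 4 * ((d : ℝ) + 1) * k * p ≤ q) {y : ℝ} (hy : y ^ k ≤ μ.real Pᶜ) :
    ∃ ν, IsDepDist n p d ν ∧ y ≤ ν.real Pᶜ := by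
  obtain ⟨D, w, hD, hw, hrep⟩ := h.exists_dep
  rw [hrep] at hy
  obtain ⟨w', hw', hle⟩ := hw.amp_down hD hq1 hp0 hk hpq (down_compl hP) hy
  obtain ⟨ν, hν, hrep'⟩ := hw'.exists_isDepDist hD
  exact ⟨ν, hν, by rw [hrep']; exact hle⟩

lemma IsDepDist.small (hP : IsUpperSet P) (hne : P ≠ Set.univ) {p : ℝ}
    {μ : Measure (SimpleGraph (Fin n))} (h : IsDepDist n p d μ) :
    μ.real P ≤ Fintype.card (Edge n) * p := by
  obtain ⟨D, w, hD, hw, hrep⟩ := h.exists_dep
  rw [hrep]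
  refine hw.pr_ne_empty_le ?_
  rw [ofFin_empty]
  intro hb
  exact hne (Set.eq_univ_of_forall fun G => hP bot_le hb)

lemma exists_full (d : ℕ) (hP : IsUpperSet P) (hne : P.Nonempty) :
    ∃ μ, IsDepDist n 1 d μ ∧ μ.real P = 1 := by
  obtain ⟨μ, hμ, hrep⟩ := (bern_dep (E := Edge n) zero_le_one le_rfl).exists_isDepDist (bot_deg d)
  refine ⟨μ, hμ, ?_⟩
  rw [hrep]
  obtain ⟨G, hG⟩ := hne
  exact pr_bern_one (hP (le_ofFin_univ G) hG)

/-- the set whose infimum is the lower threshold -/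
def lowSet (n d : ℕ) (P : Set (SimpleGraph (Fin n))) : Set ℝ :=
  {q | 0 ≤ q ∧ q ≤ 1 ∧ ∃ μ, IsDepDist n q d μ ∧ μ.real Pᶜ ≤ 1 / 2}

/-- the set whose supremum is the upper threshold -/
def upSet (n d : ℕ) (P : Set (SimpleGraph (Fin n))) : Set ℝ :=
  {u | ∃ (j : ℕ) (q : ℝ), 0 ≤ q ∧ q ≤ 1 ∧ u = q / (j + 1) ∧
    ∃ μ, IsDepDist n q d μ ∧ (1 / 2) ^ (j + 1) ≤ μ.real Pᶜ}

lemma exists_low (hP : IsUpperSet P) (h1 : P.Nonempty) (h2 : P ≠ Set.univ) (d : ℕ) :
    ∃ L : ℝ, 0 < L ∧
      (∀ (k : ℕ) (p : ℝ) μ, 0 ≤ p → p ≤ 1 → IsDepDist n p d μ → μ.real Pᶜ ^ k ≤ 1 / 2 → L ≤ k * p) ∧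
      (∀ (k : ℕ) (p : ℝ), p ≤ 1 → 2 * k * L ≤ p → ∃ ν, IsDepDist n p d ν ∧ ν.real Pᶜ ≤ (1 / 2) ^ k) := by
  have hone : (1 : ℝ) ∈ lowSet n d P := by
    obtain ⟨μ, hμ, h⟩ := exists_full d hP h1
    exact ⟨zero_le_one, le_rfl, μ, hμ, by rw [hμ.compl, h]; norm_num⟩
  have hbdd : BddBelow (lowSet n d P) := ⟨0, fun q hq => hq.1⟩
  have hN : (0 : ℝ) ≤ Fintype.card (Edge n) := Nat.cast_nonneg _
  have hpos : 0 < sInf (lowSet n d P) := by
    refine lt_of_lt_of_le (b := 1 / (2 * ((Fintype.card (Edge n) : ℝ) + 1))) (by positivity) ?_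
    refine le_csInf ⟨1, hone⟩ ?_
    rintro q ⟨hq0, -, μ, hμ, hle⟩
    have h3 := hμ.small hP h2
    rw [hμ.compl] at hle
    rw [div_le_iff₀ (by positivity)]
    nlinarith
  refine ⟨sInf (lowSet n d P), hpos, fun k p μ hp0 hp1 hμ hk => ?_, fun k p hp1 hk => ?_⟩
  · by_cases hkp : (k : ℝ) * p ≤ 1
    · obtain ⟨ν, hν, hle⟩ := hμ.amp_up hP hp1 (k := k) le_rfl hkp
      exact csInf_le hbdd ⟨by positivity, hkp, ν, hν, hle.trans hk⟩
    · exact (csInf_le hbdd hone).trans (not_le.1 hkp).le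
  · obtain ⟨q, ⟨hq0, hq1, μ, hμ, hle⟩, hq⟩ :=
      exists_lt_of_csInf_lt ⟨1, hone⟩ (show sInf (lowSet n d P) < 2 * sInf (lowSet n d P) by linarith)
    have hk0 : (0 : ℝ) ≤ k := Nat.cast_nonneg _
    obtain ⟨ν, hν, hle'⟩ := hμ.amp_up hP hq1 (k := k) (p := p) (by nlinarith) hp1
    exact ⟨ν, hν, hle'.trans (pow_le_pow_left₀ measureReal_nonneg hle k)⟩

lemma exists_up (hP : IsUpperSet P) (h2 : P ≠ Set.univ) (d : ℕ) :
    ∃ U : ℝ, 0 < U ∧
      (∀ (j : ℕ) (p : ℝ) μ, 0 ≤ p → p ≤ 1 → IsDepDist n p d μ → (1 / 2) ^ (j + 1) ≤ μ.real Pᶜ →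
        p ≤ (j + 1) * U) ∧
      (∀ (m : ℕ) (p y : ℝ), 0 < m → 0 ≤ p → 8 * m * ((d + 1) * p) ≤ U → 0 ≤ y → y ^ m ≤ 1 / 2 →
        ∃ ν, IsDepDist n p d ν ∧ y ≤ ν.real Pᶜ) := by
  have hN : (0 : ℝ) ≤ Fintype.card (Edge n) := Nat.cast_nonneg _
  have hbdd : BddAbove (upSet n d P) := by
    refine ⟨1, ?_⟩
    rintro u ⟨j, q, hq0, hq1, rfl, -⟩
    have : (0 : ℝ) ≤ j := Nat.cast_nonneg _
    rw [div_le_one (by positivity)]
    linarith
  have hmem : 1 / (2 * ((Fintype.card (Edge n) : ℝ) + 1)) ∈ upSet n d P := by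
    have h0 : 0 ≤ 1 / (2 * ((Fintype.card (Edge n) : ℝ) + 1)) := by positivity
    have h1 : 1 / (2 * ((Fintype.card (Edge n) : ℝ) + 1)) ≤ 1 := by
      rw [div_le_one (by positivity)]; linarith
    obtain ⟨μ, hμ⟩ := exists_isDepDist n d h0 h1
    refine ⟨0, _, h0, h1, by simp, μ, hμ, ?_⟩
    have h3 := hμ.small hP h2
    have h4 : (Fintype.card (Edge n) : ℝ) * (1 / (2 * ((Fintype.card (Edge n) : ℝ) + 1))) ≤ 1 / 2 := by
      rw [mul_one_div, div_le_div_iff₀ (by positivity) (by positivity)]; linarith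
    rw [hμ.compl]
    norm_num
    linarith
  have hpos : 0 < sSup (upSet n d P) := lt_of_lt_of_le (by positivity) (le_csSup hbdd hmem)
  refine ⟨sSup (upSet n d P), hpos, fun j p μ hp0 hp1 hμ hj => ?_, fun m p y hm hp0 hpU hy0 hy => ?_⟩
  · have h := le_csSup hbdd (show p / (j + 1) ∈ upSet n d P from ⟨j, p, hp0, hp1, rfl, μ, hμ, hj⟩)
    rw [div_le_iff₀ (by positivity)] at h
    linarith
  · obtain ⟨u, ⟨j, q, hq0, hq1, rfl, μ, hμ, hj⟩, hu⟩ :=
      exists_lt_of_lt_csSup ⟨_, hmem⟩ (show sSup (upSet n d P) / 2 < sSup (upSet n d P) by linarith)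
    refine hμ.amp_down hP hq1 hp0 (k := m * (j + 1)) (by positivity) ?_ ?_
    · rw [lt_div_iff₀ (by positivity)] at hu
      have hj0 : (0 : ℝ) < (j : ℝ) + 1 := by positivity
      have := mul_le_mul_of_nonneg_right hpU hj0.le
      push_cast
      nlinarith
    · rw [pow_mul]
      exact (pow_le_pow_left₀ (pow_nonneg hy0 _) hy _).trans hj

end OneSize

/-- choosing nearly optimal distributions -/
lemma exists_seq_tendsto {α : ℕ → Type*} (R : ∀ n, α n → Prop) (f : ∀ n, α n → ℝ)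
    (hR : ∀ n, ∃ a, R n a) (hf : ∀ n a, 0 ≤ f n a)
    (h : ∀ ε : ℝ, 0 < ε → ∀ᶠ n in atTop, ∃ a, R n a ∧ f n a ≤ ε) :
    ∃ a : ∀ n, α n, (∀ n, R n (a n)) ∧ Tendsto (fun n => f n (a n)) atTop (𝓝 0) := by
  have key : ∀ n, ∃ a, R n a ∧ ∀ b, R n b → f n a ≤ f n b + 1 / ((n : ℝ) + 1) := by
    intro n
    have hne : (f n '' {a | R n a}).Nonempty := by
      obtain ⟨a, ha⟩ := hR n
      exact ⟨_, a, ha, rfl⟩
    have hbdd : BddBelow (f n '' {a | R n a}) := ⟨0, by rintro _ ⟨a, -, rfl⟩; exact hf n a⟩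
    have hlt : sInf (f n '' {a | R n a}) < sInf (f n '' {a | R n a}) + 1 / ((n : ℝ) + 1) := by
      have : (0 : ℝ) < 1 / ((n : ℝ) + 1) := by positivity
      linarith
    obtain ⟨_, ⟨a, ha, rfl⟩, hlt'⟩ := exists_lt_of_csInf_lt hne hlt
    refine ⟨a, ha, fun b hb => ?_⟩
    have := csInf_le hbdd ⟨b, hb, rfl⟩
    linarith
  choose a ha hmin using key
  refine ⟨a, ha, ?_⟩
  rw [tendsto_order]
  refine ⟨fun c hc => Eventually.of_forall fun n => hc.trans_le (hf n _), fun c hc => ?_⟩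
  have h1 := (tendsto_order.1 tendsto_one_div_add_atTop_nhds_zero_nat).2 (c / 2) (by linarith)
  filter_upwards [h (c / 2) (by linarith), h1] with n ⟨b, hb, hle⟩ hn
  have := hmin n b hb
  linarith

theorem thresholds (P : (n : ℕ) → Set (SimpleGraph (Fin n))) (hmono : ∀ n, IsUpperSet (P n))
    (hnt : ∀ᶠ n in atTop, (P n).Nonempty ∧ P n ≠ Set.univ) (d : ℕ → ℕ) :
    ∃ L U : ℕ → ℝ, (∀ n, 0 < L n) ∧ (∀ n, 0 < U n) ∧
      (∀ p : ℕ → ℝ, (∀ n, p n ∈ Set.Icc (0 : ℝ) 1) → p =o[atTop] L →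
        ∀ μ : (n : ℕ) → Measure (SimpleGraph (Fin n)), (∀ n, IsDepDist n (p n) (d n) (μ n)) →
          Tendsto (fun n => (μ n).real (P n)ᶜ) atTop (𝓝 1)) ∧
      (∀ p : ℕ → ℝ, (∀ n, p n ∈ Set.Icc (0 : ℝ) 1) → U =o[atTop] p →
        ∀ μ : (n : ℕ) → Measure (SimpleGraph (Fin n)), (∀ n, IsDepDist n (p n) (d n) (μ n)) →
          Tendsto (fun n => (μ n).real (P n)) atTop (𝓝 1)) ∧
      (∀ p : ℕ → ℝ, (∀ n, p n ∈ Set.Icc (0 : ℝ) 1) → L =o[atTop] p →
        ∃ μ : (n : ℕ) → Measure (SimpleGraph (Fin n)), (∀ n, IsDepDist n (p n) (d n) (μ n)) ∧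
          Tendsto (fun n => (μ n).real (P n)) atTop (𝓝 1)) ∧
      (∀ p : ℕ → ℝ, (∀ n, p n ∈ Set.Icc (0 : ℝ) 1) →
        (fun n => ((d n : ℝ) + 1) * p n) =o[atTop] U →
        ∃ μ : (n : ℕ) → Measure (SimpleGraph (Fin n)), (∀ n, IsDepDist n (p n) (d n) (μ n)) ∧
          Tendsto (fun n => (μ n).real (P n)ᶜ) atTop (𝓝 1)) := by
  have hL : ∀ n, ∃ L : ℝ, 0 < L ∧ (((P n).Nonempty ∧ P n ≠ Set.univ) →
      (∀ (k : ℕ) (p : ℝ) μ, 0 ≤ p → p ≤ 1 → IsDepDist n p (d n) μ → μ.real (P n)ᶜ ^ k ≤ 1 / 2 →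
        L ≤ k * p) ∧
      (∀ (k : ℕ) (p : ℝ), p ≤ 1 → 2 * k * L ≤ p →
        ∃ ν, IsDepDist n p (d n) ν ∧ ν.real (P n)ᶜ ≤ (1 / 2) ^ k)) := by
    intro n
    by_cases h : (P n).Nonempty ∧ P n ≠ Set.univ
    · obtain ⟨L, h0, h1⟩ := exists_low (hmono n) h.1 h.2 (d n)
      exact ⟨L, h0, fun _ => h1⟩
    · exact ⟨1, one_pos, fun h' => absurd h' h⟩
  have hU : ∀ n, ∃ U : ℝ, 0 < U ∧ (((P n).Nonempty ∧ P n ≠ Set.univ) →
      (∀ (j : ℕ) (p : ℝ) μ, 0 ≤ p → p ≤ 1 → IsDepDist n p (d n) μ →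
        (1 / 2) ^ (j + 1) ≤ μ.real (P n)ᶜ → p ≤ (j + 1) * U) ∧
      (∀ (m : ℕ) (p y : ℝ), 0 < m → 0 ≤ p → 8 * m * ((d n + 1) * p) ≤ U → 0 ≤ y → y ^ m ≤ 1 / 2 →
        ∃ ν, IsDepDist n p (d n) ν ∧ y ≤ ν.real (P n)ᶜ)) := by
    intro n
    by_cases h : (P n).Nonempty ∧ P n ≠ Set.univ
    · obtain ⟨U, h0, h1⟩ := exists_up (hmono n) h.2 (d n)
      exact ⟨U, h0, fun _ => h1⟩
    · exact ⟨1, one_pos, fun h' => absurd h' h⟩
  choose L hL0 hL using hL
  choose U hU0 hU using hU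
  refine ⟨L, U, hL0, hU0, fun p hp hpL μ hμ => ?_, fun p hp hUp μ hμ => ?_, fun p hp hLp => ?_,
    fun p hp hpU => ?_⟩
  · rw [tendsto_order]
    refine ⟨fun c hc => ?_, fun c hc => Eventually.of_forall fun n => ((hμ n).le_one _).trans_lt hc⟩
    obtain ⟨k, hk⟩ := exists_pow_lt_of_lt_one (show (0 : ℝ) < 1 / 2 by norm_num) hc
    have hk0 : (0 : ℝ) ≤ k := Nat.cast_nonneg _
    filter_upwards [hnt, hpL.bound (c := 1 / (k + 1)) (by positivity)] with n hn hb
    by_contra hcon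
    push Not at hcon
    have h1 := (hL n hn).1 k (p n) (μ n) (hp n).1 (hp n).2 (hμ n)
      ((pow_le_pow_left₀ measureReal_nonneg hcon k).trans hk.le)
    rw [Real.norm_of_nonneg (hp n).1, Real.norm_of_nonneg (hL0 n).le, one_div_mul_eq_div,
      le_div_iff₀ (by positivity)] at hb
    have h2 := hL0 n
    have h3 : 0 < p n := by
      rcases (hp n).1.eq_or_lt with h | h
      · rw [← h] at h1; linarith
      · exact h
    nlinarith
  · rw [tendsto_order]
    refine ⟨fun c hc => ?_, fun c hc => Eventually.of_forall fun n => ((hμ n).le_one _).trans_lt hc⟩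
    obtain ⟨j, hj⟩ := exists_pow_lt_of_lt_one (show (0 : ℝ) < 1 - c by linarith)
      (show (1 / 2 : ℝ) < 1 by norm_num)
    have hj0 : (0 : ℝ) ≤ j := Nat.cast_nonneg _
    filter_upwards [hnt, hUp.bound (c := 1 / (j + 2)) (by positivity)] with n hn hb
    by_contra hcon
    push Not at hcon
    have h0 : (1 / 2 : ℝ) ^ (j + 1) ≤ (1 / 2) ^ j :=
      pow_le_pow_of_le_one (by norm_num) (by norm_num) (Nat.le_succ j)
    have h1 := (hU n hn).1 j (p n) (μ n) (hp n).1 (hp n).2 (hμ n)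
      (by rw [(hμ n).compl]; linarith)
    rw [Real.norm_of_nonneg (hp n).1, Real.norm_of_nonneg (hU0 n).le, one_div_mul_eq_div,
      le_div_iff₀ (by positivity)] at hb
    have h2 := hU0 n
    nlinarith
  · obtain ⟨μ, hμ, hlim⟩ := exists_seq_tendsto (fun n μ => IsDepDist n (p n) (d n) μ)
      (fun n μ => μ.real (P n)ᶜ) (fun n => exists_isDepDist n (d n) (hp n).1 (hp n).2)
      (fun n μ => measureReal_nonneg) (fun ε hε => by
        obtain ⟨k, hk⟩ := exists_pow_lt_of_lt_one hε (show (1 / 2 : ℝ) < 1 by norm_num)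
        have hk0 : (0 : ℝ) ≤ k := Nat.cast_nonneg _
        filter_upwards [hnt, hLp.bound (c := 1 / (2 * k + 1)) (by positivity)] with n hn hb
        rw [Real.norm_of_nonneg (hp n).1, Real.norm_of_nonneg (hL0 n).le, one_div_mul_eq_div,
          le_div_iff₀ (by positivity)] at hb
        have h2 := hL0 n
        obtain ⟨ν, hν, hle⟩ := (hL n hn).2 k (p n) (hp n).2 (by nlinarith)
        exact ⟨ν, hν, hle.trans hk.le⟩)
    refine ⟨μ, hμ, ?_⟩
    have := hlim.const_sub 1
    simp only [(hμ _).compl, sub_sub_cancel, sub_zero] at this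
    exact this
  · obtain ⟨μ, hμ, hlim⟩ := exists_seq_tendsto (fun n μ => IsDepDist n (p n) (d n) μ)
      (fun n μ => μ.real (P n)) (fun n => exists_isDepDist n (d n) (hp n).1 (hp n).2)
      (fun n μ => measureReal_nonneg) (fun ε hε => by
        obtain ⟨m, hm⟩ := exists_pow_lt_of_lt_one (show (0 : ℝ) < 1 / 2 by norm_num)
          (show max (1 - ε) 0 < 1 by rw [max_lt_iff]; constructor <;> linarith)
        have hm0 : 0 < m := by
          rcases Nat.eq_zero_or_pos m with rfl | h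
          · norm_num at hm
          · exact h
        have hm0' : (0 : ℝ) < m := by exact_mod_cast hm0
        filter_upwards [hnt, hpU.bound (c := 1 / (8 * m)) (by positivity)] with n hn hb
        have hp0 := (hp n).1
        rw [Real.norm_of_nonneg (by positivity), Real.norm_of_nonneg (hU0 n).le,
          one_div_mul_eq_div, le_div_iff₀ (by positivity)] at hb
        obtain ⟨ν, hν, hle⟩ := (hU n hn).2 m (p n) _ hm0 hp0 (by linarith) (le_max_right _ _) hm.le
        refine ⟨ν, hν, ?_⟩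
        rw [hν.compl] at hle
        have := le_max_left (1 - ε) 0
        linarith)
    refine ⟨μ, hμ, ?_⟩
    have := hlim.const_sub 1
    simp only [sub_zero] at this
    simpa only [(hμ _).compl] using this

end Pool.Agent.Work.MP_c7de0c_pr
end
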