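import Mathlib
import Pool.Agent.Work.MP_c7de0c_pr.Main

-- merged part: Pool.Agent.Work.MP_c7de0c_pr.NegPerm
section
-- merged part: Pool.Agent.Work.MP_c7de0c_pr.NegBasic
section
/-!
Probability toolkit for locally dependent random sets.
-/

set_option linter.unusedSectionVars false

namespace Pool.Agent.Work.MP_c7de0c_pr.Neg

open Finset

variable {E : Type*} [Fintype E] [DecidableEq E]

/-- the event `A` is determined by the trace on `S` -/
def DetBy (A : Finset E → Prop) (S : Finset E) : Prop :=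
  ∀ X Y : Finset E, (∀ e ∈ S, e ∈ X ↔ e ∈ Y) → A X → A Y

/-- `S` and `T` are disjoint and not joined by an edge of `D` -/
def Sep (D : SimpleGraph E) (S T : Finset E) : Prop :=
  Disjoint S T ∧ ∀ a ∈ S, ∀ b ∈ T, ¬ D.Adj a b

lemma Sep.symm {D : SimpleGraph E} {S T : Finset E} (h : Sep D S T) : Sep D T S :=
  ⟨h.1.symm, fun a ha b hb hab => h.2 b hb a ha hab.symm⟩

lemma Sep.mono {D : SimpleGraph E} {S T S' T' : Finset E} (h : Sep D S T) (hS : S' ⊆ S)
    (hT : T' ⊆ T) : Sep D S' T' :=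
  ⟨h.1.mono hS hT, fun a ha b hb => h.2 a (hS ha) b (hT hb)⟩

lemma sep_biUnion_right {ι : Type*} {D : SimpleGraph E} {S : Finset E} {s : Finset ι}
    {T : ι → Finset E} (h : ∀ i ∈ s, Sep D S (T i)) : Sep D S (s.biUnion T) := by
  refine ⟨(disjoint_biUnion_right _ _ _).2 fun i hi => (h i hi).1, fun a ha b hb => ?_⟩
  obtain ⟨i, hi, hb⟩ := mem_biUnion.1 hb
  exact (h i hi).2 a ha b hb

lemma sep_biUnion {ι κ : Type*} {D : SimpleGraph E} {s : Finset ι} {s' : Finset κ}
    {S : ι → Finset E} {T : κ → Finset E} (h : ∀ i ∈ s, ∀ j ∈ s', Sep D (S i) (T j)) :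
    Sep D (s.biUnion S) (s'.biUnion T) :=
  sep_biUnion_right fun j hj => (sep_biUnion_right fun i hi => (h i hi j hj).symm).symm

lemma DetBy.mono {A : Finset E → Prop} {S T : Finset E} (h : DetBy A S) (hST : S ⊆ T) :
    DetBy A T := fun X Y hXY => h X Y fun e he => hXY e (hST he)

lemma DetBy.not {A : Finset E → Prop} {S : Finset E} (h : DetBy A S) :
    DetBy (fun X => ¬ A X) S :=
  fun X Y hXY hX hY => hX (h Y X (fun e he => (hXY e he).symm) hY)

lemma DetBy.and {A B : Finset E → Prop} {S : Finset E} (h : DetBy A S) (h' : DetBy B S) :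
    DetBy (fun X => A X ∧ B X) S :=
  fun X Y hXY hX => ⟨h X Y hXY hX.1, h' X Y hXY hX.2⟩

lemma detBy_forall {ι : Type*} {s : Finset ι} {A : ι → Finset E → Prop} {S : ι → Finset E}
    (h : ∀ i ∈ s, DetBy (A i) (S i)) : DetBy (fun X => ∀ i ∈ s, A i X) (s.biUnion S) :=
  fun X Y hXY hX i hi =>
    h i hi X Y (fun e he => hXY e (mem_biUnion.2 ⟨i, hi, he⟩)) (hX i hi)

variable {D : SimpleGraph E} {p : ℝ} {w : Finset E → ℝ}

lemma pr_and (h : Dep D p w) {A B : Finset E → Prop} {S T : Finset E} (hA : DetBy A S)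
    (hB : DetBy B T) (hST : Sep D S T) :
    pr w (fun X => A X ∧ B X) = pr w A * pr w B := by
  classical
  have h1 := h.indep S T hST.1 hST.2 (fun X => if A X then 1 else 0) (fun X => if B X then 1 else 0)
  have eA : ∀ X, A (X ∩ S) ↔ A X := fun X =>
    ⟨hA _ _ fun e he => by simp [he], hA _ _ fun e he => by simp [he]⟩
  have eB : ∀ X, B (X ∩ T) ↔ B X := fun X =>
    ⟨hB _ _ fun e he => by simp [he], hB _ _ fun e he => by simp [he]⟩
  simp only [eA, eB] at h1
  rw [pr_eq_ex, pr_eq_ex, pr_eq_ex, ← h1]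
  congr 1
  ext X
  by_cases h1 : A X <;> by_cases h2 : B X <;> simp [h1, h2]

lemma pr_mono (h : Dep D p w) {A B : Finset E → Prop} (hAB : ∀ X, A X → B X) :
    pr w A ≤ pr w B := by
  classical
  rw [pr_eq_ex, pr_eq_ex]
  refine ex_mono h.nonneg fun X => ?_
  by_cases h1 : A X
  · simp [h1, hAB X h1]
  · simp only [h1, if_false]; split_ifs <;> norm_num

lemma pr_true (h : Dep D p w) : pr w (fun _ => True) = 1 := by
  classical
  rw [pr_eq_ex]; simpa using ex_const h.total 1

lemma pr_mem (h : Dep D p w) (e : E) : pr w (fun X => e ∈ X) = p := by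
  rw [pr_eq_ex]; exact h.marg e

lemma ex_add (w : Finset E → ℝ) (f g : Finset E → ℝ) :
    ex w (fun X => f X + g X) = ex w f + ex w g := by
  unfold ex; rw [← sum_add_distrib]; exact sum_congr rfl fun X _ => by ring

lemma pr_split (w : Finset E → ℝ) (A B : Finset E → Prop) :
    pr w A = pr w (fun X => A X ∧ B X) + pr w (fun X => A X ∧ ¬ B X) := by
  classical
  rw [pr_eq_ex, pr_eq_ex, pr_eq_ex, ← ex_add]
  congr 1
  ext X
  by_cases h1 : A X <;> by_cases h2 : B X <;> simp [h1, h2]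

lemma pr_le_add (h : Dep D p w) {A B C : Finset E → Prop} (hABC : ∀ X, A X → B X ∨ C X) :
    pr w A ≤ pr w B + pr w C := by
  rw [pr_split w A B]
  exact add_le_add (pr_mono h fun X hX => hX.2)
    (pr_mono h fun X hX => (hABC X hX.1).resolve_left hX.2)

lemma pr_false (w : Finset E → ℝ) : pr w (fun _ => False) = 0 := by
  classical
  rw [pr_eq_ex]; simp [ex]

lemma pr_exists_le (h : Dep D p w) {ι : Type*} (s : Finset ι) (A : ι → Finset E → Prop) :
    pr w (fun X => ∃ i ∈ s, A i X) ≤ ∑ i ∈ s, pr w (A i) := by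
  classical
  induction s using Finset.induction_on with
  | empty => simp [pr_false]
  | insert i s hi ih =>
    rw [sum_insert hi]
    refine (pr_le_add h (B := A i) (C := fun X => ∃ i ∈ s, A i X) fun X hX => ?_).trans
      (by linarith)
    simpa using hX

lemma pr_exists_list_le (h : Dep D p w) {ι : Type*} (s : List ι) (A : ι → Finset E → Prop) :
    pr w (fun X => ∃ i ∈ s, A i X) ≤ (s.map fun i => pr w (A i)).sum := by
  induction s with
  | nil => simp [pr_false]
  | cons i s ih =>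
    rw [List.map_cons, List.sum_cons]
    refine (pr_le_add h (B := A i) (C := fun X => ∃ i ∈ s, A i X) fun X hX => ?_).trans
      (by linarith)
    simpa using hX

/-- a partition by the value of a function -/
lemma pr_eq_sum_fiber {α : Type*} [Fintype α] (w : Finset E → ℝ) (A : Finset E → Prop)
    (f : Finset E → α) : pr w A = ∑ a, pr w (fun X => A X ∧ f X = a) := by
  classical
  simp only [pr_eq_ex]
  rw [← ex_sum]
  congr 1
  ext X
  by_cases h1 : A X <;> simp [h1]

lemma pr_forall (h : Dep D p w) {ι : Type*} (s : Finset ι) {A : ι → Finset E → Prop}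
    {S : ι → Finset E} (hA : ∀ i ∈ s, DetBy (A i) (S i))
    (hS : ∀ i ∈ s, ∀ j ∈ s, i ≠ j → Sep D (S i) (S j)) :
    pr w (fun X => ∀ i ∈ s, A i X) = ∏ i ∈ s, pr w (A i) := by
  classical
  induction s using Finset.induction_on with
  | empty => simpa using pr_true h
  | insert i s hi ih =>
    rw [prod_insert hi, ← ih (fun j hj => hA j (mem_insert_of_mem hj))
      (fun j hj k hk => hS j (mem_insert_of_mem hj) k (mem_insert_of_mem hk)),
      ← pr_and h (hA i (mem_insert_self _ _))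
        (detBy_forall fun j hj => hA j (mem_insert_of_mem hj))
        (sep_biUnion_right fun j hj => hS i (mem_insert_self _ _) j (mem_insert_of_mem hj)
          (fun hij => hi (hij ▸ hj)))]
    exact pr_congr w fun X => by simp

/-- greedy choice of an independent set -/
lemma exists_indep {ι : Type*} [DecidableEq ι] (R : ι → ι → Prop) [DecidableRel R]
    (hsymm : ∀ i j, R i j → R j i) (a : ℕ) (B : Finset ι)
    (hdeg : ∀ i ∈ B, (B.filter fun j => j = i ∨ R i j).card ≤ a) :
    ∃ H ⊆ B, (∀ i ∈ H, ∀ j ∈ H, i ≠ j → ¬ R i j) ∧ B.card ≤ a * H.card := by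
  induction B using Finset.strongInduction with
  | H B ih =>
    rcases B.eq_empty_or_nonempty with rfl | ⟨i, hi⟩
    · exact ⟨∅, Subset.rfl, by simp, by simp⟩
    · have hss : B.filter (fun j => ¬ (j = i ∨ R i j)) ⊂ B :=
        filter_ssubset.2 ⟨i, hi, by simp⟩
      obtain ⟨H, hH, hind, hcard⟩ := ih _ hss fun j hj =>
        (card_le_card (filter_subset_filter _ hss.subset)).trans (hdeg j (hss.subset hj))
      have hiH : i ∉ H := fun h => by simpa using (mem_filter.1 (hH h)).2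
      refine ⟨insert i H, insert_subset hi (hH.trans hss.subset), ?_, ?_⟩
      · intro j hj k hk hjk
        rcases mem_insert.1 hj with rfl | hj' <;> rcases mem_insert.1 hk with rfl | hk'
        · exact absurd rfl hjk
        · exact fun h => (mem_filter.1 (hH hk')).2 (Or.inr h)
        · exact fun h => (mem_filter.1 (hH hj')).2 (Or.inr (hsymm _ _ h))
        · exact hind j hj' k hk' hjk
      · rw [card_insert_of_notMem hiH, mul_add, mul_one,
          ← card_filter_add_card_filter_not (s := B) (fun j => j = i ∨ R i j)]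
        have := hdeg i hi
        omega

/-- many likely events with few dependencies are unlikely to fail together -/
lemma many (h : Dep D p w) {ι : Type*} (B : Finset ι) {I : ι → Finset E → Prop}
    {S : ι → Finset E} (hI : ∀ i ∈ B, DetBy (I i) (S i)) {a : ℕ}
    (hdeg : ∀ i ∈ B, ∃ N : Finset ι, N.card ≤ a ∧ i ∈ N ∧ ∀ j ∈ B, ¬ Sep D (S i) (S j) → j ∈ N)
    {ε : ℝ} (hε : ∀ i ∈ B, ε ≤ pr w (I i)) :
    ∃ k : ℕ, B.card ≤ a * k ∧ pr w (fun X => ∀ i ∈ B, ¬ I i X) ≤ (1 - ε) ^ k := by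
  classical
  obtain ⟨H, hH, hind, hcard⟩ := exists_indep (fun i j => ¬ Sep D (S i) (S j))
    (fun i j hij h => hij h.symm) a B (fun i hi => by
      obtain ⟨N, h1, h2, h3⟩ := hdeg i hi
      refine (card_le_card fun j hj => ?_).trans h1
      rcases (mem_filter.1 hj).2 with rfl | h4
      · exact h2
      · exact h3 j (mem_filter.1 hj).1 h4)
  refine ⟨H.card, hcard, (pr_mono h (B := fun X => ∀ i ∈ H, ¬ I i X)
    fun X hX i hi => hX i (hH hi)).trans ?_⟩
  rw [pr_forall h H (fun i hi => (hI i (hH hi)).not)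
    (fun i hi j hj hij => not_not.1 (hind i hi j hj hij)), ← prod_const]
  refine prod_le_prod (fun i _ => h.pr_nonneg _) fun i hi => ?_
  rw [h.pr_not]
  linarith only [hε, hH, hi, hε i (hH hi)]

lemma one_sub_pow_le {ε : ℝ} (h0 : 0 ≤ ε) (h1 : ε ≤ 1) (k : ℕ) :
    (1 - ε) ^ k * (1 + k * ε) ≤ 1 := by
  have h2 : 1 + (k : ℝ) * ε ≤ (1 + ε) ^ k := one_add_mul_le_pow (by linarith) k
  calc (1 - ε) ^ k * (1 + k * ε) ≤ (1 - ε) ^ k * (1 + ε) ^ k :=
        mul_le_mul_of_nonneg_left h2 (pow_nonneg (by linarith) _)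
    _ = ((1 - ε) * (1 + ε)) ^ k := (mul_pow _ _ _).symm
    _ ≤ 1 := pow_le_one₀ (mul_nonneg (by linarith) (by linarith)) (by linarith only [h0, mul_nonneg_of_nonpos_of_nonpos (Mathlib.Tactic.Linarith.sub_nonpos_of_le h0) (Mathlib.Tactic.Linarith.sub_nonpos_of_le h0)])

/-- if all the events fail together with probability at least one half, they are few -/
lemma few (h : Dep D p w) {ι : Type*} (B : Finset ι) {I : ι → Finset E → Prop}
    {S : ι → Finset E} (hI : ∀ i ∈ B, DetBy (I i) (S i)) {a : ℕ}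
    (hdeg : ∀ i ∈ B, ∃ N : Finset ι, N.card ≤ a ∧ i ∈ N ∧ ∀ j ∈ B, ¬ Sep D (S i) (S j) → j ∈ N)
    {ε : ℝ} (h0 : 0 < ε) (hε : ∀ i ∈ B, ε ≤ pr w (I i))
    (hh : 1 / 2 ≤ pr w (fun X => ∀ i ∈ B, ¬ I i X)) : (B.card : ℝ) ≤ a / ε := by
  rcases B.eq_empty_or_nonempty with rfl | ⟨i, hi⟩
  · simp; positivity
  have h1 : ε ≤ 1 := (hε i hi).trans (h.pr_le_one _)
  obtain ⟨k, hk, hp⟩ := many h B hI hdeg hε
  have h2 := one_sub_pow_le h0.le h1 k
  have h3 : (k : ℝ) * ε ≤ 1 := by
    have : 0 ≤ (k : ℝ) * ε := by positivity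
    linarith only [hh, hp, h2, this, hh.trans hp, mul_nonneg_of_nonpos_of_nonpos (Mathlib.Tactic.Linarith.sub_nonpos_of_le hh) (Mathlib.Tactic.Linarith.sub_nonpos_of_le this), mul_nonneg_of_nonpos_of_nonpos (Mathlib.Tactic.Linarith.sub_nonpos_of_le hp) (Mathlib.Tactic.Linarith.sub_nonpos_of_le this)]
  have h4 : (B.card : ℝ) ≤ a * k := by exact_mod_cast hk
  rw [le_div_iff₀ h0]
  have : (0 : ℝ) ≤ a := Nat.cast_nonneg _
  linarith only [h3, h0, h4, mul_nonneg_of_nonpos_of_nonpos (Mathlib.Tactic.Linarith.sub_nonpos_of_le (Mathlib.Tactic.Linarith.natCast_nonneg ℝ a)) (Mathlib.Tactic.Linarith.sub_nonpos_of_le h3), mul_nonneg_of_nonpos_of_nonpos (le_of_lt (Mathlib.Tactic.Linarith.sub_neg_of_lt h0)) (Mathlib.Tactic.Linarith.sub_nonpos_of_le h4)]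

end Pool.Agent.Work.MP_c7de0c_pr.Neg
end

-- merged part: Pool.Agent.Work.MP_c7de0c_pr.NegCount
section
/-!
Averages over finite types and a well spread family of arrays.
-/

set_option linter.unusedSectionVars false

namespace Pool.Agent.Work.MP_c7de0c_pr.Neg

open Finset

/-- average over a finite type -/
noncomputable def av {Ω : Type*} [Fintype Ω] (f : Ω → ℝ) : ℝ := (∑ ω, f ω) / Fintype.card Ω

open Classical in
/-- indicator of a proposition -/
noncomputable def ind (P : Prop) : ℝ := if P then 1 else 0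

lemma ind_nonneg (P : Prop) : 0 ≤ ind P := by unfold ind; split_ifs <;> norm_num

lemma ind_le_one (P : Prop) : ind P ≤ 1 := by unfold ind; split_ifs <;> norm_num

lemma ind_pos {P : Prop} (h : P) : ind P = 1 := if_pos h

lemma ind_neg {P : Prop} (h : ¬ P) : ind P = 0 := if_neg h

lemma ind_mono {P Q : Prop} (h : P → Q) : ind P ≤ ind Q := by
  by_cases hP : P
  · rw [ind_pos hP, ind_pos (h hP)]
  · rw [ind_neg hP]; exact ind_nonneg _

lemma ind_and (P Q : Prop) : ind (P ∧ Q) = ind P * ind Q := by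
  by_cases hP : P <;> by_cases hQ : Q <;> simp [ind, hP, hQ]

lemma ind_not (P : Prop) : ind (¬ P) = 1 - ind P := by
  by_cases hP : P <;> simp [ind, hP]

lemma ind_or_le (P Q : Prop) : ind (P ∨ Q) ≤ ind P + ind Q := by
  by_cases hP : P <;> by_cases hQ : Q <;> simp [ind, hP, hQ]

lemma ind_exists_le {ι : Type*} [Fintype ι] (P : ι → Prop) : ind (∃ i, P i) ≤ ∑ i, ind (P i) := by
  by_cases h : ∃ i, P i
  · obtain ⟨i, hi⟩ := h
    rw [ind_pos ⟨i, hi⟩, ← ind_pos hi]
    exact single_le_sum (f := fun i => ind (P i)) (fun i _ => ind_nonneg _) (mem_univ i)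
  · rw [ind_neg h]; exact sum_nonneg fun i _ => ind_nonneg _

lemma ind_forall {ι : Type*} (s : Finset ι) (P : ι → Prop) :
    ind (∀ i ∈ s, P i) = ∏ i ∈ s, ind (P i) := by
  by_cases h : ∀ i ∈ s, P i
  · rw [ind_pos h, prod_eq_one fun i hi => ind_pos (h i hi)]
  · rw [ind_neg h]
    push Not at h
    obtain ⟨i, hi, h⟩ := h
    exact (prod_eq_zero hi (ind_neg h)).symm

lemma sum_ind {ι : Type*} (s : Finset ι) (P : ι → Prop) [DecidablePred P] :
    ∑ i ∈ s, ind (P i) = (s.filter P).card := by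
  rw [card_filter]
  push_cast
  exact sum_congr rfl fun i _ => by by_cases h : P i <;> simp [ind, h]

section av

variable {Ω : Type*} [Fintype Ω]

lemma av_mono {f g : Ω → ℝ} (h : ∀ ω, f ω ≤ g ω) : av f ≤ av g :=
  div_le_div_of_nonneg_right (sum_le_sum fun ω _ => h ω) (Nat.cast_nonneg _)

lemma av_nonneg {f : Ω → ℝ} (h : ∀ ω, 0 ≤ f ω) : 0 ≤ av f :=
  div_nonneg (sum_nonneg fun ω _ => h ω) (Nat.cast_nonneg _)

lemma av_const [Nonempty Ω] (c : ℝ) : av (fun _ : Ω => c) = c := by
  have : (Fintype.card Ω : ℝ) ≠ 0 := by exact_mod_cast Fintype.card_ne_zero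
  simp [av]

lemma av_sum {ι : Type*} (s : Finset ι) (f : ι → Ω → ℝ) :
    av (fun ω => ∑ i ∈ s, f i ω) = ∑ i ∈ s, av (f i) := by
  unfold av; rw [sum_comm, sum_div]

lemma av_add (f g : Ω → ℝ) : av (fun ω => f ω + g ω) = av f + av g := by
  unfold av; rw [sum_add_distrib, add_div]

lemma av_sub (f g : Ω → ℝ) : av (fun ω => f ω - g ω) = av f - av g := by
  unfold av; rw [sum_sub_distrib, sub_div]

lemma av_mul_left (c : ℝ) (f : Ω → ℝ) : av (fun ω => c * f ω) = c * av f := by
  unfold av; rw [← mul_sum, mul_div_assoc]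

lemma av_mul_right (c : ℝ) (f : Ω → ℝ) : av (fun ω => f ω * c) = av f * c := by
  unfold av; rw [← sum_mul]; ring

lemma av_list {ι : Type*} (s : List ι) (f : ι → Ω → ℝ) :
    av (fun ω => (s.map fun i => f i ω).sum) = (s.map fun i => av (f i)).sum := by
  induction s with
  | nil => simp [av]
  | cons i s ih => simp only [List.map_cons, List.sum_cons]; rw [av_add, ih]

lemma exists_le_av [Nonempty Ω] (f : Ω → ℝ) : ∃ ω, f ω ≤ av f := by
  by_contra h
  push Not at h
  have h1 : ∑ _ω : Ω, av f < ∑ ω, f ω := sum_lt_sum_of_nonempty univ_nonempty fun ω _ => h ω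
  have : (0 : ℝ) < Fintype.card Ω := by exact_mod_cast Fintype.card_pos
  rw [sum_const, card_univ, nsmul_eq_mul, av, mul_div_cancel₀ _ this.ne'] at h1
  exact lt_irrefl _ h1

lemma av_equiv {Ω' : Type*} [Fintype Ω'] (e : Ω ≃ Ω') (f : Ω' → ℝ) :
    av (fun ω => f (e ω)) = av f := by
  unfold av; rw [Equiv.sum_comp e f, Fintype.card_congr e]

lemma av_prod {Ω' : Type*} [Fintype Ω'] (f : Ω × Ω' → ℝ) :
    av f = av (fun a => av fun b => f (a, b)) := by
  unfold av
  rw [Fintype.sum_prod_type, ← sum_div, Fintype.card_prod, div_div, Nat.cast_mul, mul_comm]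

lemma av_ind_mem [DecidableEq Ω] (J : Finset Ω) :
    av (fun ω => ind (ω ∈ J)) = J.card / Fintype.card Ω := by
  unfold av; rw [sum_ind]; simp

lemma av_ind_le {P : Ω → Prop} (J : Finset Ω) (h : ∀ ω, P ω → ω ∈ J) :
    av (fun ω => ind (P ω)) ≤ J.card / Fintype.card Ω := by
  classical
  rw [← av_ind_mem]
  exact av_mono fun ω => ind_mono (h ω)

end av

section pi

variable {C A : Type*} [Fintype C] [DecidableEq C] [Fintype A] [Nonempty A]

lemma av_pi (s : Finset C) (φ : C → A → ℝ) :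
    av (fun S : C → A => ∏ c ∈ s, φ c (S c)) = ∏ c ∈ s, av (φ c) := by
  classical
  have h1 : ∀ (ψ : C → A → ℝ), av (fun S : C → A => ∏ c, ψ c (S c)) = ∏ c, av (ψ c) := by
    intro ψ
    unfold av
    rw [prod_div_distrib, Finset.prod_univ_sum, Fintype.piFinset_univ]
    simp
  have h2 := h1 fun c a => if c ∈ s then φ c a else 1
  simp only [prod_ite_mem, univ_inter] at h2
  rw [h2, ← univ_inter s, ← prod_ite_mem, univ_inter]
  refine prod_congr rfl fun c _ => ?_
  split_ifs
  · rfl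
  · exact av_const 1

lemma av_one (c : C) (f : A → ℝ) : av (fun S : C → A => f (S c)) = av f := by
  simpa using av_pi {c} (fun _ => f)

lemma av_two {c c' : C} (h : c ≠ c') (f : A → A → ℝ) :
    av (fun S : C → A => f (S c) (S c')) = av (fun a => av fun b => f a b) := by
  classical
  have h1 : ∀ g g' : A → ℝ, av (fun S : C → A => g (S c) * g' (S c')) = av g * av g' := by
    intro g g'
    have := av_pi {c, c'} (fun x => if x = c then g else g')
    simpa [prod_pair h, h.symm] using this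
  have h2 : ∀ x y, f x y = ∑ a, ind (x = a) * f a y := by
    intro x y; simp [ind]
  have h3 : ∀ x : A, av (fun b => f x b) = ∑ a, ind (x = a) * av (fun b => f a b) := by
    intro x; simp [ind]
  rw [show (fun S : C → A => f (S c) (S c')) = fun S => ∑ a, ind (S c = a) * f a (S c') from
    funext fun S => h2 _ _, av_sum, funext h3, av_sum]
  refine sum_congr rfl fun a _ => ?_
  rw [h1 (fun x => ind (x = a)) (f a), av_mul_right]

end pi

section seq

variable {A : Type*} [Fintype A] [Nonempty A]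

open Classical in
/-- number of entries that are fine with respect to the later part of the list -/
noncomputable def fineCount (fine : A → List A → Prop) : List A → ℕ
  | [] => 0
  | a :: l => fineCount fine l + if fine a l then 1 else 0

lemma fineCount_le (fine : A → List A → Prop) (l : List A) : fineCount fine l ≤ l.length := by
  induction l with
  | nil => simp [fineCount]
  | cons a l ih => simp only [fineCount, List.length_cons]; split_ifs <;> omega

lemma av_seq (fine : A → List A → Prop) (w : ℕ)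
    (h : ∀ l : List A, l.length < w → av (fun a => ind (¬ fine a l)) ≤ 1 / 16) :
    ∀ n ≤ w, av (fun T : Fin n → A => (16 : ℝ) ^ (n - fineCount fine (List.ofFn T))) ≤ 2 ^ n := by
  intro n
  induction n with
  | zero => intro _; simp [av]
  | succ n ih =>
    intro hn
    have e : (Fin n → A) × A ≃ (Fin (n + 1) → A) :=
      (Equiv.prodComm _ _).trans (Fin.consEquiv fun _ => A)
    rw [← av_equiv ((Equiv.prodComm (Fin n → A) A).trans (Fin.consEquiv fun _ => A)), av_prod]
    refine (av_mono (g := fun T : Fin n → A =>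
      (16 : ℝ) ^ (n - fineCount fine (List.ofFn T)) * 2) fun T => ?_).trans ?_
    · have h1 := h (List.ofFn T) (by simpa using hn)
      have h2 : fineCount fine (List.ofFn T) ≤ n := by simpa using fineCount_le fine (List.ofFn T)
      refine (av_mono (g := fun a => (16 : ℝ) ^ (n - fineCount fine (List.ofFn T)) *
        (1 + 15 * ind (¬ fine a (List.ofFn T)))) fun a => ?_).trans ?_
      · simp only [Equiv.trans_apply, Equiv.prodComm_apply, Prod.swap_prod_mk, Fin.consEquiv_apply,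
          List.ofFn_succ, Fin.cons_zero, Fin.cons_succ, fineCount]
        by_cases hf : fine a (List.ofFn T)
        · simp [hf, ind]
        · rw [if_neg hf, ind_pos hf, show n + 1 - (fineCount fine (List.ofFn T) + 0) =
            n - fineCount fine (List.ofFn T) + 1 by omega, pow_succ]
          norm_num
      · rw [av_mul_left, av_add, av_const, av_mul_left]
        exact mul_le_mul_of_nonneg_left (by linarith only [h1]) (by positivity)
    · rw [av_mul_right, pow_succ]
      linarith only [ih, hn, ih (by omega)]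

lemma exists_fine {K : Type*} [Fintype K] (fine : K → A → List A → Prop) (w : ℕ)
    (h : ∀ k, ∀ l : List A, l.length < w → av (fun a => ind (¬ fine k a l)) ≤ 1 / 16)
    (hK : Fintype.card K < 2 ^ w) :
    ∃ W : List A, W.length = w ∧ ∀ k, w ≤ 2 * fineCount (fine k) W := by
  have h1 : ∀ k, av (fun T : Fin w → A => ind (¬ w ≤ 2 * fineCount (fine k) (List.ofFn T))) ≤
      1 / 2 ^ w := by
    intro k
    refine (av_mono (g := fun T : Fin w → A =>
      (16 : ℝ) ^ (w - fineCount (fine k) (List.ofFn T)) * (1 / 4 ^ w)) fun T => ?_).trans ?_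
    · by_cases hT : w ≤ 2 * fineCount (fine k) (List.ofFn T)
      · rw [ind_neg (not_not.2 hT)]; positivity
      · rw [ind_pos hT, mul_one_div, le_div_iff₀ (by positivity), one_mul,
          show (16 : ℝ) = 4 ^ 2 by norm_num, ← pow_mul]
        exact pow_le_pow_right₀ (by norm_num) (by omega)
    · rw [av_mul_right]
      refine (mul_le_mul_of_nonneg_right (av_seq (fine k) w (h k) w le_rfl)
        (by positivity)).trans (le_of_eq ?_)
      rw [show (4 : ℝ) = 2 * 2 by norm_num, mul_pow]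
      field_simp
  obtain ⟨T, hT⟩ := exists_le_av (fun T : Fin w → A =>
    ∑ k, ind (¬ w ≤ 2 * fineCount (fine k) (List.ofFn T)))
  refine ⟨List.ofFn T, by simp, fun k => ?_⟩
  by_contra hk
  rw [av_sum] at hT
  have h2 := sum_le_sum fun k (_ : k ∈ univ) => h1 k
  have h3 := single_le_sum (f := fun k => ind (¬ w ≤ 2 * fineCount (fine k) (List.ofFn T)))
    (fun i _ => ind_nonneg _) (mem_univ k)
  rw [ind_pos hk] at h3
  rw [sum_const, card_univ, nsmul_eq_mul, mul_one_div] at h2
  have h4 : (Fintype.card K : ℝ) / 2 ^ w < 1 := by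
    rw [div_lt_one (by positivity)]; exact_mod_cast hK
  linarith only [hT, h2, h3, h4]

end seq

end Pool.Agent.Work.MP_c7de0c_pr.Neg
end

-- merged part: Pool.Agent.Work.MP_c7de0c_pr.NegTribes
section
/-!
A list of arrays most of which are unrelated, for every sparse neighbourhood structure.
-/

set_option linter.unusedSectionVars false

namespace Pool.Agent.Work.MP_c7de0c_pr.Neg

open Finset

variable {G C : Type*} [Fintype G] [DecidableEq G] [Nonempty G] [Fintype C] [DecidableEq C] {u : ℕ}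

/-- `g'` is listed as a neighbour of `g` -/
def Near (nb : G → Fin u → G) (g g' : G) : Prop := ∃ i, nb g i = g'

/-- the entries of `T` avoid `J` and are pairwise not neighbours -/
def SelfClean (J : Finset G) (nb : G → Fin u → G) (T : C → G) : Prop :=
  (∀ c, T c ∉ J) ∧ ∀ c c', c ≠ c' → ¬ Near nb (T c) (T c')

/-- the entry of `T` at `c` is a neighbour of an entry of `T'` -/
def Touch (nb : G → Fin u → G) (T T' : C → G) (c : C) : Prop := ∃ c', Near nb (T' c') (T c)

/-- `T` is clean with respect to the list `l` -/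
def Clean (τ : ℝ) (J : Finset G) (nb : G → Fin u → G) (T : C → G) (l : List (C → G)) : Prop :=
  SelfClean J nb T ∧ (∀ T' ∈ l, ∀ c c', Touch nb T T' c → Touch nb T T' c' → c = c') ∧
    (l.map fun T' => ind (∃ c, Touch nb T T' c)).sum ≤ τ

lemma av_near (nb : G → Fin u → G) (g : G) :
    av (fun g' => ind (Near nb g g')) ≤ u / Fintype.card G := by
  refine (av_ind_le (univ.image (nb g)) fun g' ⟨i, hi⟩ => mem_image.2 ⟨i, mem_univ _, hi⟩).trans ?_
  refine div_le_div_of_nonneg_right ?_ (Nat.cast_nonneg _)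
  exact_mod_cast card_image_le.trans (by simp)

lemma av_touch (nb : G → Fin u → G) (T' : C → G) :
    av (fun g => ind (∃ c', Near nb (T' c') g)) ≤ Fintype.card C * (u / Fintype.card G) := by
  refine (av_mono fun g => ind_exists_le _).trans ?_
  rw [av_sum]
  refine (sum_le_sum fun c _ => av_near nb (T' c)).trans ?_
  simp

lemma list_sum_le {ι : Type*} (l : List ι) (f : ι → ℝ) (c : ℝ) (h : ∀ i ∈ l, f i ≤ c) :
    (l.map f).sum ≤ l.length * c := by
  have := List.sum_le_card_nsmul (l.map f) c (by simpa using h)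
  simpa using this

lemma ind_exists_list_le {ι : Type*} (l : List ι) (P : ι → Prop) :
    ind (∃ i ∈ l, P i) ≤ (l.map fun i => ind (P i)).sum := by
  induction l with
  | nil => simp [ind]
  | cons i l ih =>
    rw [List.map_cons, List.sum_cons]
    refine (ind_mono (Q := P i ∨ ∃ i ∈ l, P i) (by simp)).trans ((ind_or_le _ _).trans ?_)
    linarith

lemma av_not_clean {τ : ℝ} (hτ : 0 < τ) (J : Finset G) (nb : G → Fin u → G) (l : List (C → G)) :
    av (fun T => ind (¬ Clean τ J nb T l)) ≤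
      Fintype.card C * (J.card / Fintype.card G) +
      Fintype.card C ^ 2 * (u / Fintype.card G) +
      l.length * (Fintype.card C ^ 2 * (Fintype.card C * (u / Fintype.card G)) ^ 2) +
      l.length * (Fintype.card C * (Fintype.card C * (u / Fintype.card G))) / τ := by
  set x : ℝ := u / Fintype.card G with hx
  have hx0 : 0 ≤ x := by positivity
  have h1 : av (fun T : C → G => ind (∃ c, T c ∈ J)) ≤
      Fintype.card C * (J.card / Fintype.card G) := by
    refine (av_mono fun T => ind_exists_le _).trans ?_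
    rw [av_sum]
    refine (sum_le_sum fun c _ => (av_one c (fun g => ind (g ∈ J))).trans_le
      (av_ind_mem J).le).trans ?_
    simp
  have h2 : av (fun T : C → G => ind (∃ c c', c ≠ c' ∧ Near nb (T c) (T c'))) ≤
      Fintype.card C ^ 2 * x := by
    refine (av_mono fun T => (ind_exists_le _).trans
      (sum_le_sum fun c _ => ind_exists_le _)).trans ?_
    rw [av_sum]
    refine (sum_le_sum (g := fun _ => Fintype.card C * x) fun c _ => ?_).trans (by simp; linarith only [])
    rw [av_sum]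
    refine (sum_le_sum (g := fun _ => x) fun c' _ => ?_).trans (by simp)
    by_cases hc : c = c'
    · simpa [hc, ind, av] using hx0
    · refine (av_mono fun T => ind_mono And.right).trans ?_
      rw [av_two hc fun a b => ind (Near nb a b)]
      exact (av_mono fun a => av_near nb a).trans (av_const _).le
  have h3 : ∀ T' : C → G, av (fun T : C → G =>
      ind (∃ c c', c ≠ c' ∧ Touch nb T T' c ∧ Touch nb T T' c')) ≤
      Fintype.card C ^ 2 * (Fintype.card C * x) ^ 2 := by
    intro T'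
    refine (av_mono fun T => (ind_exists_le _).trans
      (sum_le_sum fun c _ => ind_exists_le _)).trans ?_
    rw [av_sum]
    refine (sum_le_sum (g := fun _ => Fintype.card C * (Fintype.card C * x) ^ 2)
      fun c _ => ?_).trans (by simp; linarith only [])
    rw [av_sum]
    refine (sum_le_sum (g := fun _ => (Fintype.card C * x) ^ 2) fun c' _ => ?_).trans (by simp)
    by_cases hc : c = c'
    · refine (av_mono (g := fun _ => 0) fun T => (ind_neg fun h => h.1 hc).le).trans ?_
      rw [av_const]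
      positivity
    · refine (av_mono fun T => (ind_mono And.right).trans (ind_and _ _).le).trans ?_
      unfold Touch
      rw [av_two hc fun a b => ind (∃ c', Near nb (T' c') a) * ind (∃ c', Near nb (T' c') b)]
      simp only [av_mul_left, av_mul_right]
      rw [pow_two]
      exact mul_le_mul (av_touch nb T') (av_touch nb T') (av_nonneg fun _ => ind_nonneg _)
        (by positivity)
  have h4 : ∀ T' : C → G, av (fun T : C → G => ind (∃ c, Touch nb T T' c)) ≤
      Fintype.card C * (Fintype.card C * x) := by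
    intro T'
    refine (av_mono fun T => ind_exists_le _).trans ?_
    rw [av_sum]
    refine (sum_le_sum (g := fun _ => Fintype.card C * x) fun c _ => ?_).trans (by simp)
    unfold Touch
    rw [av_one c fun a => ind (∃ c', Near nb (T' c') a)]
    exact av_touch nb T'
  refine (av_mono (g := fun T : C → G => ind (∃ c, T c ∈ J) +
    ind (∃ c c', c ≠ c' ∧ Near nb (T c) (T c')) +
    (l.map fun T' => ind (∃ c c', c ≠ c' ∧ Touch nb T T' c ∧ Touch nb T T' c')).sum +
    (l.map fun T' => ind (∃ c, Touch nb T T' c)).sum * (1 / τ)) fun T => ?_).trans ?_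
  · have n1 := ind_nonneg (∃ c, T c ∈ J)
    have n2 := ind_nonneg (∃ c c', c ≠ c' ∧ Near nb (T c) (T c'))
    have n3 : 0 ≤ (l.map fun T' => ind (∃ c c', c ≠ c' ∧ Touch nb T T' c ∧ Touch nb T T' c')).sum :=
      List.sum_nonneg (by simp only [List.mem_map]; rintro _ ⟨_, _, rfl⟩; exact ind_nonneg _)
    have n4 : 0 ≤ (l.map fun T' => ind (∃ c, Touch nb T T' c)).sum * (1 / τ) :=
      mul_nonneg (List.sum_nonneg
        (by simp only [List.mem_map]; rintro _ ⟨_, _, rfl⟩; exact ind_nonneg _)) (by positivity)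
    have n0 := ind_le_one (¬ Clean τ J nb T l)
    by_cases a1 : ∃ c, T c ∈ J
    · rw [ind_pos a1]; linarith only [n2, n3, n4, n0]
    by_cases a2 : ∃ c c', c ≠ c' ∧ Near nb (T c) (T c')
    · rw [ind_pos a2]; linarith only [n1, n3, n4, n0]
    by_cases a3 : ∃ T' ∈ l, ∃ c c', c ≠ c' ∧ Touch nb T T' c ∧ Touch nb T T' c'
    · have := ind_exists_list_le l fun T' => ∃ c c', c ≠ c' ∧ Touch nb T T' c ∧ Touch nb T T' c'
      rw [ind_pos a3] at this
      linarith only [n1, n2, n4, n0, this]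
    by_cases a4 : (l.map fun T' => ind (∃ c, Touch nb T T' c)).sum ≤ τ
    · rw [ind_neg]
      · linarith only [n1, n2, n3, n4]
      · push Not at a1 a2 a3 ⊢
        refine ⟨⟨a1, a2⟩, fun T' hT' c c' hc hc' => ?_, a4⟩
        by_contra hne
        exact a3 T' hT' c c' hne hc hc'
    · have : 1 ≤ (l.map fun T' => ind (∃ c, Touch nb T T' c)).sum * (1 / τ) := by
        rw [mul_one_div, le_div_iff₀ hτ]; linarith only [a4]
      linarith only [n1, n2, n3, n0, this]
  · rw [av_add, av_add, av_add, av_mul_right, av_list, av_list, mul_one_div]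
    have h5 := list_sum_le l _ _ fun T' _ => h3 T'
    have h6 := div_le_div_of_nonneg_right (list_sum_le l _ _ fun T' _ => h4 T') hτ.le
    linarith only [h1, h2, h5, h6]

/-- the spreading property of the list `W` -/
def Spread (u : ℕ) (τ j : ℝ) (W : List (C → G)) : Prop :=
  ∀ (J : Finset G) (nb : G → Fin u → G), (J.card : ℝ) ≤ j →
    W.length ≤ 2 * fineCount (Clean τ J nb) W

lemma exists_spread (u w : ℕ) {τ j : ℝ} (hτ : 0 < τ)
    (h : Fintype.card C * (j / Fintype.card G) +
      Fintype.card C ^ 2 * (u / Fintype.card G) +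
      w * (Fintype.card C ^ 2 * (Fintype.card C * (u / Fintype.card G)) ^ 2) +
      w * (Fintype.card C * (Fintype.card C * (u / Fintype.card G))) / τ ≤ 1 / 16)
    (hK : 2 ^ Fintype.card G * (Fintype.card G ^ u) ^ Fintype.card G < 2 ^ w) :
    ∃ W : List (C → G), W.length = w ∧ Spread u τ j W := by
  classical
  obtain ⟨W, hW, h1⟩ := exists_fine (K := {J : Finset G // (J.card : ℝ) ≤ j} × (G → Fin u → G))
    (fun k => Clean τ k.1.1 k.2 (C := C)) w (fun k l hl => (av_not_clean hτ _ _ _).trans (by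
      have hl' : (l.length : ℝ) ≤ w := by exact_mod_cast hl.le
      have hk := k.1.2
      refine le_trans ?_ h
      gcongr)) (by
      refine lt_of_le_of_lt ?_ hK
      rw [Fintype.card_prod]
      refine Nat.mul_le_mul ((Fintype.card_subtype_le _).trans (by simp)) (by simp))
  exact ⟨W, hW, fun J nb hJ => hW ▸ h1 (⟨J, hJ⟩, nb)⟩

end Pool.Agent.Work.MP_c7de0c_pr.Neg
end

-- merged part: Pool.Agent.Work.MP_c7de0c_pr.NegHit
section
/-!
Locally read values make some array of a spread list have all its row sums zero.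
-/

set_option linter.unusedSectionVars false

namespace Pool.Agent.Work.MP_c7de0c_pr.Neg

open Finset

variable {E : Type*} [Fintype E] [DecidableEq E] {D : SimpleGraph E} {p : ℝ} {w : Finset E → ℝ}
  {F : Type*} [AddCommGroup F] [Fintype F] [DecidableEq F]
  {G : Type*} [Fintype G] [DecidableEq G] [Nonempty G]

/-- the values at the columns in `s` are defined and have sum `b` -/
def PS {γ : Type*} (Df : G → Finset E → Prop) (val : G → Finset E → F) (Q : γ → G) (s : Finset γ)
    (b : F) (X : Finset E) : Prop :=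
  (∀ c ∈ s, Df (Q c) X) ∧ ∑ c ∈ s, val (Q c) X = b

lemma detBy_PS {γ : Type*} {Df : G → Finset E → Prop} {val : G → Finset E → F} {U : G → Finset E}
    (hdet : ∀ g a, DetBy (fun X => Df g X ∧ val g X = a) (U g)) (Q : γ → G) (s : Finset γ) (b : F) :
    DetBy (PS Df val Q s b) (s.biUnion fun c => U (Q c)) := by
  intro X Y hXY hX
  have h1 : ∀ c ∈ s, Df (Q c) Y ∧ val (Q c) Y = val (Q c) X := fun c hc =>
    hdet (Q c) _ X Y (fun e he => hXY e (mem_biUnion.2 ⟨c, hc, he⟩)) ⟨hX.1 c hc, rfl⟩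
  exact ⟨fun c hc => (h1 c hc).1, by rw [← hX.2]; exact sum_congr rfl fun c hc => (h1 c hc).2⟩

lemma pr_PS (h : Dep D p w) {γ : Type*} [DecidableEq γ] {Df : G → Finset E → Prop}
    {val : G → Finset E → F} {U : G → Finset E}
    (hdet : ∀ g a, DetBy (fun X => Df g X ∧ val g X = a) (U g)) (Q : γ → G)
    (hsep : ∀ c c', c ≠ c' → Sep D (U (Q c)) (U (Q c'))) {κ : ℝ}
    (hκ : ∀ c a, κ ≤ pr w (fun X => Df (Q c) X ∧ val (Q c) X = a)) (s : Finset γ) :
    ∀ b, |pr w (PS Df val Q s b) - pr w (fun X => ∀ c ∈ s, Df (Q c) X) / Fintype.card F| ≤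
      (1 - Fintype.card F * κ) ^ s.card := by
  have hq : (1 : ℝ) ≤ Fintype.card F := by exact_mod_cast Fintype.card_pos
  induction s using Finset.induction_on with
  | empty =>
    intro b
    have h1 := h.pr_nonneg (PS Df val Q ∅ b)
    have h2 := h.pr_le_one (PS Df val Q ∅ b)
    have h3 := h.pr_nonneg (fun X => ∀ c ∈ (∅ : Finset γ), Df (Q c) X)
    have h4 := h.pr_le_one (fun X => ∀ c ∈ (∅ : Finset γ), Df (Q c) X)
    have h5 := div_nonneg h3 (by linarith : (0 : ℝ) ≤ Fintype.card F)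
    have h6 := div_le_self h3 hq
    rw [card_empty, pow_zero, abs_le]
    constructor <;> linarith only [h1, h4, h6, h2, h5]
  | insert c s hc ih =>
    intro b
    set ν : F → ℝ := fun a => pr w (fun X => Df (Q c) X ∧ val (Q c) X = a) with hν
    set m := pr w (fun X => ∀ c ∈ s, Df (Q c) X) with hm
    have hS : Sep D (U (Q c)) (s.biUnion fun c => U (Q c)) :=
      sep_biUnion_right fun c' hc' => hsep c c' fun h => hc (h ▸ hc')
    have e1 : ∀ b, pr w (PS Df val Q (insert c s) b) = ∑ a, ν a * pr w (PS Df val Q s (b - a)) := by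
      intro b
      rw [pr_eq_sum_fiber w _ (val (Q c))]
      refine sum_congr rfl fun a _ => ?_
      rw [← pr_and h (hdet (Q c) a) (detBy_PS hdet Q s (b - a)) hS]
      refine pr_congr w fun X => ?_
      simp only [PS, sum_insert hc, forall_mem_insert]
      constructor
      · rintro ⟨⟨⟨h1, h2⟩, h3⟩, h4⟩
        exact ⟨⟨h1, h4⟩, h2, by rw [← h3, h4]; abel⟩
      · rintro ⟨⟨h1, h4⟩, h2, h3⟩
        exact ⟨⟨⟨h1, h2⟩, by rw [h3, h4]; abel⟩, h4⟩
    have e2 : ∀ s : Finset γ, pr w (fun X => ∀ c ∈ s, Df (Q c) X) = ∑ b, pr w (PS Df val Q s b) :=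
      fun s => pr_eq_sum_fiber w _ fun X => ∑ c ∈ s, val (Q c) X
    have e3 : ∀ b, ∑ a, pr w (PS Df val Q s (b - a)) = m := fun b => by
      rw [hm, e2]; exact (Equiv.subLeft b).sum_comp fun a => pr w (PS Df val Q s a)
    have e4 : pr w (fun X => ∀ c' ∈ insert c s, Df (Q c') X) = (∑ a, ν a) * m := by
      rw [e2, sum_congr rfl fun b _ => e1 b, sum_comm, sum_mul]
      refine sum_congr rfl fun a _ => ?_
      rw [← mul_sum, hm, e2]
      congr 1
      exact (Equiv.subRight a).sum_comp fun a => pr w (PS Df val Q s a)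
    have e5 : ∑ a, ν a ≤ 1 := by
      rw [← pr_eq_sum_fiber w (Df (Q c)) (val (Q c))]; exact h.pr_le_one _
    have e6 : pr w (PS Df val Q (insert c s) b) -
        pr w (fun X => ∀ c' ∈ insert c s, Df (Q c') X) / Fintype.card F =
        ∑ a, (ν a - κ) * (pr w (PS Df val Q s (b - a)) - m / Fintype.card F) := by
      rw [e1, e4]
      simp only [sub_mul, mul_sub, sum_sub_distrib, ← mul_sum, ← sum_mul, e3, sum_const, card_univ,
        nsmul_eq_mul]
      field_simp
      ring
    have hθ : 0 ≤ (1 - Fintype.card F * κ) ^ s.card := (abs_nonneg _).trans (ih 0)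
    rw [e6, card_insert_of_notMem hc, pow_succ']
    refine (abs_sum_le_sum_abs _ _).trans ((sum_le_sum
      (g := fun a => (ν a - κ) * (1 - Fintype.card F * κ) ^ s.card) fun a _ => ?_).trans ?_)
    · have : 0 ≤ ν a - κ := sub_nonneg.2 (hκ c a)
      rw [abs_mul, abs_of_nonneg this]
      exact mul_le_mul_of_nonneg_left (ih _) this
    · rw [← sum_mul, sum_sub_distrib, sum_const, card_univ, nsmul_eq_mul]
      exact mul_le_mul_of_nonneg_right (by linarith only [e5]) hθ

variable {ρ γ : Type*} [Fintype ρ] [DecidableEq ρ] [Fintype γ] [DecidableEq γ]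

/-- all values in the rows in `R` are defined and these rows have sum zero -/
def Hit (Df : G → Finset E → Prop) (val : G → Finset E → F) (T : ρ × γ → G) (R : Finset ρ)
    (X : Finset E) : Prop :=
  ∀ i ∈ R, PS Df val (fun c => T (i, c)) univ 0 X

/-- hypotheses on the local readings -/
structure Reading (D : SimpleGraph E) (w : Finset E → ℝ) (Df : G → Finset E → Prop)
    (val : G → Finset E → F) (U : G → Finset E) (J : Finset G) {u : ℕ} (nb : G → Fin u → G)
    (κ η : ℝ) : Prop where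
  det : ∀ g a, DetBy (fun X => Df g X ∧ val g X = a) (U g)
  sep : ∀ g ∉ J, ∀ g', ¬ Near nb g g' → Sep D (U g) (U g')
  low : ∀ g ∉ J, ∀ a, κ ≤ pr w (fun X => Df g X ∧ val g X = a)
  undef : ∀ g ∉ J, pr w (fun X => ¬ Df g X) ≤ η

variable {Df : G → Finset E → Prop} {val : G → Finset E → F} {U : G → Finset E} {J : Finset G}
  {u : ℕ} {nb : G → Fin u → G} {κ η : ℝ}

lemma Reading.row (h : Dep D p w) (r : Reading D w Df val U J nb κ η) {T : ρ × γ → G}
    (hT : SelfClean J nb T) (i : ρ) :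
    (1 - Fintype.card γ * η) / Fintype.card F - (1 - Fintype.card F * κ) ^ Fintype.card γ ≤
      pr w (PS Df val (fun c => T (i, c)) univ 0) ∧
    pr w (PS Df val (fun c => T (i, c)) univ 0) ≤
      1 / Fintype.card F + (1 - Fintype.card F * κ) ^ Fintype.card γ := by
  have h1 := pr_PS h r.det (fun c => T (i, c))
    (fun c c' hc => r.sep _ (hT.1 _) _ (hT.2 _ _ (by simpa using hc)))
    (fun c a => r.low _ (hT.1 _) a) univ 0
  rw [abs_le, card_univ] at h1
  have h2 := h.pr_le_one (fun X => ∀ c ∈ (univ : Finset γ), Df (T (i, c)) X)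
  have h3 : 1 - Fintype.card γ * η ≤ pr w (fun X => ∀ c ∈ (univ : Finset γ), Df (T (i, c)) X) := by
    have h4 := pr_exists_le h univ fun c X => ¬ Df (T (i, c)) X
    have h5 := sum_le_sum fun c (_ : c ∈ univ) => r.undef _ (hT.1 (i, c))
    have h6 := h.pr_not (fun X => ∃ c ∈ (univ : Finset γ), ¬ Df (T (i, c)) X)
    rw [sum_const, card_univ, nsmul_eq_mul] at h5
    rw [pr_congr w (B := fun X => ∀ c ∈ (univ : Finset γ), Df (T (i, c)) X) (by simp)] at h6
    linarith only [h4, h5, h6]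
  have hq : (0 : ℝ) ≤ Fintype.card F := Nat.cast_nonneg _
  have h7 := div_le_div_of_nonneg_right h2 hq
  have h8 := div_le_div_of_nonneg_right h3 hq
  constructor <;> linarith only [h1, h8, h7, h1.1, h1.2]

lemma Reading.hit_eq (h : Dep D p w) (r : Reading D w Df val U J nb κ η) {T : ρ × γ → G}
    (hT : SelfClean J nb T) (R : Finset ρ) :
    pr w (Hit Df val T R) = ∏ i ∈ R, pr w (PS Df val (fun c => T (i, c)) univ 0) :=
  pr_forall h R (fun i _ => detBy_PS r.det (fun c => T (i, c)) univ 0)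
    fun i _ j _ hij => sep_biUnion fun c _ c' _ =>
      r.sep _ (hT.1 _) _ (hT.2 _ _ (by simp [hij]))

lemma Reading.hit_le (h : Dep D p w) (r : Reading D w Df val U J nb κ η) {T : ρ × γ → G}
    (hT : SelfClean J nb T) (R : Finset ρ) :
    pr w (Hit Df val T R) ≤
      (1 / Fintype.card F + (1 - Fintype.card F * κ) ^ Fintype.card γ) ^ R.card := by
  rw [r.hit_eq h hT, ← prod_const]
  exact prod_le_prod (fun _ _ => h.pr_nonneg _) fun i _ => (r.row h hT i).2

lemma Reading.pair (h : Dep D p w) (r : Reading D w Df val U J nb κ η) {T T' : ρ × γ → G}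
    (hT : SelfClean J nb T) (hT' : SelfClean J nb T')
    (hone : ∀ c c', Touch nb T T' c → Touch nb T T' c' → c = c') {hi : ℝ}
    (hhi : hi = 1 / Fintype.card F + (1 - Fintype.card F * κ) ^ Fintype.card γ)
    (h0 : 0 ≤ hi) (h1 : hi ≤ 1) :
    pr w (fun X => Hit Df val T' univ X ∧ Hit Df val T univ X) ≤
      hi ^ Fintype.card ρ * (hi ^ Fintype.card ρ +
        ind (∃ c, Touch nb T T' c) * hi ^ (Fintype.card ρ - 1)) := by
  have key : ∀ R : Finset ρ, (∀ i ∈ R, ∀ c, ¬ Touch nb T T' (i, c)) →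
      pr w (fun X => Hit Df val T' univ X ∧ Hit Df val T univ X) ≤
        hi ^ Fintype.card ρ * hi ^ R.card := by
    intro R hR
    refine (pr_mono h (B := fun X => Hit Df val T' univ X ∧ Hit Df val T R X)
      fun X hX => ⟨hX.1, fun i _ => hX.2 i (mem_univ _)⟩).trans ?_
    have := pr_and h (A := Hit Df val T' univ) (B := Hit Df val T R)
      (detBy_forall fun i _ => detBy_PS r.det (fun c => T' (i, c)) univ 0)
      (detBy_forall fun i _ => detBy_PS r.det (fun c => T (i, c)) univ 0)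
      (sep_biUnion fun i _ j hj => sep_biUnion fun c _ c' _ =>
        r.sep _ (hT'.1 _) _ fun hn => hR j hj c' ⟨_, hn⟩)
    rw [this, hhi]
    exact mul_le_mul (r.hit_le h hT' univ) (r.hit_le h hT R) (h.pr_nonneg _)
      (pow_nonneg (hhi ▸ h0) _)
  by_cases ht : ∃ c, Touch nb T T' c
  · obtain ⟨c, hc⟩ := ht
    refine (key (univ.erase c.1) fun i hi c' hc' => ?_).trans ?_
    · exact (mem_erase.1 hi).1 (congrArg Prod.fst (hone _ _ hc' hc))
    · rw [ind_pos ⟨c, hc⟩, card_erase_of_mem (mem_univ _), card_univ, one_mul]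
      exact mul_le_mul_of_nonneg_left (le_add_of_nonneg_left (pow_nonneg h0 _)) (pow_nonneg h0 _)
  · rw [ind_neg ht, zero_mul, add_zero]
    exact key univ fun i _ c hc => ht ⟨_, hc⟩

lemma Reading.union (h : Dep D p w) (r : Reading D w Df val U J nb κ η) {lo hi τ : ℝ} {n : ℕ}
    (hlo : lo = (1 - Fintype.card γ * η) / Fintype.card F -
      (1 - Fintype.card F * κ) ^ Fintype.card γ)
    (hhi : hi = 1 / Fintype.card F + (1 - Fintype.card F * κ) ^ Fintype.card γ)
    (l0 : 0 ≤ lo) (h0 : 0 ≤ hi) (h1 : hi ≤ 1) (l : List (ρ × γ → G)) (hl : l.length ≤ n) :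
    fineCount (Clean τ J nb) l * (lo ^ Fintype.card ρ - hi ^ Fintype.card ρ *
      (n * hi ^ Fintype.card ρ + τ * hi ^ (Fintype.card ρ - 1))) ≤
      pr w (fun X => ∃ T ∈ l, SelfClean J nb T ∧ Hit Df val T univ X) := by
  induction l with
  | nil => simp [fineCount, pr_false]
  | cons T l ih =>
    have hl' : l.length ≤ n := by simp at hl; omega
    have ih' := ih hl'
    by_cases hc : Clean τ J nb T l
    swap
    · simp only [fineCount, hc, if_false, add_zero]
      exact ih'.trans (pr_mono h fun X ⟨T', h1, h2⟩ => ⟨T', List.mem_cons_of_mem _ h1, h2⟩)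
    simp only [fineCount, hc, if_true]
    push_cast
    set A := fun X => ∃ T ∈ l, SelfClean J nb T ∧ Hit Df val T univ X with hA
    have e1 := pr_split w (fun X => ∃ T' ∈ T :: l, SelfClean J nb T' ∧ Hit Df val T' univ X) A
    have e2 : pr w A ≤ pr w (fun X =>
        (∃ T' ∈ T :: l, SelfClean J nb T' ∧ Hit Df val T' univ X) ∧ A X) :=
      pr_mono h fun X ⟨T', h1, h2⟩ => ⟨⟨T', List.mem_cons_of_mem _ h1, h2⟩, T', h1, h2⟩
    have e3 : pr w (fun X => Hit Df val T univ X ∧ ¬ A X) ≤ pr w (fun X =>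
        (∃ T' ∈ T :: l, SelfClean J nb T' ∧ Hit Df val T' univ X) ∧ ¬ A X) :=
      pr_mono h fun X hX => ⟨⟨T, List.mem_cons_self, hc.1, hX.1⟩, hX.2⟩
    have e4 := pr_split w (Hit Df val T univ) A
    have e5 : lo ^ Fintype.card ρ ≤ pr w (Hit Df val T univ) := by
      rw [r.hit_eq h hc.1, ← card_univ, ← prod_const]
      exact prod_le_prod (fun _ _ => l0) fun i _ => hlo ▸ (r.row h hc.1 i).1
    have e6 : pr w (fun X => Hit Df val T univ X ∧ A X) ≤ hi ^ Fintype.card ρ *
        (n * hi ^ Fintype.card ρ + τ * hi ^ (Fintype.card ρ - 1)) := by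
      refine (pr_mono h (B := fun X => ∃ T' ∈ l,
        SelfClean J nb T' ∧ Hit Df val T' univ X ∧ Hit Df val T univ X)
        fun X ⟨h1, T', h2, h3, h4⟩ => ⟨T', h2, h3, h4, h1⟩).trans ?_
      refine (pr_exists_list_le h l _).trans ((List.sum_le_sum (g := fun T' =>
        hi ^ Fintype.card ρ * (hi ^ Fintype.card ρ +
        ind (∃ c, Touch nb T T' c) * hi ^ (Fintype.card ρ - 1))) fun T' hT' => ?_).trans ?_)
      · by_cases hs : SelfClean J nb T'
        · exact (pr_mono h fun X hX => hX.2).trans (r.pair h hc.1 hs (hc.2.1 T' hT') hhi h0 h1)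
        · refine (pr_mono h (B := fun _ => False) fun X hX => hs hX.1).trans ?_
          rw [pr_false]
          have := ind_nonneg (∃ c, Touch nb T T' c)
          positivity
      · rw [List.sum_map_mul_left, List.sum_map_add, List.sum_map_mul_right]
        refine mul_le_mul_of_nonneg_left (add_le_add ?_
          (mul_le_mul_of_nonneg_right hc.2.2 (pow_nonneg h0 _))) (pow_nonneg h0 _)
        refine (list_sum_le l _ _ fun _ _ => le_rfl).trans ?_
        exact mul_le_mul_of_nonneg_right (by exact_mod_cast hl') (pow_nonneg h0 _)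
    linarith only [ih', e1, e2, e3, e4, e5, e6]

end Pool.Agent.Work.MP_c7de0c_pr.Neg
end

-- merged part: Pool.Agent.Work.MP_c7de0c_pr.NegStruct
section
/-!
The hidden structure: points that reveal values of interpolation polynomials.
-/

set_option linter.unusedSectionVars false

namespace Pool.Agent.Work.MP_c7de0c_pr.Neg

open Finset Polynomial

variable {E : Type*} [Fintype E] [DecidableEq E] {D : SimpleGraph E} {p : ℝ} {w : Finset E → ℝ}
  {F : Type*} [Field F] [Fintype F] [DecidableEq F]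
  {V : Type*} [AddCommGroup V] [Module F V] [Fintype V] [DecidableEq V] {t : ℕ}

/-- the `j`-th coordinate used by the line `e` -/
def grp (ξ : Fin t → F) (e : V × V) (j : Fin t) : Fin t × V := (j, e.1 + ξ j • e.2)

/-- the line through the coordinate `g` with direction `v` -/
def pick (ξ : Fin t → F) (g : Fin t × V) (v : V) : V × V := (g.2 - ξ g.1 • v, v)

lemma grp_pick (ξ : Fin t → F) (g : Fin t × V) (v : V) : grp ξ (pick ξ g v) g.1 = g := by
  simp [grp, pick]

/-- the polynomial interpolating `z` along the line `e` -/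
noncomputable def poly (ξ : Fin t → F) (z : Fin t × V → F) (e : V × V) : F[X] :=
  Lagrange.interpolate univ ξ fun j => z (grp ξ e j)

/-- the point `i` is compatible with `z` -/
def Ok (ξ : Fin t → F) (z : Fin t × V → F) (i : (V × V) × F × F) : Prop :=
  (poly ξ z i.1).eval i.2.1 = i.2.2

lemma eval_poly {ξ : Fin t → F} (hξ : Function.Injective ξ) (z : Fin t × V → F) (e : V × V)
    (j : Fin t) : (poly ξ z e).eval (ξ j) = z (grp ξ e j) :=
  Lagrange.eval_interpolate_at_node _ hξ.injOn (mem_univ j)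

lemma degree_poly {ξ : Fin t → F} (hξ : Function.Injective ξ) (z : Fin t × V → F) (e : V × V) :
    (poly ξ z e).degree < t := by
  have := Lagrange.degree_interpolate_lt (s := univ) (fun j => z (grp ξ e j)) hξ.injOn
  rwa [card_univ, Fintype.card_fin] at this

variable (ξ : Fin t → F) (ι : (V × V) × F × F → E)

/-- the elements attached to the line `e` -/
def its (e : V × V) : Finset E := univ.image fun xa : F × F => ι (e, xa)

/-- `X` is compatible with `z` on the lines in `s` -/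
def ConsOn (s : Finset (V × V)) (z : Fin t × V → F) (X : Finset E) : Prop :=
  ∀ e ∈ s, ∀ xa, ι (e, xa) ∈ X → Ok ξ z (e, xa)

/-- at least `k` elements of the line `e` are present -/
def Rev (k : ℕ) (e : V × V) (X : Finset E) : Prop :=
  k ≤ (univ.filter fun xa : F × F => ι (e, xa) ∈ X).card

variable {ξ ι}

lemma mem_its (e : V × V) (xa : F × F) : ι (e, xa) ∈ its ι e := mem_image.2 ⟨xa, mem_univ _, rfl⟩

lemma detBy_consOn (s : Finset (V × V)) (z : Fin t × V → F) :
    DetBy (ConsOn ξ ι s z) (s.biUnion (its ι)) := fun _ _ hXY hX e he xa h =>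
  hX e he xa ((hXY _ (mem_biUnion.2 ⟨e, he, mem_its e xa⟩)).2 h)

lemma detBy_rev (k : ℕ) (e : V × V) : DetBy (Rev ι k e) (its ι e) := fun X Y hXY hX => by
  unfold Rev at hX ⊢
  rwa [← filter_congr fun xa _ => hXY _ (mem_its e xa)]

lemma ConsOn.injOn {s : Finset (V × V)} {z : Fin t × V → F} {X : Finset E}
    (h : ConsOn ξ ι s z X) {e : V × V} (he : e ∈ s) :
    Set.InjOn Prod.fst ((univ.filter fun xa : F × F => ι (e, xa) ∈ X : Finset _) : Set (F × F)) := by
  intro a ha b hb hab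
  have h1 := h e he a (by simpa using ha)
  have h2 := h e he b (by simpa using hb)
  unfold Ok at h1 h2
  exact Prod.ext hab (by rw [← h1, ← h2, hab])

lemma ConsOn.unique (hξ : Function.Injective ξ) {s : Finset (V × V)} {z z' : Fin t × V → F}
    {X : Finset E} (h : ConsOn ξ ι s z X) (h' : ConsOn ξ ι s z' X) {e : V × V} (he : e ∈ s)
    (hr : Rev ι t e X) (j : Fin t) : z (grp ξ e j) = z' (grp ξ e j) := by
  have hc : (t : WithBot ℕ) ≤
      ((univ.filter fun xa : F × F => ι (e, xa) ∈ X).image Prod.fst).card := by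
    rw [card_image_of_injOn (h.injOn he)]; exact_mod_cast hr
  have : poly ξ z e = poly ξ z' e := by
    refine Polynomial.eq_of_degrees_lt_of_eval_finset_eq _ ((degree_poly hξ z e).trans_le hc)
      ((degree_poly hξ z' e).trans_le hc) fun x hx => ?_
    obtain ⟨a, ha, rfl⟩ := mem_image.1 hx
    exact (h e he a (by simpa using ha)).trans (h' e he a (by simpa using ha)).symm
  rw [← eval_poly hξ z, ← eval_poly hξ z', this]

lemma adj_card (hι : Function.Injective ι) {d : ℕ} (hD : ∀ v, (D.neighborSet v).ncard ≤ d)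
    (e : V × V) : ∃ N : Finset (V × V), N.card ≤ Fintype.card F ^ 2 * d + 1 ∧ e ∈ N ∧
      ∀ e', ¬ Sep D (its ι e) (its ι e') → e' ∈ N := by
  classical
  refine ⟨insert e (univ.biUnion fun xa : F × F =>
    (D.neighborFinset (ι (e, xa))).image fun b => (Function.invFun ι b).1),
    (card_insert_le _ _).trans (Nat.add_le_add_right (card_biUnion_le.trans ?_) 1),
    mem_insert_self _ _, fun e' h1 => ?_⟩
  swap
  · by_cases hee : e' = e
    · simp [hee]
    have h2 : Disjoint (its ι e) (its ι e') := by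
      rw [disjoint_left]
      intro a ha ha'
      obtain ⟨x, -, rfl⟩ := mem_image.1 ha
      obtain ⟨y, -, hy⟩ := mem_image.1 ha'
      exact hee (congrArg Prod.fst (hι hy))
    simp only [Sep, h2, true_and, not_forall, not_not] at h1
    obtain ⟨a, ha, b, hb, hab⟩ := h1
    obtain ⟨x, -, rfl⟩ := mem_image.1 ha
    obtain ⟨y, -, rfl⟩ := mem_image.1 hb
    refine mem_insert_of_mem (mem_biUnion.2 ⟨x, mem_univ _, mem_image.2 ⟨_, by simpa using hab, ?_⟩⟩)
    rw [Function.leftInverse_invFun hι]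
  · refine (sum_le_sum (g := fun _ => d) fun xa _ => card_image_le.trans ?_).trans ?_
    · have := hD (ι (e, xa))
      rwa [Set.ncard_eq_toFinset_card'] at this
    · simp [pow_two]

lemma pr_eq_ex_ind (w : Finset E → ℝ) (A : Finset E → Prop) :
    pr w A = ex w (fun X => ind (A X)) := rfl

lemma line_ineq (h : Dep D p w) (e : V × V) :
    (Fintype.card F : ℝ) ^ 2 * p ≤ t + Fintype.card F * pr w (Rev ι t e) +
      (Fintype.card F : ℝ) ^ 2 * pr w (fun X => ¬ ∃ z, ConsOn ξ ι {e} z X) := by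
  have h1 : (Fintype.card F : ℝ) ^ 2 * p = ex w fun X => ∑ xa : F × F, ind (ι (e, xa) ∈ X) := by
    rw [ex_sum]
    simp only [← pr_eq_ex_ind, pr_mem h]
    simp [pow_two]
  rw [h1, pr_eq_ex_ind, pr_eq_ex_ind, ← ex_mul_left, ← ex_mul_left, ← ex_const h.total (t : ℝ),
    ← ex_add, ← ex_add]
  refine ex_mono h.nonneg fun X => ?_
  rw [sum_ind]
  have n1 := ind_nonneg (Rev ι t e X)
  have hq : (0 : ℝ) ≤ Fintype.card F := Nat.cast_nonneg _
  have ht : (0 : ℝ) ≤ t := Nat.cast_nonneg _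
  by_cases hc : ∃ z, ConsOn ξ ι {e} z X
  · rw [ind_neg (not_not.2 hc), mul_zero, add_zero]
    obtain ⟨z, hz⟩ := hc
    by_cases hr : Rev ι t e X
    · rw [ind_pos hr, ← card_image_of_injOn (hz.injOn (mem_singleton_self e))]
      have : (((univ.filter fun xa : F × F => ι (e, xa) ∈ X).image Prod.fst).card : ℝ) ≤
        Fintype.card F := by exact_mod_cast card_le_univ _
      linarith
    · rw [ind_neg hr, mul_zero, add_zero]
      exact_mod_cast (not_le.1 hr).le
  · rw [ind_pos hc]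
    have : ((univ.filter fun xa : F × F => ι (e, xa) ∈ X).card : ℝ) ≤ Fintype.card F ^ 2 := by
      exact_mod_cast (card_le_univ _).trans (by simp [pow_two])
    linarith only [this, n1, mul_nonneg_of_nonpos_of_nonpos (Mathlib.Tactic.Linarith.sub_nonpos_of_le (Mathlib.Tactic.Linarith.natCast_nonneg ℝ (Fintype.card F))) (Mathlib.Tactic.Linarith.sub_nonpos_of_le n1)]

lemma sum_incons (h : Dep D p w) (hι : Function.Injective ι) {d : ℕ}
    (hD : ∀ v, (D.neighborSet v).ncard ≤ d) {ε : ℝ} (hε : 0 < ε)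
    (hh : 1 / 2 ≤ pr w (fun X => ∃ z, ConsOn ξ ι univ z X)) :
    ∑ e : V × V, pr w (fun X => ¬ ∃ z, ConsOn ξ ι {e} z X) ≤
      (Fintype.card V : ℝ) ^ 2 * ε + (Fintype.card F ^ 2 * d + 1 : ℕ) / ε := by
  classical
  set B := univ.filter fun e : V × V => ε ≤ pr w (fun X => ¬ ∃ z, ConsOn ξ ι {e} z X) with hB
  have h1 := few h B (I := fun e X => ¬ ∃ z, ConsOn ξ ι {e} z X) (S := its ι)
    (fun e _ => DetBy.not fun X Y hXY ⟨z, hz⟩ =>
      ⟨z, detBy_consOn {e} z X Y (by simpa using hXY) hz⟩)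
    (a := Fintype.card F ^ 2 * d + 1)
    (fun e _ => (adj_card hι hD e).imp fun N hN => ⟨hN.1, hN.2.1, fun j _ => hN.2.2 j⟩) hε
    (fun e he => (mem_filter.1 he).2)
    (hh.trans (pr_mono h fun X ⟨z, hz⟩ e _ => not_not.2 ⟨z, fun e' _ => hz e' (mem_univ _)⟩))
  refine (sum_le_sum (g := fun e => ε + ind (e ∈ B)) fun e _ => ?_).trans ?_
  · by_cases he : e ∈ B
    · rw [ind_pos he]; linarith only [hε, h, h.pr_le_one (fun X => ¬ ∃ z, ConsOn ξ ι {e} z X)]
    · rw [ind_neg he, add_zero]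
      exact (not_le.1 fun h => he (mem_filter.2 ⟨mem_univ _, h⟩)).le
  · rw [sum_add_distrib, sum_ind]
    simp only [sum_const, card_univ, Fintype.card_prod, nsmul_eq_mul, filter_univ_mem]
    push_cast at h1 ⊢
    linarith only [h1]

lemma sum_rev (h : Dep D p w) (hι : Function.Injective ι) {d : ℕ}
    (hD : ∀ v, (D.neighborSet v).ncard ≤ d) {ε : ℝ} (hε : 0 < ε)
    (hh : 1 / 2 ≤ pr w (fun X => ∃ z, ConsOn ξ ι univ z X)) :
    (Fintype.card V : ℝ) ^ 2 * (Fintype.card F * p - t / Fintype.card F - Fintype.card F * ε) -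
      Fintype.card F * ((Fintype.card F ^ 2 * d + 1 : ℕ) / ε) ≤ ∑ e : V × V, pr w (Rev ι t e) := by
  have h1 := sum_incons h hι hD hε hh
  have h2 := sum_le_sum fun e (_ : e ∈ univ) => line_ineq (ξ := ξ) (ι := ι) h e
  have hq : (0 : ℝ) < Fintype.card F := by exact_mod_cast Fintype.card_pos
  simp only [sum_add_distrib, ← mul_sum, sum_const, card_univ, Fintype.card_prod, nsmul_eq_mul,
    Nat.cast_mul] at h2
  refine le_of_mul_le_mul_left ?_ hq
  have h3 := mul_le_mul_of_nonneg_left h1 (sq_nonneg (Fintype.card F : ℝ))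
  have h4 : (Fintype.card F : ℝ) * (t / Fintype.card F) = t := by field_simp
  linarith only [h2, h3, h4, Mathlib.Tactic.Linarith.mul_zero_eq (Mathlib.Tactic.Linarith.sub_nonpos_of_le (mul_self_nonneg ↑(Fintype.card V))) (sub_eq_zero_of_eq h4)]

end Pool.Agent.Work.MP_c7de0c_pr.Neg
end

-- merged part: Pool.Agent.Work.MP_c7de0c_pr.NegPicks
section
/-!
Choice of the lines from which each hidden value is read.
-/

set_option linter.unusedSectionVars false

namespace Pool.Agent.Work.MP_c7de0c_pr.Neg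

open Finset Polynomial

variable {E : Type*} [Fintype E] [DecidableEq E] {D : SimpleGraph E} {p : ℝ} {w : Finset E → ℝ}
  {F : Type*} [Field F] [Fintype F] [DecidableEq F]
  {V : Type*} [AddCommGroup V] [Module F V] [Fintype V] [DecidableEq V] {t m : ℕ}

lemma sum_pick (ξ : Fin t → F) (j : Fin t) (f : V × V → ℝ) :
    ∑ e, f e = ∑ y, ∑ v, f (pick ξ (j, y) v) := by
  rw [← Fintype.sum_prod_type' (f := fun y v => f (pick ξ (j, y) v))]
  refine (Function.Bijective.sum_comp (e := fun x : V × V => pick ξ (j, x.1) x.2)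
    (Finite.injective_iff_bijective.1 ?_) f).symm
  rintro ⟨a, b⟩ ⟨c, d⟩ h
  simp only [pick, Prod.mk.injEq] at h
  obtain ⟨h1, rfl⟩ := h
  simpa using h1

lemma sum_pair {ξ : Fin t → F} (hξ : Function.Injective ξ) {j j' : Fin t} (hj : j ≠ j')
    (f : Fin t × V → Fin t × V → ℝ) :
    ∑ e : V × V, f (grp ξ e j) (grp ξ e j') = ∑ y, ∑ y', f (j, y) (j', y') := by
  rw [← Fintype.sum_prod_type' (f := fun y y' => f (j, y) (j', y'))]
  refine Function.Bijective.sum_comp (e := fun e : V × V => (e.1 + ξ j • e.2, e.1 + ξ j' • e.2))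
    (Finite.injective_iff_bijective.1 ?_) fun x => f (j, x.1) (j', x.2)
  rintro ⟨a, b⟩ ⟨c, d⟩ h
  simp only [Prod.mk.injEq] at h ⊢
  have h1 : (ξ j - ξ j') • (b - d) = 0 := by
    have := congrArg₂ (· - ·) h.1 h.2
    simp only [add_sub_add_left_eq_sub] at this
    rw [smul_sub, sub_smul, sub_smul, this, sub_self]
  have h2 : b = d := sub_eq_zero.1 ((smul_eq_zero.1 h1).resolve_left (sub_ne_zero.2 (hξ.ne hj)))
  subst h2
  exact ⟨by simpa using h.1, rfl⟩

lemma av_ex {Ω : Type*} [Fintype Ω] (w : Finset E → ℝ) (f : Ω → Finset E → ℝ) :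
    av (fun S => ex w (f S)) = ex w (fun X => av fun S => f S X) := by
  unfold ex
  rw [av_sum]
  exact sum_congr rfl fun X _ => av_mul_left _ _

variable (D) (ξ : Fin t → F) (ι : (V × V) × F × F → E)

/-- none of the chosen lines through `g` is revealed -/
def Silent (g : Fin t × V) (a : Fin m → V) (X : Finset E) : Prop :=
  ∀ i, ¬ Rev ι t (pick ξ g (a i)) X

/-- the chosen lines through `g` -/
def picks (g : Fin t × V) (a : Fin m → V) : Finset (V × V) := univ.image fun i => pick ξ g (a i)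

/-- the elements on the chosen lines through `g` -/
def Us (g : Fin t × V) (a : Fin m → V) : Finset E := (picks ξ g a).biUnion (its ι)

/-- the readings at `g` and `g'` may depend on each other -/
def Rel (S : Fin t × V → Fin m → V) (g g' : Fin t × V) : Prop :=
  g ≠ g' ∧ ¬ Sep D (Us ξ ι g (S g)) (Us ξ ι g' (S g'))

variable {D ξ ι}

lemma detBy_silent (g : Fin t × V) (a : Fin m → V) : DetBy (Silent ξ ι g a) (Us ξ ι g a) :=
  fun X Y hXY hX i => (detBy_rev t _).not X Y (fun e he => hXY e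
    (mem_biUnion.2 ⟨_, mem_image.2 ⟨i, mem_univ _, rfl⟩, he⟩)) (hX i)

lemma av_T1 (h : Dep D p w) :
    av (fun S : Fin t × V → Fin m → V => ∑ e : V × V, ∑ j,
      pr w (fun X => Rev ι t e X ∧ Silent ξ ι (grp ξ e j) (S (grp ξ e j)) X)) ≤
      t * ((Fintype.card V : ℝ) ^ 2 / (m + 1)) := by
  have hM : (0 : ℝ) < Fintype.card V := by exact_mod_cast Fintype.card_pos
  simp only [pr_eq_ex_ind, ← ex_sum, av_ex]
  rw [← ex_const h.total (t * _)]
  refine ex_mono h.nonneg fun X => ?_
  set ρ : Fin t × V → ℝ := fun g => av fun v => ind (Rev ι t (pick ξ g v) X) with hρ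
  have h1 : ∀ g, av (fun S : Fin t × V → Fin m → V => ind (Silent ξ ι g (S g) X)) =
      (1 - ρ g) ^ m := by
    intro g
    rw [av_one g fun a => ind (Silent ξ ι g a X)]
    have h2 := av_pi (univ : Finset (Fin m)) fun _ v => ind (¬ Rev ι t (pick ξ g v) X)
    simp only [← ind_forall, mem_univ, true_implies] at h2
    rw [show (fun a : Fin m → V => ind (Silent ξ ι g a X)) = _ from rfl]
    refine h2.trans ?_
    simp only [ind_not, av_sub, av_const, prod_const, card_univ, Fintype.card_fin, hρ]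
  simp only [av_sum, ind_and, av_mul_left, h1]
  rw [sum_comm]
  refine (sum_le_sum (g := fun _ => (Fintype.card V : ℝ) ^ 2 / (m + 1)) fun j _ => ?_).trans
    (by simp)
  rw [sum_pick ξ j]
  refine (sum_le_sum (g := fun _ => (Fintype.card V : ℝ) / (m + 1)) fun y _ => ?_).trans
    (by simp [pow_two, mul_div_assoc])
  have h3 : ∀ v, grp ξ (pick ξ (j, y) v) j = (j, y) := fun v => grp_pick ξ (j, y) v
  simp only [h3, ← sum_mul]
  have h4 : ∑ v, ind (Rev ι t (pick ξ (j, y) v) X) = Fintype.card V * ρ (j, y) := by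
    simp only [hρ, av]; field_simp
  have h5 : 0 ≤ ρ (j, y) := av_nonneg fun _ => ind_nonneg _
  have h6 : ρ (j, y) ≤ 1 := (av_mono fun _ => ind_le_one _).trans (av_const 1).le
  have h7 := one_sub_pow_le h5 h6 m
  have h8 : 0 ≤ (1 - ρ (j, y)) ^ m := pow_nonneg (by linarith) _
  rw [h4, mul_assoc, div_eq_mul_one_div]
  refine mul_le_mul_of_nonneg_left ?_ hM.le
  rw [le_div_iff₀ (by positivity)]
  linarith only [h7, h6, h8, mul_nonneg_of_nonpos_of_nonpos (Mathlib.Tactic.Linarith.sub_nonpos_of_le h6) (Mathlib.Tactic.Linarith.sub_nonpos_of_le h8)]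

lemma av_T2 (hι : Function.Injective ι) {d : ℕ} (hD : ∀ v, (D.neighborSet v).ncard ≤ d) :
    av (fun S : Fin t × V → Fin m → V => ∑ g, ∑ g', ind (Rel D ξ ι S g g')) ≤
      m ^ 2 * t ^ 2 * (Fintype.card F ^ 2 * d + 1 : ℕ) := by
  have hM : (0 : ℝ) < Fintype.card V := by exact_mod_cast Fintype.card_pos
  set φ : V × V → V × V → ℝ := fun e e' => ind (¬ Sep D (its ι e) (its ι e')) with hφ
  have h1 : ∀ g g', av (fun S : Fin t × V → Fin m → V => ind (Rel D ξ ι S g g')) ≤
      m ^ 2 / (Fintype.card V : ℝ) ^ 2 * ∑ v, ∑ v', φ (pick ξ g v) (pick ξ g' v') := by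
    intro g g'
    by_cases hg : g = g'
    · refine (av_mono (g := fun _ => 0) fun T => (ind_neg fun h => h.1 hg).le).trans ?_
      rw [av_const]
      exact mul_nonneg (by positivity) (sum_nonneg fun _ _ => sum_nonneg fun _ _ => ind_nonneg _)
    refine (av_mono (g := fun S => ∑ i, ∑ i', φ (pick ξ g (S g i)) (pick ξ g' (S g' i')))
      fun S => ?_).trans (le_of_eq ?_)
    · refine le_trans (ind_mono fun hS => ?_) ((ind_exists_le _).trans
        (sum_le_sum fun i _ => ind_exists_le _))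
      by_contra hn
      push Not at hn
      refine hS.2 (sep_biUnion fun e he e' he' => ?_)
      obtain ⟨i, -, rfl⟩ := mem_image.1 he
      obtain ⟨i', -, rfl⟩ := mem_image.1 he'
      exact hn i i'
    · rw [av_two hg fun a b : Fin m → V => ∑ i, ∑ i', φ (pick ξ g (a i)) (pick ξ g' (b i'))]
      simp only [av_sum]
      have h2 : ∀ i i' : Fin m, av (fun a : Fin m → V => av fun b : Fin m → V =>
          φ (pick ξ g (a i)) (pick ξ g' (b i'))) =
          av fun v => av fun v' => φ (pick ξ g v) (pick ξ g' v') := by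
        intro i i'
        rw [← av_one i fun v => av fun v' => φ (pick ξ g v) (pick ξ g' v')]
        exact congrArg av (funext fun a => av_one i' fun v' => φ (pick ξ g (a i)) (pick ξ g' v'))
      simp only [h2, sum_const, card_univ, Fintype.card_fin, nsmul_eq_mul]
      simp only [av, ← sum_div]
      field_simp
  have h3 : ∀ e, ∑ e', φ e e' ≤ (Fintype.card F ^ 2 * d + 1 : ℕ) := by
    intro e
    obtain ⟨N, hN, -, hN'⟩ := adj_card hι hD e
    refine (sum_le_sum fun e' _ => ind_mono (hN' e')).trans ?_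
    rw [sum_ind]
    simp only [filter_univ_mem]
    exact_mod_cast hN
  simp only [av_sum]
  refine (sum_le_sum fun g _ => sum_le_sum fun g' _ => h1 g g').trans ?_
  simp only [← mul_sum]
  have h4 : ∑ g : Fin t × V, ∑ g' : Fin t × V, ∑ v, ∑ v', φ (pick ξ g v) (pick ξ g' v') =
      ∑ _j : Fin t, ∑ e, ∑ _j' : Fin t, ∑ e', φ e e' := by
    rw [Fintype.sum_prod_type]
    refine sum_congr rfl fun j _ => ?_
    rw [sum_pick ξ j]
    refine sum_congr rfl fun y _ => ?_
    rw [sum_comm]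
    refine sum_congr rfl fun v _ => ?_
    rw [Fintype.sum_prod_type]
    exact sum_congr rfl fun j' _ => (sum_pick ξ j' _).symm
  have h5 : ∑ _j : Fin t, ∑ e, ∑ _j' : Fin t, ∑ e', φ e e' ≤
      t ^ 2 * (Fintype.card V : ℝ) ^ 2 * (Fintype.card F ^ 2 * d + 1 : ℕ) := by
    refine (sum_le_sum fun _ _ => sum_le_sum fun e _ => sum_le_sum fun _ _ => h3 e).trans
      (le_of_eq ?_)
    simp only [sum_const, card_univ, Fintype.card_fin, Fintype.card_prod, nsmul_eq_mul, Nat.cast_mul]
    ring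
  rw [h4]
  refine (mul_le_mul_of_nonneg_left h5 (by positivity)).trans (le_of_eq ?_)
  field_simp

lemma cheb {ξ : Fin t → F} (hξ : Function.Injective ξ) (J : Finset (Fin t × V)) {η μ : ℝ}
    (h0 : 0 < η) (h1 : η ≤ 1) (hμ0 : 0 < μ) (hμ : μ * Fintype.card V = J.card) :
    ∑ e : V × V, (1 - η) ^ (univ.filter fun j => grp ξ e j ∈ J).card ≤
      (Fintype.card V : ℝ) ^ 2 * (6 / (η * μ)) := by
  set M : ℝ := (Fintype.card V : ℝ) with hM
  set x : V × V → ℝ := fun e => ∑ j, ind (grp ξ e j ∈ J) with hx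
  set c : Fin t → ℝ := fun j => ∑ y, ind ((j, y) ∈ J) with hc
  have hJ : ∑ j, c j = μ * M := by
    rw [hμ, hc, ← Fintype.sum_prod_type' (f := fun j y => ind ((j, y) ∈ J)), sum_ind]; simp
  have e1 : ∀ j, ∑ e : V × V, ind (grp ξ e j ∈ J) = M * c j := by
    intro j
    rw [sum_pick ξ j, hc, mul_sum]
    refine sum_congr rfl fun y _ => ?_
    have h3 : ∀ v, grp ξ (pick ξ (j, y) v) j = (j, y) := fun v => grp_pick ξ (j, y) v
    simp [h3, hM]
  have e2 : ∑ e, x e = M * (μ * M) := by
    rw [hx, sum_comm, ← hJ, mul_sum]; exact sum_congr rfl fun j _ => e1 j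
  have c0 : ∀ j, 0 ≤ c j := fun j => sum_nonneg fun _ _ => ind_nonneg _
  have e3 : ∑ e, x e ^ 2 ≤ M * (μ * M) + (μ * M) ^ 2 := by
    simp only [hx, pow_two, sum_mul_sum]
    rw [sum_comm, ← hJ, sum_mul_sum, mul_sum, ← sum_add_distrib]
    refine sum_le_sum fun j _ => ?_
    rw [sum_comm]
    refine (sum_le_sum (g := fun j' => (if j' = j then M * c j else 0) + c j * c j')
      fun j' _ => ?_).trans (by simp [sum_add_distrib])
    by_cases hj : j' = j
    · subst hj
      rw [if_pos rfl, ← e1]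
      have := mul_nonneg (c0 j') (c0 j')
      simp only [← ind_and, and_self]
      linarith
    · rw [if_neg hj, zero_add, sum_pair hξ (Ne.symm hj) fun g g' => ind (g ∈ J) * ind (g' ∈ J),
        hc, sum_mul_sum]
  have e4 : ∑ e, (x e - μ) ^ 2 ≤ M ^ 2 * μ := by
    simp only [sub_sq, sum_add_distrib, sum_sub_distrib, ← sum_mul, ← mul_sum, e2, sum_const,
      card_univ, Fintype.card_prod, nsmul_eq_mul, Nat.cast_mul, ← hM]
    linarith only [e3]
  refine (sum_le_sum (g := fun e => 2 / (η * μ) + 4 / μ ^ 2 * (x e - μ) ^ 2) fun e _ => ?_).trans ?_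
  · have h2 := one_sub_pow_le h0.le h1 (univ.filter fun j => grp ξ e j ∈ J).card
    rw [← sum_ind] at h2
    change _ * (1 + x e * η) ≤ 1 at h2
    have h3 : 0 ≤ (1 - η) ^ (univ.filter fun j => grp ξ e j ∈ J).card := pow_nonneg (by linarith) _
    have h4 : 0 ≤ x e := sum_nonneg fun _ _ => ind_nonneg _
    have h5 : 0 ≤ 4 / μ ^ 2 * (x e - μ) ^ 2 := by positivity
    have h6 : 0 ≤ 2 / (η * μ) := by positivity
    by_cases hxe : μ / 2 ≤ x e
    · have : (1 - η) ^ (univ.filter fun j => grp ξ e j ∈ J).card ≤ 2 / (η * μ) := by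
        rw [le_div_iff₀ (by positivity)]
        linarith only [h2, h3, hxe, h0, mul_le_mul_of_nonneg_left hxe (mul_nonneg h3 h0.le)]
      linarith only [h5, this]
    · have h7 : 1 ≤ 4 / μ ^ 2 * (x e - μ) ^ 2 := by
        rw [div_mul_eq_mul_div, le_div_iff₀ (by positivity)]
        linarith only [hμ0, hxe, mul_pos_of_neg_of_neg (Mathlib.Tactic.Linarith.sub_neg_of_lt hμ0) (Mathlib.Tactic.Linarith.sub_neg_of_lt (lt_of_not_ge hxe)), mul_pos_of_neg_of_neg (Mathlib.Tactic.Linarith.sub_neg_of_lt (lt_of_not_ge hxe)) (Mathlib.Tactic.Linarith.sub_neg_of_lt (lt_of_not_ge hxe))]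
      linarith only [h2, h6, h7, h3, h4, h0, mul_nonneg h3 (mul_nonneg h4 h0.le)]
  · rw [sum_add_distrib, ← mul_sum]
    have h8 := mul_le_mul_of_nonneg_left e4 (by positivity : 0 ≤ 4 / μ ^ 2)
    have h9 : 4 / μ ^ 2 * (M ^ 2 * μ) ≤ M ^ 2 * (4 / (η * μ)) := by
      rw [show 4 / μ ^ 2 * (M ^ 2 * μ) = M ^ 2 * (4 / μ) by field_simp]
      refine mul_le_mul_of_nonneg_left ?_ (sq_nonneg _)
      exact div_le_div_of_nonneg_left (by norm_num) (by positivity) (by linarith only [h1, hμ0, mul_nonneg_of_nonpos_of_nonpos (Mathlib.Tactic.Linarith.sub_nonpos_of_le h1) (le_of_lt (Mathlib.Tactic.Linarith.sub_neg_of_lt hμ0))])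
    simp only [sum_const, card_univ, Fintype.card_prod, nsmul_eq_mul, Nat.cast_mul, ← hM]
    have : M ^ 2 * (6 / (η * μ)) = M * M * (2 / (η * μ)) + M ^ 2 * (4 / (η * μ)) := by ring
    linarith only [h8, h9, this]

lemma sum_rev_le (h : Dep D p w) (hξ : Function.Injective ξ) (S : Fin t × V → Fin m → V)
    (J : Finset (Fin t × V)) {η : ℝ} (hJ : ∀ g ∈ J, η ≤ pr w (Silent ξ ι g (S g))) :
    ∑ e : V × V, pr w (Rev ι t e) ≤
      (∑ e : V × V, ∑ j,
        pr w (fun X => Rev ι t e X ∧ Silent ξ ι (grp ξ e j) (S (grp ξ e j)) X)) +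
      (∑ g, ∑ g', ind (Rel D ξ ι S g g')) +
      ∑ e : V × V, (1 - η) ^ (univ.filter fun j => grp ξ e j ∈ J).card := by
  have h1 : ∑ e : V × V, ∑ j, ∑ j', ind (Rel D ξ ι S (grp ξ e j) (grp ξ e j')) ≤
      ∑ g, ∑ g', ind (Rel D ξ ι S g g') := by
    rw [sum_comm, Fintype.sum_prod_type]
    refine sum_le_sum fun j _ => ?_
    rw [sum_comm]
    simp only [Fintype.sum_prod_type (f := fun g' => ind (Rel D ξ ι S _ g'))]
    rw [sum_comm (s := (univ : Finset V))]
    refine sum_le_sum fun j' _ => ?_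
    by_cases hj : j = j'
    · subst hj
      rw [sum_eq_zero fun e _ => ind_neg fun h => h.1 rfl]
      exact sum_nonneg fun _ _ => sum_nonneg fun _ _ => ind_nonneg _
    · exact (sum_pair hξ hj fun g g' => ind (Rel D ξ ι S g g')).le
  refine le_trans ?_ (add_le_add_left (add_le_add_right h1 _) _)
  rw [← sum_add_distrib, ← sum_add_distrib]
  refine sum_le_sum fun e _ => ?_
  have h2 := pr_le_add h (A := Rev ι t e)
    (B := fun X => ∃ j ∈ univ, Rev ι t e X ∧ Silent ξ ι (grp ξ e j) (S (grp ξ e j)) X)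
    (C := fun X => ∀ j ∈ univ, ¬ Silent ξ ι (grp ξ e j) (S (grp ξ e j)) X) fun X hX => by
      by_contra hn
      push Not at hn
      obtain ⟨j, -, hj⟩ := hn.2
      exact hn.1 j (mem_univ _) hX hj
  have h3 := pr_exists_le h univ fun j X => Rev ι t e X ∧ Silent ξ ι (grp ξ e j) (S (grp ξ e j)) X
  have hp : 0 ≤ ∏ j, if grp ξ e j ∈ J then 1 - η else 1 := prod_nonneg fun j _ => by
    split_ifs with hj
    · linarith only [hJ, hj, h, hJ _ hj, h.pr_le_one (Silent ξ ι (grp ξ e j) (S (grp ξ e j)))]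
    · norm_num
  have he : (∏ j, if grp ξ e j ∈ J then 1 - η else 1) =
      (1 - η) ^ (univ.filter fun j => grp ξ e j ∈ J).card := by
    rw [prod_ite, prod_const, prod_const, one_pow, mul_one]
  by_cases hr : ∃ j j', Rel D ξ ι S (grp ξ e j) (grp ξ e j')
  · have h4 := (ind_exists_le fun j => ∃ j', Rel D ξ ι S (grp ξ e j) (grp ξ e j')).trans
      (sum_le_sum fun j _ => ind_exists_le _)
    rw [ind_pos hr] at h4
    have h5 : 0 ≤ ∑ j, pr w fun X => Rev ι t e X ∧ Silent ξ ι (grp ξ e j) (S (grp ξ e j)) X :=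
      sum_nonneg fun _ _ => h.pr_nonneg _
    linarith only [hp, he, h4, h5, h, h.pr_le_one (Rev ι t e)]
  · have h4 : 0 ≤ ∑ j, ∑ j', ind (Rel D ξ ι S (grp ξ e j) (grp ξ e j')) :=
      sum_nonneg fun _ _ => sum_nonneg fun _ _ => ind_nonneg _
    rw [pr_forall h univ (fun j _ => (detBy_silent _ _).not) fun j _ j' _ hj => by
      by_contra hn
      exact hr ⟨j, j', fun h => hj (congrArg Prod.fst h), hn⟩] at h2
    have h5 : ∏ j, pr w (fun X => ¬ Silent ξ ι (grp ξ e j) (S (grp ξ e j)) X) ≤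
        ∏ j, if grp ξ e j ∈ J then 1 - η else 1 := by
      refine prod_le_prod (fun _ _ => h.pr_nonneg _) fun j _ => ?_
      split_ifs with hj
      · rw [h.pr_not]; linarith [hJ _ hj]
      · exact h.pr_le_one _
    linarith only [h2, h3, he, h4, h5]

end Pool.Agent.Work.MP_c7de0c_pr.Neg
end

-- merged part: Pool.Agent.Work.MP_c7de0c_pr.NegCore
section
/-!
No locally dependent distribution is compatible with a good hidden vector almost surely.
-/

set_option linter.unusedSectionVars false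

namespace Pool.Agent.Work.MP_c7de0c_pr.Neg

open Finset Polynomial

variable {E : Type*} [Fintype E] [DecidableEq E] {D : SimpleGraph E} {p : ℝ} {w : Finset E → ℝ}
  {F : Type*} [Field F] [Fintype F] [DecidableEq F]
  {V : Type*} [AddCommGroup V] [Module F V] [Fintype V] [DecidableEq V] {t m : ℕ}

variable (ξ : Fin t → F) (ι : (V × V) × F × F → E)

/-- the chosen lines force a value at `g` -/
def Forced (S : Fin t × V → Fin m → V) (g : Fin t × V) (X : Finset E) : Prop :=
  (∃ z, ConsOn ξ ι (picks ξ g (S g)) z X) ∧ ∃ a, ∀ z, ConsOn ξ ι (picks ξ g (S g)) z X → z g = a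

open Classical in
/-- the forced value -/
noncomputable def fval (S : Fin t × V → Fin m → V) (g : Fin t × V) (X : Finset E) : F :=
  if h : ∃ a, ∀ z, ConsOn ξ ι (picks ξ g (S g)) z X → z g = a then h.choose else 0

variable {ξ ι}

lemma forced_iff (S : Fin t × V → Fin m → V) (g : Fin t × V) (X : Finset E) (a : F) :
    Forced ξ ι S g X ∧ fval ξ ι S g X = a ↔
      (∃ z, ConsOn ξ ι (picks ξ g (S g)) z X) ∧ ∀ z, ConsOn ξ ι (picks ξ g (S g)) z X → z g = a := by
  constructor
  · rintro ⟨⟨h1, h2⟩, rfl⟩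
    refine ⟨h1, ?_⟩
    rw [fval, dif_pos h2]
    exact h2.choose_spec
  · rintro ⟨⟨z, hz⟩, h2⟩
    have h3 : ∃ a, ∀ z, ConsOn ξ ι (picks ξ g (S g)) z X → z g = a := ⟨a, h2⟩
    refine ⟨⟨⟨z, hz⟩, h3⟩, ?_⟩
    rw [fval, dif_pos h3, ← h3.choose_spec z hz, h2 z hz]

lemma exists_enum {G : Type*} [Nonempty G] {u : ℕ} (N : Finset G) (h : N.card ≤ u) :
    ∃ f : Fin u → G, ∀ x ∈ N, ∃ i, f i = x := by
  obtain ⟨e⟩ := Function.Embedding.nonempty_of_card_le (α := N) (β := Fin u) (by simpa using h)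
  exact ⟨Function.extend e Subtype.val fun _ => Classical.arbitrary G,
    fun x hx => ⟨e ⟨x, hx⟩, e.injective.extend_apply _ _ _⟩⟩

lemma exists_reading [Nonempty (Fin t)] (h : Dep D p w) (hξ : Function.Injective ξ)
    (hι : Function.Injective ι) {d : ℕ} (hD : ∀ v, (D.neighborSet v).ncard ≤ d)
    (hh : 1 / 2 ≤ pr w (fun X => ∃ z, ConsOn ξ ι univ z X)) {ε η μ j a : ℝ} {u : ℕ}
    (hm : 0 < m) (hu : 0 < u) (hε : 0 < ε) (hη : 0 < η) (hη1 : η ≤ 1) (hμ : 0 < μ)
    (ha : a = (Fintype.card F ^ 2 * d + 1 : ℕ))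
    (H1 : 2 * (t * ((Fintype.card V : ℝ) ^ 2 / (m + 1))) + 2 * (m ^ 2 * t ^ 2 * a) +
      (Fintype.card V : ℝ) ^ 2 * (6 / (η * μ)) <
      (Fintype.card V : ℝ) ^ 2 * (Fintype.card F * p - t / Fintype.card F - Fintype.card F * ε) -
        Fintype.card F * (a / ε))
    (H2 : μ * Fintype.card V + 2 * (m ^ 2 * t ^ 2 * a) / u + u / ε ≤ j) :
    ∃ (S : Fin t × V → Fin m → V) (J : Finset (Fin t × V)) (nb : Fin t × V → Fin u → Fin t × V),
      (J.card : ℝ) ≤ j ∧ (∀ g ∉ J, Near nb g g) ∧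
      Reading D w (Forced ξ ι S) (fval ξ ι S) (fun g => Us ξ ι g (S g)) J nb (p - ε) (η + ε) := by
  classical
  have hM : (0 : ℝ) < Fintype.card V := by exact_mod_cast Fintype.card_pos
  have ht : (0 : ℝ) < t := by
    have := Fintype.card_pos (α := Fin t)
    rw [Fintype.card_fin] at this
    exact_mod_cast this
  have hm' : (0 : ℝ) < m := by exact_mod_cast hm
  have hu' : (0 : ℝ) < u := by exact_mod_cast hu
  have ha0 : 0 < a := by rw [ha]; positivity
  set A : ℝ := t * ((Fintype.card V : ℝ) ^ 2 / (m + 1)) with hA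
  set B : ℝ := m ^ 2 * t ^ 2 * a with hB
  have hA0 : 0 < A := by positivity
  have hB0 : 0 < B := by positivity
  set T1 := fun S : Fin t × V → Fin m → V => ∑ e : V × V, ∑ j,
      pr w (fun X => Rev ι t e X ∧ Silent ξ ι (grp ξ e j) (S (grp ξ e j)) X) with hT1
  set T2 := fun S : Fin t × V → Fin m → V => ∑ g, ∑ g', ind (Rel D ξ ι S g g') with hT2
  obtain ⟨S, hS⟩ := exists_le_av fun S => T1 S * (1 / A) + T2 S * (1 / B)
  rw [av_add, av_mul_right, av_mul_right] at hS
  have a1 : av T1 * (1 / A) ≤ 1 := by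
    rw [mul_one_div, div_le_one hA0]; exact av_T1 h
  have a2 : av T2 * (1 / B) ≤ 1 := by
    rw [mul_one_div, div_le_one hB0, hB, ha]; exact av_T2 hι hD
  have n1 : 0 ≤ T1 S * (1 / A) := mul_nonneg
    (sum_nonneg fun _ _ => sum_nonneg fun _ _ => h.pr_nonneg _) (by positivity)
  have n2 : 0 ≤ T2 S * (1 / B) := mul_nonneg
    (sum_nonneg fun _ _ => sum_nonneg fun _ _ => ind_nonneg _) (by positivity)
  have b1 : T1 S ≤ 2 * A := by
    rw [← div_le_iff₀ hA0, div_eq_mul_one_div]; linarith only [hS, a1, a2, n2]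
  have b2 : T2 S ≤ 2 * B := by
    rw [← div_le_iff₀ hB0, div_eq_mul_one_div]; linarith only [hS, a1, a2, n1]
  set J1 := univ.filter fun g => η ≤ pr w (Silent ξ ι g (S g)) with hJ1
  set J2 := univ.filter fun g => u ≤ (univ.filter (Rel D ξ ι S g)).card with hJ2
  set J3 := univ.filter fun g => g ∉ J2 ∧
    ε ≤ pr w (fun X => ¬ ∃ z, ConsOn ξ ι (picks ξ g (S g)) z X) with hJ3
  have c1 : (J1.card : ℝ) ≤ μ * Fintype.card V := by
    by_contra hc
    rw [not_le, ← lt_div_iff₀ hM] at hc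
    have h1 := sum_rev_le h hξ S J1 fun g hg => (mem_filter.1 hg).2
    have h2 := cheb hξ J1 hη hη1 (hμ.trans hc) (div_mul_cancel₀ _ hM.ne')
    have h3 := sum_rev h hι hD hε hh
    have h4 : 6 / (η * (J1.card / Fintype.card V)) ≤ 6 / (η * μ) :=
      div_le_div_of_nonneg_left (by norm_num) (by positivity) (by linarith only [hη, hc, mul_pos_of_neg_of_neg (Mathlib.Tactic.Linarith.sub_neg_of_lt hη) (Mathlib.Tactic.Linarith.sub_neg_of_lt hc)])
    have h5 := mul_le_mul_of_nonneg_left h4 (sq_nonneg (Fintype.card V : ℝ))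
    rw [← ha] at h3
    change _ ≤ T1 S + T2 S + _ at h1
    linarith only [H1, b1, b2, h2, h3, h5, h1]
  have c2 : (J2.card : ℝ) ≤ 2 * B / u := by
    rw [le_div_iff₀ hu']
    refine le_trans ?_ b2
    refine le_trans ?_ (sum_le_sum_of_subset_of_nonneg (subset_univ J2)
      fun _ _ _ => sum_nonneg fun _ _ => ind_nonneg _)
    rw [← nsmul_eq_mul, ← sum_const]
    refine sum_le_sum fun g hg => ?_
    rw [sum_ind]
    exact_mod_cast (mem_filter.1 hg).2
  have hN : ∀ g ∉ J2, (insert g (univ.filter (Rel D ξ ι S g))).card ≤ u := fun g hg => by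
    have := card_insert_le g (univ.filter (Rel D ξ ι S g))
    simp only [hJ2, mem_filter, mem_univ, true_and] at hg
    omega
  have hN' : ∀ g g', ¬ Sep D (Us ξ ι g (S g)) (Us ξ ι g' (S g')) →
      g' ∈ insert g (univ.filter (Rel D ξ ι S g)) := fun g g' hs => by
    by_cases hg : g' = g
    · simp [hg]
    · exact mem_insert_of_mem (mem_filter.2 ⟨mem_univ _, Ne.symm hg, hs⟩)
  have c3 : (J3.card : ℝ) ≤ u / ε :=
    few h J3 (I := fun g X => ¬ ∃ z, ConsOn ξ ι (picks ξ g (S g)) z X)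
      (S := fun g => Us ξ ι g (S g))
      (fun g _ => DetBy.not fun X Y hXY ⟨z, hz⟩ => ⟨z, detBy_consOn _ z X Y hXY hz⟩)
      (fun g hg => ⟨_, hN g (mem_filter.1 hg).2.1, mem_insert_self _ _, fun g' _ => hN' g g'⟩) hε
      (fun g hg => (mem_filter.1 hg).2.2)
      (hh.trans (pr_mono h fun X ⟨z, hz⟩ e _ => not_not.2 ⟨z, fun e' _ => hz e' (mem_univ _)⟩))
  have hnb : ∀ g, ∃ f : Fin u → Fin t × V, g ∉ J2 →
      ∀ x ∈ insert g (univ.filter (Rel D ξ ι S g)), ∃ i, f i = x := fun g => by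
    by_cases hg : g ∈ J2
    · exact ⟨fun _ => g, fun h => absurd hg h⟩
    · exact (exists_enum _ (hN g hg)).imp fun f hf _ => hf
  choose nb hnb using hnb
  have k1 : ∀ g ∉ J1 ∪ J2 ∪ J3, g ∉ J2 ∧ pr w (Silent ξ ι g (S g)) ≤ η ∧
      pr w (fun X => ¬ ∃ z, ConsOn ξ ι (picks ξ g (S g)) z X) ≤ ε := fun g hg => by
    simp only [mem_union, not_or] at hg
    refine ⟨hg.1.2, (not_le.1 fun h => hg.1.1 (mem_filter.2 ⟨mem_univ _, h⟩)).le,
      (not_le.1 fun h => hg.2 (mem_filter.2 ⟨mem_univ _, hg.1.2, h⟩)).le⟩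
  refine ⟨S, J1 ∪ J2 ∪ J3, nb, ?_, fun g hg => hnb g (k1 g hg).1 g (mem_insert_self _ _),
    fun g a => ?_, fun g hg g' hn => ?_, fun g hg a => ?_, fun g hg => ?_⟩
  · have : ((J1 ∪ J2 ∪ J3).card : ℝ) ≤ J1.card + J2.card + J3.card := by
      exact_mod_cast (card_union_le _ _).trans (Nat.add_le_add_right (card_union_le _ _) _)
    linarith only [H2, c1, c2, c3, this]
  · intro X Y hXY hX
    obtain ⟨⟨z, hz⟩, h2⟩ := (forced_iff S g X a).1 hX
    exact (forced_iff S g Y a).2 ⟨⟨z, detBy_consOn _ z X Y hXY hz⟩,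
      fun z hz => h2 z (detBy_consOn _ z Y X (fun e he => (hXY e he).symm) hz)⟩
  · by_contra hs
    exact hn (hnb g (k1 g hg).1 g' (hN' g g' hs))
  · have h1 := pr_le_add h (A := fun X => ι (pick ξ g (S g ⟨0, hm⟩), ξ g.1, a) ∈ X)
      (B := fun X => Forced ξ ι S g X ∧ fval ξ ι S g X = a)
      (C := fun X => ¬ ∃ z, ConsOn ξ ι (picks ξ g (S g)) z X) fun X hX => by
        by_cases hc : ∃ z, ConsOn ξ ι (picks ξ g (S g)) z X
        · refine Or.inl ((forced_iff S g X a).2 ⟨hc, fun z hz => ?_⟩)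
          have := hz _ (mem_image.2 ⟨⟨0, hm⟩, mem_univ _, rfl⟩) _ hX
          simpa only [Ok, eval_poly hξ, grp_pick] using this
        · exact Or.inr hc
    rw [pr_mem h] at h1
    linarith only [h1, k1, hg, (k1 g hg).2.2]
  · have h1 := pr_le_add h (A := fun X => ¬ Forced ξ ι S g X) (B := Silent ξ ι g (S g))
      (C := fun X => ¬ ∃ z, ConsOn ξ ι (picks ξ g (S g)) z X) fun X hX => by
        by_contra hn
        rw [not_or, not_not] at hn
        obtain ⟨h1, z, hz⟩ := hn
        obtain ⟨i, hi⟩ := not_forall.1 h1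
        refine hX ⟨⟨z, hz⟩, z g, fun z' hz' => ?_⟩
        have := hz'.unique hξ hz (mem_image.2 ⟨i, mem_univ _, rfl⟩) (not_not.1 hi) g.1
        rwa [grp_pick] at this
    linarith only [h1, k1, hg, (k1 g hg).2.1, (k1 g hg).2.2]

variable {ρ γ : Type*} [Fintype ρ] [DecidableEq ρ] [Fintype γ] [DecidableEq γ]

/-- no injective array of `W` has all its row sums zero -/
def Good {G : Type*} (W : List (ρ × γ → G)) (z : G → F) : Prop :=
  ∀ T ∈ W, Function.Injective T → ∃ i, ∑ c, z (T (i, c)) ≠ 0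

lemma core_of_reading [Nonempty (Fin t)] (h : Dep D p w) {S : Fin t × V → Fin m → V}
    {J : Finset (Fin t × V)} {u : ℕ} {nb : Fin t × V → Fin u → Fin t × V} {κ η τ j lo hi c : ℝ}
    (hJ : (J.card : ℝ) ≤ j) (hnb : ∀ g ∉ J, Near nb g g)
    (r : Reading D w (Forced ξ ι S) (fval ξ ι S) (fun g => Us ξ ι g (S g)) J nb κ η)
    {W : List (ρ × γ → Fin t × V)} (hW : Spread u τ j W)
    (hlo : lo = (1 - Fintype.card γ * η) / Fintype.card F -
      (1 - Fintype.card F * κ) ^ Fintype.card γ)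
    (hhi : hi = 1 / Fintype.card F + (1 - Fintype.card F * κ) ^ Fintype.card γ)
    (l0 : 0 ≤ lo) (h0 : 0 ≤ hi) (h1 : hi ≤ 1) (hc0 : 0 < c)
    (hc : 2 * c ≤ W.length * (lo ^ Fintype.card ρ - hi ^ Fintype.card ρ *
      (W.length * hi ^ Fintype.card ρ + τ * hi ^ (Fintype.card ρ - 1)))) :
    pr w (fun X => ∃ z, Good W z ∧ ConsOn ξ ι univ z X) ≤ 1 - c := by
  have h2 := r.union h (τ := τ) hlo hhi l0 h0 h1 W le_rfl
  have h3 : (W.length : ℝ) ≤ 2 * fineCount (Clean τ J nb) W := by exact_mod_cast hW J nb hJ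
  have h4 : 0 ≤ lo ^ Fintype.card ρ - hi ^ Fintype.card ρ *
      (W.length * hi ^ Fintype.card ρ + τ * hi ^ (Fintype.card ρ - 1)) := by
    by_contra hn
    have := mul_nonpos_of_nonneg_of_nonpos (Nat.cast_nonneg W.length) (not_le.1 hn).le
    linarith only [hc0, hc, this]
  have h5 := mul_le_mul_of_nonneg_right h3 h4
  have h6 := pr_mono h (A := fun X => ∃ z, Good W z ∧ ConsOn ξ ι univ z X)
    (B := fun X => ¬ ∃ T ∈ W, SelfClean J nb T ∧ Hit (Forced ξ ι S) (fval ξ ι S) T univ X) (by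
      rintro X ⟨z, hz, hX⟩ ⟨T, hT, hs, hh⟩
      obtain ⟨i, hi⟩ := hz T hT fun c c' hcc => by
        by_contra hne
        exact hs.2 c c' hne (hcc ▸ hnb _ (hs.1 c))
      refine hi ?_
      rw [← (hh i (mem_univ _)).2]
      refine sum_congr rfl fun c _ => ?_
      exact ((forced_iff S _ X _).1 ⟨(hh i (mem_univ _)).1 c (mem_univ _), rfl⟩).2 z
        fun e _ => hX e (mem_univ _))
  rw [h.pr_not] at h6
  linarith only [hc, h2, h5, h6]

end Pool.Agent.Work.MP_c7de0c_pr.Neg
end

-- merged part: Pool.Agent.Work.MP_c7de0c_pr.NegPerm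
section
/-!
A random labelling has no approximate symmetries.
-/

set_option linter.unusedSectionVars false

namespace Pool.Agent.Work.MP_c7de0c_pr.Neg

open Finset

variable {E E' K : Type*} [Fintype E] [DecidableEq E] [Fintype E'] [DecidableEq E'] [DecidableEq K]

lemma card_fiber_equiv (β : E' → K) {s : ℕ} (hs : ∀ k, (univ.filter fun x => β x = k).card ≤ s)
    (τ : E ≃ E') (k : K) : (univ.filter fun e => β (τ e) = k).card ≤ s := by
  refine le_trans (card_le_card_of_injOn τ (fun e he => ?_) τ.injective.injOn) (hs k)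
  simpa using he

lemma av_switch (β : E' → K) {s : ℕ} (hs : ∀ k, (univ.filter fun x => β x = k).card ≤ s)
    (A : (E ≃ E') → Prop) (T : Finset E)
    (hA : ∀ τ τ' : E ≃ E', (∀ e ∈ T, τ e = τ' e) → A τ → A τ') {u a : E} (hu : u ∉ T)
    (ha : a ∈ T) :
    ((Fintype.card E : ℝ) - T.card) * av (fun τ : E ≃ E' => ind (A τ ∧ β (τ u) = β (τ a))) ≤
      s * av (fun τ : E ≃ E' => ind (A τ)) := by
  have h1 : ∀ v ∈ Tᶜ, av (fun τ : E ≃ E' => ind (A τ ∧ β (τ u) = β (τ a))) =
      av (fun τ : E ≃ E' => ind (A τ ∧ β (τ v) = β (τ a))) := by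
    intro v hv
    rw [mem_compl] at hv
    rw [← av_equiv (Equiv.equivCongr (Equiv.swap u v) (Equiv.refl E'))]
    congr 1
    ext τ
    have h2 : ∀ e ∈ T, Equiv.swap u v e = e := fun e he =>
      Equiv.swap_apply_of_ne_of_ne (fun h => hu (h ▸ he)) (fun h => hv (h ▸ he))
    congr 1
    apply propext
    simp only [Equiv.equivCongr_apply_apply, Equiv.symm_swap, Equiv.refl_apply,
      Equiv.swap_apply_left, h2 a ha]
    refine and_congr_left fun _ => ⟨hA _ _ fun e he => ?_, hA _ _ fun e he => ?_⟩ <;>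
      simp [h2 e he]
  have h3 : ((Fintype.card E : ℝ) - T.card) = (Tᶜ.card : ℕ) := by
    rw [card_compl, Nat.cast_sub (card_le_univ T)]
  rw [h3, ← nsmul_eq_mul, ← sum_const, sum_congr rfl h1, ← av_sum, ← av_mul_left]
  refine av_mono fun τ => ?_
  simp only [ind_and]
  rw [← mul_sum, mul_comm, sum_ind]
  refine mul_le_mul_of_nonneg_right ?_ (ind_nonneg _)
  exact_mod_cast (card_le_card (filter_subset_filter _ (subset_univ _))).trans
    (card_fiber_equiv β hs τ _)

lemma av_coinc [Nonempty (E ≃ E')] (β : E' → K) {s : ℕ}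
    (hs : ∀ k, (univ.filter fun x => β x = k).card ≤ s) {ι : Type*} (u a : ι → E) (J : Finset ι)
    (hu : ∀ i ∈ J, ∀ j ∈ J, u i = u j → i = j) (ha : ∀ i ∈ J, ∀ j ∈ J, u i ≠ a j)
    (hJ : 4 * J.card ≤ Fintype.card E) :
    av (fun τ : E ≃ E' => ind (∀ i ∈ J, β (τ (u i)) = β (τ (a i)))) ≤
      (2 * s / Fintype.card E) ^ J.card := by
  classical
  induction J using Finset.induction_on with
  | empty => simp [ind, av_const]
  | insert i J hi ih =>
    rw [card_insert_of_notMem hi] at hJ ⊢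
    have ih' := ih (fun x hx y hy => hu x (mem_insert_of_mem hx) y (mem_insert_of_mem hy))
      (fun x hx y hy => ha x (mem_insert_of_mem hx) y (mem_insert_of_mem hy)) (by omega)
    have h1 := av_switch β hs (fun τ : E ≃ E' => ∀ i ∈ J, β (τ (u i)) = β (τ (a i)))
      (J.image u ∪ (insert i J).image a) (fun τ τ' h h' j hj => by
        rw [← h _ (mem_union_left _ (mem_image_of_mem _ hj)),
          ← h _ (mem_union_right _ (mem_image_of_mem _ (mem_insert_of_mem hj))), h' j hj])
      (u := u i) (a := a i) (by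
        rw [mem_union, not_or]
        constructor
        · intro h
          obtain ⟨j, hj, h⟩ := mem_image.1 h
          exact hi (hu j (mem_insert_of_mem hj) i (mem_insert_self _ _) h ▸ hj)
        · intro h
          obtain ⟨j, hj, h⟩ := mem_image.1 h
          exact ha i (mem_insert_self _ _) j hj h.symm)
      (mem_union_right _ (mem_image_of_mem _ (mem_insert_self _ _)))
    have h2 : 2 * (J.image u ∪ (insert i J).image a).card ≤ Fintype.card E := by
      have := card_union_le (J.image u) ((insert i J).image a)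
      have := card_image_le (s := J) (f := u)
      have := card_image_le (s := insert i J) (f := a)
      rw [card_insert_of_notMem hi] at this
      omega
    have h3 : (2 : ℝ) * (J.image u ∪ (insert i J).image a).card ≤ Fintype.card E := by
      exact_mod_cast h2
    have h4 : (0 : ℝ) < Fintype.card E := by exact_mod_cast (by omega : 0 < Fintype.card E)
    have h5 : av (fun τ : E ≃ E' => ind (∀ j ∈ insert i J, β (τ (u j)) = β (τ (a j)))) =
        av (fun τ : E ≃ E' => ind ((∀ i ∈ J, β (τ (u i)) = β (τ (a i))) ∧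
          β (τ (u i)) = β (τ (a i)))) := by
      congr 1; ext τ; congr 1; simp [and_comm]
    rw [h5, pow_succ, ← mul_div_assoc, le_div_iff₀ h4]
    have h6 := av_nonneg (f := fun τ : E ≃ E' => ind ((∀ i ∈ J, β (τ (u i)) = β (τ (a i))) ∧
          β (τ (u i)) = β (τ (a i)))) fun _ => ind_nonneg _
    have h7 : (0 : ℝ) ≤ s := Nat.cast_nonneg _
    linarith only [h1, ih', h7, h3, h6, mul_le_mul_of_nonneg_left ih' h7, mul_nonneg_of_nonpos_of_nonpos (Mathlib.Tactic.Linarith.sub_nonpos_of_le h3) (Mathlib.Tactic.Linarith.sub_nonpos_of_le h6)]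

/-- the elements moved by `ψ` whose block is partly carried to the block of the image -/
def bad (β : E → K) (ψ : Equiv.Perm E) : Finset E :=
  univ.filter fun e => ψ e ≠ e ∧ 4 ≤ (univ.filter fun f => β f = β e ∧ β (ψ f) = β (ψ e)).card

/-- compatibility of witnesses -/
def Comp (ψ : Equiv.Perm E) (e e' a' : E) : Prop := e ≠ ψ e' ∧ a' ≠ e ∧ a' ≠ ψ e ∧ ψ a' ≠ e

lemma exists_witness (β : E → K) {s : ℕ} (hs : ∀ k, (univ.filter fun x => β x = k).card ≤ s)
    (ψ : Equiv.Perm E) {R : ℕ} (hR : 6 * s * R ≤ (bad β ψ).card) (h0 : 0 < s) :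
    ∃ H ∈ powersetCard R ψ.support, ∃ a : H → E, (∀ e e' : H, Comp ψ e e' (a e')) ∧
      ∀ e : H, β e = β (a e) ∧ β (ψ e) = β (ψ (a e)) := by
  classical
  have h1 : ∀ e, ∃ a, e ∈ bad β ψ → Comp ψ e e a ∧ β e = β a ∧ β (ψ e) = β (ψ a) := by
    intro e
    by_cases he : e ∈ bad β ψ
    swap
    · exact ⟨e, fun h => absurd h he⟩
    obtain ⟨h1, h2⟩ := (mem_filter.1 he).2
    obtain ⟨a, ha, ha'⟩ := exists_mem_notMem_of_card_lt_card
      (s := {e, ψ e, ψ.symm e}) (lt_of_le_of_lt card_le_three h2)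
    simp only [mem_insert, mem_singleton, not_or, mem_filter, mem_univ, true_and] at ha ha'
    exact ⟨a, fun _ => ⟨⟨h1.symm, ha'.1, ha'.2.1, fun h => ha'.2.2 (by simp [← h])⟩, ha.1.symm,
      ha.2.symm⟩⟩
  choose a ha using h1
  obtain ⟨H, hH, hind, hcard⟩ := exists_indep
    (fun e e' => ¬ (Comp ψ e e' (a e') ∧ Comp ψ e' e (a e))) (fun i j h h' => h h'.symm) (6 * s)
    (bad β ψ) (fun e he => by
      refine le_trans (card_le_card (t := ({e, ψ e, ψ.symm e, a e, ψ (a e), ψ.symm (a e)} :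
        Finset E).biUnion fun x => univ.filter fun f => β f = β x) fun e' he' => ?_)
        (card_biUnion_le.trans ?_)
      · obtain ⟨h1, h2⟩ := mem_filter.1 he'
        have h3 := (ha e' h1).2.1
        simp only [mem_biUnion, mem_insert, mem_singleton, mem_filter, mem_univ, true_and]
        by_contra hn
        push Not at hn
        refine h2.elim (fun h => hn e (by simp) (by rw [h])) fun h => h ⟨⟨?_, ?_, ?_, ?_⟩,
          ?_, ?_, ?_, ?_⟩
        · exact fun h => hn (ψ.symm e) (by simp) (by simp [h])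
        · exact fun h => hn e (by simp) (by rw [h3, h])
        · exact fun h => hn (ψ e) (by simp) (by rw [h3, h])
        · exact fun h => hn (ψ.symm e) (by simp) (by simp [h3, ← h])
        · exact fun h => hn (ψ e) (by simp) (by rw [h])
        · exact fun h => hn (a e) (by simp) (by rw [h])
        · exact fun h => hn (ψ.symm (a e)) (by simp) (by simp [h])
        · exact fun h => hn (ψ (a e)) (by simp) (by rw [h])
      · refine (sum_le_sum (g := fun _ => s) fun x _ => hs _).trans ?_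
        rw [sum_const, smul_eq_mul]
        exact Nat.mul_le_mul_right _ card_le_six)
  obtain ⟨H', hH', hc⟩ := exists_subset_card_eq (s := H) (n := R)
    (Nat.le_of_mul_le_mul_left (hR.trans hcard) (by omega))
  refine ⟨H', mem_powersetCard.2 ⟨fun e he => ?_, hc⟩, fun e => a e, fun e e' => ?_,
    fun e => (ha e (hH (hH' e.2))).2⟩
  · exact Equiv.Perm.mem_support.2 (mem_filter.1 (hH (hH' he))).2.1
  · by_cases h : (e : E) = e'
    · rw [h]; exact (ha e' (hH (hH' e'.2))).1
    · exact (not_not.1 (hind e (hH' e.2) e' (hH' e'.2) h)).1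

lemma av_bad [Nonempty (E ≃ E')] (β : E' → K) {s : ℕ}
    (hs : ∀ k, (univ.filter fun x => β x = k).card ≤ s) (h0 : 0 < s) (ψ : Equiv.Perm E) {R : ℕ}
    (hR : 8 * R ≤ Fintype.card E) :
    av (fun τ : E ≃ E' => ind (6 * s * R ≤ (bad (fun e => β (τ e)) ψ).card)) ≤
      2 ^ ψ.support.card * (4 * s ^ 2 / Fintype.card E) ^ R := by
  classical
  refine (av_mono (g := fun τ : E ≃ E' => ∑ H ∈ powersetCard R ψ.support, ∑ a : H → E,
    ind ((∀ e e' : H, Comp ψ e e' (a e')) ∧
      ∀ e : H, β (τ e) = β (τ (a e)) ∧ β (τ (ψ e)) = β (τ (ψ (a e))))) fun τ => ?_).trans ?_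
  · by_cases h : 6 * s * R ≤ (bad (fun e => β (τ e)) ψ).card
    · obtain ⟨H, hH, a, ha⟩ := exists_witness _ (card_fiber_equiv β hs τ) ψ h h0
      rw [ind_pos h, ← ind_pos ha]
      refine le_trans ?_ (single_le_sum (fun _ _ => sum_nonneg fun _ _ => ind_nonneg _) hH)
      exact single_le_sum (f := fun a : H → E => ind ((∀ e e' : H, Comp ψ e e' (a e')) ∧
        ∀ e : H, β (τ e) = β (τ (a e)) ∧ β (τ (ψ e)) = β (τ (ψ (a e)))))
        (fun _ _ => ind_nonneg _) (mem_univ a)
    · rw [ind_neg h]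
      exact sum_nonneg fun _ _ => sum_nonneg fun _ _ => ind_nonneg _
  · rw [av_sum]
    refine (sum_le_sum (g := fun _ => (4 * s ^ 2 / Fintype.card E : ℝ) ^ R) fun H hH => ?_).trans ?_
    · have hc := (mem_powersetCard.1 hH).2
      rw [av_sum]
      refine (sum_le_sum (g := fun _ => (2 * s / Fintype.card E : ℝ) ^ (2 * R))
        fun a _ => ?_).trans (le_of_eq ?_)
      · by_cases hcomp : ∀ e e' : H, Comp ψ e e' (a e')
        · have := av_coinc (E := E) β hs (ι := H ⊕ H) (Sum.elim (fun e => e) fun e => ψ e)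
            (Sum.elim a fun e => ψ (a e)) univ (by
              rintro (e | e) - (e' | e') - h
              · exact congrArg _ (Subtype.ext h)
              · exact absurd h (hcomp e e').1
              · exact absurd h.symm (hcomp e' e).1
              · exact congrArg _ (Subtype.ext (ψ.injective h))) (by
              rintro (e | e) - (e' | e') - h
              · exact (hcomp e e').2.1 h.symm
              · exact (hcomp e e').2.2.2 h.symm
              · exact (hcomp e e').2.2.1 h.symm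
              · exact (hcomp e e').2.1 (ψ.injective h).symm) (by simp [hc]; omega)
          rw [show (univ : Finset (H ⊕ H)).card = 2 * R by simp [hc, two_mul]] at this
          refine le_trans (av_mono fun τ => ind_mono fun h => ?_) this
          rintro (e | e) -
          · exact (h.2 e).1
          · exact (h.2 e).2
        · refine le_trans (av_mono (g := fun _ => 0) fun τ => ?_) ?_
          · exact (ind_neg fun h => hcomp h.1).le
          · rw [av_const]; positivity
      · rw [sum_const, card_univ, Fintype.card_fun, Fintype.card_coe, hc, nsmul_eq_mul, pow_mul,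
          Nat.cast_pow, ← mul_pow]
        rcases Nat.eq_zero_or_pos R with rfl | hR0
        · simp
        have h4 : (Fintype.card E : ℝ) ≠ 0 := by exact_mod_cast (by omega : Fintype.card E ≠ 0)
        congr 1
        field_simp
        norm_num
    · rw [sum_const, nsmul_eq_mul]
      refine mul_le_mul_of_nonneg_right ?_ (by positivity)
      rw [card_powersetCard]
      exact_mod_cast Nat.choose_le_two_pow _ _

end Pool.Agent.Work.MP_c7de0c_pr.Neg
end
end

-- merged part: Pool.Agent.Work.MP_c7de0c_pr.NegMain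
section
-- merged part: Pool.Agent.Work.MP_c7de0c_pr.NegNum
section
/-!
Choice of the parameters.
-/

set_option linter.unusedSectionVars false
set_option exponentiation.threshold 2000

namespace Pool.Agent.Work.MP_c7de0c_pr.Neg

open Finset

lemma pw {x : ℝ} (hx : 1000 ≤ x) {c : ℝ} (hc : c ≤ 1000) {a b : ℕ} (h : a < b) :
    c * x ^ a ≤ x ^ b := by
  have h1 : x ^ (a + 1) ≤ x ^ b := pow_le_pow_right₀ (by linarith only [hx]) h
  have h2 : 0 ≤ x ^ a := by positivity
  rw [pow_succ] at h1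
  linarith only [h1, hx, h2, hc, mul_nonneg_of_nonpos_of_nonpos (Mathlib.Tactic.Linarith.sub_nonpos_of_le hx) (Mathlib.Tactic.Linarith.sub_nonpos_of_le h2), mul_nonneg_of_nonpos_of_nonpos (Mathlib.Tactic.Linarith.sub_nonpos_of_le hc) (Mathlib.Tactic.Linarith.sub_nonpos_of_le h2)]

lemma num_spread {x : ℝ} (hx : 1000 ≤ x) {w : ℝ} (hw0 : 0 ≤ w) (hw : w ≤ x ^ 702) :
    54 * x ^ 3 * (100 * x ^ 526 / x ^ 531) + (54 * x ^ 3) ^ 2 * (x ^ 130 / x ^ 531) +
      w * ((54 * x ^ 3) ^ 2 * (54 * x ^ 3 * (x ^ 130 / x ^ 531)) ^ 2) +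
      w * (54 * x ^ 3 * (54 * x ^ 3 * (x ^ 130 / x ^ 531))) / x ^ 676 ≤ 1 / 16 := by
  have h0 : 0 < x := by linarith only [hx]
  have hc : 54 * x ^ 3 ≤ x ^ 4 := pw hx (by norm_num) (by norm_num)
  have h1 : 54 * x ^ 3 * (100 * x ^ 526 / x ^ 531) ≤ 1 / 64 := by
    rw [show 54 * x ^ 3 * (100 * x ^ 526 / x ^ 531) = 5400 / x ^ 2 by field_simp; ring,
      div_le_div_iff₀ (by positivity) (by norm_num)]
    linarith only [hx, mul_nonneg_of_nonpos_of_nonpos (Mathlib.Tactic.Linarith.sub_nonpos_of_le hx) (Mathlib.Tactic.Linarith.sub_nonpos_of_le hx)]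
  have h2 : (54 * x ^ 3) ^ 2 * (x ^ 130 / x ^ 531) ≤ 1 / 64 := by
    calc _ ≤ (x ^ 4) ^ 2 * (x ^ 130 / x ^ 531) := by gcongr
      _ = x ^ 138 / x ^ 531 := by ring
      _ ≤ 1 / 64 := by
        rw [div_le_div_iff₀ (by positivity) (by norm_num)]
        linarith only [hx, pw hx (c := 64) (by norm_num) (show 138 < 531 by norm_num)]
  have h3 : w * ((54 * x ^ 3) ^ 2 * (54 * x ^ 3 * (x ^ 130 / x ^ 531)) ^ 2) ≤ 1 / 64 := by
    calc _ ≤ x ^ 702 * ((x ^ 4) ^ 2 * (x ^ 4 * (x ^ 130 / x ^ 531)) ^ 2) := by gcongr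
      _ = x ^ 978 / x ^ 1062 := by ring
      _ ≤ 1 / 64 := by
        rw [div_le_div_iff₀ (by positivity) (by norm_num)]
        linarith only [hx, pw hx (c := 64) (by norm_num) (show 978 < 1062 by norm_num)]
  have h4 : w * (54 * x ^ 3 * (54 * x ^ 3 * (x ^ 130 / x ^ 531))) / x ^ 676 ≤ 1 / 64 := by
    calc _ ≤ x ^ 702 * (x ^ 4 * (x ^ 4 * (x ^ 130 / x ^ 531))) / x ^ 676 := by gcongr
      _ = x ^ 840 / x ^ 1207 := by ring
      _ ≤ 1 / 64 := by
        rw [div_le_div_iff₀ (by positivity) (by norm_num)]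
        linarith only [hx, pw hx (c := 64) (by norm_num) (show 840 < 1207 by norm_num)]
  linarith only [h1, h2, h3, h4]

lemma num_K {l : ℕ} (hl : 1000 ≤ l) :
    2 ^ l ^ 531 * ((l ^ 531) ^ l ^ 130) ^ l ^ 531 < 2 ^ (l ^ 702 / 10) := by
  have h1 : l ^ 531 ≤ 2 ^ (l * 531) := by
    rw [pow_mul]; exact Nat.pow_le_pow_left Nat.lt_two_pow_self.le _
  refine lt_of_le_of_lt (Nat.mul_le_mul_left _ (Nat.pow_le_pow_left (Nat.pow_le_pow_left h1 _) _)) ?_
  rw [← pow_mul, ← pow_mul, ← pow_add]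
  refine Nat.pow_lt_pow_right (by norm_num) ?_
  rw [Nat.lt_iff_add_one_le, Nat.le_div_iff_mul_le (by norm_num)]
  have hx : (1000 : ℝ) ≤ l := by exact_mod_cast hl
  have a1 := pw hx (c := 30) (by norm_num) (show 531 < 702 by norm_num)
  have a2 := pw hx (c := 531) (by norm_num) (show 662 < 663 by norm_num)
  have a3 := pw hx (c := 30) (by norm_num) (show 663 < 702 by norm_num)
  have a4 := pw hx (c := 30) (by norm_num) (show 0 < 702 by norm_num)
  have : (((l ^ 531 + l * 531 * (l ^ 130 * l ^ 531) + 1) * 10 : ℕ) : ℝ) ≤ (l ^ 702 : ℕ) := by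
    push_cast
    rw [show (l : ℝ) * 531 * (l ^ 130 * l ^ 531) = 531 * l ^ 662 by ring]
    linarith only [a1, a2, a3, a4]
  exact_mod_cast this

lemma num_H1 {x a p : ℝ} (hx : 1000 ≤ x) (ha0 : 0 ≤ a) (ha : a ≤ 8 * x ^ 585)
    (hp : 1 / (3 * x ^ 14) ≤ p) :
    2 * (x ^ 11 * ((x ^ 520) ^ 2 / (x ^ 13 + 1))) + 2 * ((x ^ 13) ^ 2 * (x ^ 11) ^ 2 * a) +
      (x ^ 520) ^ 2 * (6 / (1 / x ^ 5 * (96 * x ^ 6))) <
      (x ^ 520) ^ 2 * (x ^ 13 * p - x ^ 11 / x ^ 13 - x ^ 13 * (1 / x ^ 15)) -
        x ^ 13 * (a / (1 / x ^ 15)) := by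
  have h0 : 0 < x := by linarith only [hx]
  have h1 : x ^ 11 * ((x ^ 520) ^ 2 / (x ^ 13 + 1)) ≤ x ^ 1038 := by
    calc _ ≤ x ^ 11 * ((x ^ 520) ^ 2 / x ^ 13) := by gcongr; linarith only []
      _ = x ^ 1038 := by field_simp
  have h2 : (x ^ 13) ^ 2 * (x ^ 11) ^ 2 * a ≤ x ^ 1038 := by
    calc _ ≤ (x ^ 13) ^ 2 * (x ^ 11) ^ 2 * (8 * x ^ 585) := by gcongr
      _ = 8 * x ^ 633 := by ring
      _ ≤ _ := pw hx (by norm_num) (by norm_num)
  have h3 : (x ^ 520) ^ 2 * (6 / (1 / x ^ 5 * (96 * x ^ 6))) = x ^ 1039 / 16 := by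
    field_simp; ring
  have h4 : x ^ 13 * (a / (1 / x ^ 15)) ≤ x ^ 1038 := by
    calc _ ≤ x ^ 13 * (8 * x ^ 585 / (1 / x ^ 15)) := by gcongr
      _ = 8 * x ^ 613 := by field_simp
      _ ≤ _ := pw hx (by norm_num) (by norm_num)
  have h5 : x ^ 1039 / 3 - 2 * x ^ 1038 ≤
      (x ^ 520) ^ 2 * (x ^ 13 * p - x ^ 11 / x ^ 13 - x ^ 13 * (1 / x ^ 15)) := by
    calc _ = (x ^ 520) ^ 2 * (x ^ 13 * (1 / (3 * x ^ 14)) - x ^ 11 / x ^ 13 -
          x ^ 13 * (1 / x ^ 15)) := by field_simp; ring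
      _ ≤ _ := by gcongr
  have h6 := pw hx (c := 100) (by norm_num) (show 1038 < 1039 by norm_num)
  have h7 : 0 < x ^ 1038 := by positivity
  linarith only [h1, h2, h3, h4, h5, h6, h7]

lemma num_H2 {x a : ℝ} (hx : 1000 ≤ x) (ha : a ≤ 8 * x ^ 585) :
    96 * x ^ 6 * x ^ 520 + 2 * ((x ^ 13) ^ 2 * (x ^ 11) ^ 2 * a) / x ^ 130 +
      x ^ 130 / (1 / x ^ 15) ≤ 100 * x ^ 526 := by
  have h0 : 0 < x := by linarith
  have h1 : 2 * ((x ^ 13) ^ 2 * (x ^ 11) ^ 2 * a) / x ^ 130 ≤ x ^ 526 := by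
    calc _ ≤ 2 * ((x ^ 13) ^ 2 * (x ^ 11) ^ 2 * (8 * x ^ 585)) / x ^ 130 := by gcongr
      _ = 16 * x ^ 503 := by field_simp; ring
      _ ≤ _ := pw hx (by norm_num) (by norm_num)
  have h2 : x ^ 130 / (1 / x ^ 15) ≤ x ^ 526 := by
    calc _ = 1 * x ^ 145 := by field_simp
      _ ≤ _ := pw hx (by norm_num) (by norm_num)
  have h3 : 96 * x ^ 6 * x ^ 520 = 96 * x ^ 526 := by ring
  have h7 : 0 < x ^ 526 := by positivity
  linarith only [h1, h2, h7]

lemma num_theta {l : ℕ} (hl : 1000 ≤ l) :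
    0 ≤ (1 - (l : ℝ) ^ 13 * (1 / (4 * l ^ 14))) ^ l ^ 3 ∧
    (1 - (l : ℝ) ^ 13 * (1 / (4 * l ^ 14))) ^ l ^ 3 ≤ 1 / l ^ 15 := by
  have hx : (1000 : ℝ) ≤ l := by exact_mod_cast hl
  have h0 : (0 : ℝ) < l := by linarith only [hx]
  rw [show (l : ℝ) ^ 13 * (1 / (4 * l ^ 14)) = 1 / (4 * l) by field_simp]
  have y0 : (0 : ℝ) ≤ 1 / (4 * l) := by positivity
  have y1 : (1 : ℝ) / (4 * l) ≤ 1 := by rw [div_le_one (by positivity)]; linarith only [hx]
  refine ⟨pow_nonneg (by linarith only [y1]) _, ?_⟩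
  have h1 := one_sub_pow_le y0 y1 (4 * l ^ 2)
  rw [show ((4 * l ^ 2 : ℕ) : ℝ) * (1 / (4 * l)) = l by push_cast; field_simp] at h1
  have h2 : 0 ≤ (1 - (1 : ℝ) / (4 * l)) ^ (4 * l ^ 2) := pow_nonneg (by linarith only [y1]) _
  have h3 : (1 - (1 : ℝ) / (4 * l)) ^ (4 * l ^ 2) ≤ 1 / l := by
    rw [le_div_iff₀ h0]; linarith only [h1, h2]
  calc (1 - (1 : ℝ) / (4 * l)) ^ l ^ 3 ≤ (1 - (1 : ℝ) / (4 * l)) ^ (4 * l ^ 2 * 15) :=
        pow_le_pow_of_le_one (by linarith only [y1]) (by linarith only [y0]) (by nlinarith only [hl, Nat.zero_le (l ^ 2)])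
    _ ≤ (1 / l) ^ 15 := by rw [pow_mul]; exact pow_le_pow_left₀ h2 h3 _
    _ = _ := by rw [one_div_pow]

lemma num_final {q w lo hi : ℝ} (hq : 1000 ≤ q) (hw1 : q ^ 54 ≤ 20 * w) (hw2 : 10 * w ≤ q ^ 54)
    (hlo : 999 / 1000 / q ≤ lo) (h0 : 0 ≤ hi) (hhi : hi ≤ 1001 / 1000 / q) :
    2 * (1 / 100) ≤ w * (lo ^ 54 - hi ^ 54 * (w * hi ^ 54 + q ^ 52 * hi ^ (54 - 1))) := by
  have q0 : 0 < q := lt_of_lt_of_le (by norm_num) hq
  have q1 : 11 / 10 / q ≤ 11 / 100 := by
    clear hw1 hw2
    rw [div_le_iff₀ q0]; linarith only [hq]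
  have hw1' : q ^ 54 / 20 ≤ w := by rw [div_le_iff₀ (by norm_num), mul_comm]; exact hw1
  have hw2' : w ≤ q ^ 54 / 10 := by rw [le_div_iff₀ (by norm_num), mul_comm]; exact hw2
  have hw0 : 0 ≤ w := le_trans (by positivity) hw1'
  have h1 : 9 / 10 / q ^ 54 ≤ lo ^ 54 := by
    calc _ ≤ (999 / 1000) ^ 54 / q ^ 54 := by gcongr; norm_num
      _ = (999 / 1000 / q) ^ 54 := by rw [div_pow (999 / 1000 : ℝ)]
      _ ≤ _ := by gcongr
  have h2 : hi ^ 54 ≤ 11 / 10 / q ^ 54 := by
    calc _ ≤ (1001 / 1000 / q) ^ 54 := by gcongr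
      _ = (1001 / 1000) ^ 54 / q ^ 54 := by rw [div_pow (1001 / 1000 : ℝ)]
      _ ≤ _ := by gcongr; norm_num
  have h3 : hi ^ 53 ≤ 11 / 10 / q ^ 53 := by
    calc _ ≤ (1001 / 1000 / q) ^ 53 := by gcongr
      _ = (1001 / 1000) ^ 53 / q ^ 53 := by rw [div_pow (1001 / 1000 : ℝ)]
      _ ≤ _ := by gcongr; norm_num
  have h4 : w * hi ^ 54 ≤ 11 / 100 := by
    calc _ ≤ q ^ 54 / 10 * (11 / 10 / q ^ 54) :=
          mul_le_mul hw2' h2 (pow_nonneg h0 _) (hw0.trans hw2')
      _ = _ := by field_simp; ring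
  have h5 : q ^ 52 * hi ^ (54 - 1) ≤ 11 / 100 := by
    calc _ ≤ q ^ 52 * (11 / 10 / q ^ 53) := mul_le_mul_of_nonneg_left h3 (by positivity)
      _ = 11 / 10 / q := by field_simp
      _ ≤ _ := q1
  have h6 : hi ^ 54 * (w * hi ^ 54 + q ^ 52 * hi ^ (54 - 1)) ≤ 11 / 10 / q ^ 54 * (22 / 100) :=
    mul_le_mul h2 ((add_le_add h4 h5).trans (by norm_num))
      (add_nonneg (mul_nonneg hw0 (pow_nonneg h0 _))
        (mul_nonneg (pow_nonneg q0.le _) (pow_nonneg h0 _))) ((pow_nonneg h0 _).trans h2)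
  calc 2 * (1 / 100 : ℝ) ≤ q ^ 54 / 20 * (9 / 10 / q ^ 54 - 11 / 10 / q ^ 54 * (22 / 100)) := by
        field_simp; norm_num
    _ ≤ _ := by
      have : 0 ≤ 9 / 10 / q ^ 54 - 11 / 10 / q ^ 54 * (22 / 100) := by
        rw [show 9 / 10 / q ^ 54 - 11 / 10 / q ^ 54 * (22 / 100) = 329 / 500 / q ^ 54 by ring]
        positivity
      exact mul_le_mul hw1' (sub_le_sub h1 h6) this hw0

lemma Reading.mono {E : Type*} [Fintype E] [DecidableEq E] {D : SimpleGraph E}
    {w : Finset E → ℝ} {F : Type*} {G : Type*} {Df : G → Finset E → Prop} {val : G → Finset E → F}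
    {U : G → Finset E} {J : Finset G} {u : ℕ} {nb : G → Fin u → G} {κ η κ' : ℝ}
    (r : Reading D w Df val U J nb κ η) (h : κ' ≤ κ) : Reading D w Df val U J nb κ' η :=
  ⟨r.det, r.sep, fun g hg a => h.trans (r.low g hg a), r.undef⟩

theorem core {l : ℕ} (hl : 1000 ≤ l) (F : Type) [Field F] [Fintype F] [DecidableEq F]
    (hF : Fintype.card F = l ^ 13) :
    ∃ (ξ : Fin (l ^ 11) → F) (W : List (Fin 54 × Fin (l ^ 3) → Fin (l ^ 11) × (Fin 40 → F))),
      Function.Injective ξ ∧ 10 * W.length ≤ Fintype.card F ^ 54 ∧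
      ∀ (E : Type) [Fintype E] [DecidableEq E] (D : SimpleGraph E) (p : ℝ) (w : Finset E → ℝ)
        (ι : ((Fin 40 → F) × (Fin 40 → F)) × F × F → E), Dep D p w → Function.Injective ι →
        (∀ v, (D.neighborSet v).ncard ≤ 7 * l ^ 559) → 1 / (3 * (l : ℝ) ^ 14) ≤ p →
        pr w (fun X => ∃ z, Good W z ∧ ConsOn ξ ι univ z X) ≤ 99 / 100 := by
  have hx : (1000 : ℝ) ≤ l := by exact_mod_cast hl
  have x0 : (0 : ℝ) < l := by linarith only [hx]
  have l0 : 0 < l := by omega
  have : Nonempty (Fin (l ^ 11)) := ⟨⟨0, by positivity⟩⟩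
  obtain ⟨ξ⟩ := Function.Embedding.nonempty_of_card_le (α := Fin (l ^ 11)) (β := F)
    (by rw [hF, Fintype.card_fin]; exact Nat.pow_le_pow_right l0 (by norm_num))
  have hV : Fintype.card (Fin 40 → F) = l ^ 520 := by simp [hF, ← pow_mul]
  have hG : Fintype.card (Fin (l ^ 11) × (Fin 40 → F)) = l ^ 531 := by
    rw [Fintype.card_prod, hV, Fintype.card_fin, ← pow_add]
  have hC : Fintype.card (Fin 54 × Fin (l ^ 3)) = 54 * l ^ 3 := by simp
  have hw2 : 10 * (l ^ 702 / 10) ≤ l ^ 702 := Nat.mul_div_le _ _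
  have hw1 : l ^ 702 ≤ 20 * (l ^ 702 / 10) := by
    have : l ^ 1 ≤ l ^ 702 := Nat.pow_le_pow_right l0 (by norm_num)
    rw [pow_one] at this
    omega
  obtain ⟨W, hW, hS⟩ := exists_spread (C := Fin 54 × Fin (l ^ 3))
    (G := Fin (l ^ 11) × (Fin 40 → F)) (l ^ 130) (l ^ 702 / 10) (τ := (l : ℝ) ^ 676)
    (j := 100 * (l : ℝ) ^ 526) (by positivity) (by
      rw [hG, hC]
      have := num_spread hx (w := (l ^ 702 / 10 : ℕ)) (Nat.cast_nonneg _)
        (by exact_mod_cast Nat.div_le_self _ _)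
      push_cast at this ⊢
      exact this) (by rw [hG]; exact num_K hl)
  refine ⟨ξ, W, ξ.injective, by rw [hW, hF, ← pow_mul]; exact hw2,
    fun E _ _ D p w ι h hι hD hp => ?_⟩
  by_cases hh : 1 / 2 ≤ pr w (fun X => ∃ z, ConsOn ξ ι univ z X)
  swap
  · have := pr_mono h (A := fun X => ∃ z, Good W z ∧ ConsOn ξ ι univ z X)
      (B := fun X => ∃ z, ConsOn ξ ι univ z X) fun X ⟨z, hz⟩ => ⟨z, hz.2⟩
    linarith only [hh, this]
  have ha : ((Fintype.card F ^ 2 * (7 * l ^ 559) + 1 : ℕ) : ℝ) ≤ 8 * (l : ℝ) ^ 585 := by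
    rw [hF]
    push_cast
    have : (1 : ℝ) ≤ l ^ 585 := one_le_pow₀ (by linarith only [hx])
    rw [show ((l : ℝ) ^ 13) ^ 2 * (7 * l ^ 559) = 7 * l ^ 585 by ring]
    linarith only [this]
  obtain ⟨S, J, nb, hJ, hnb, r⟩ := exists_reading (m := l ^ 13) (u := l ^ 130) h ξ.injective hι hD hh
    (ε := 1 / (l : ℝ) ^ 15) (η := 1 / (l : ℝ) ^ 5) (μ := 96 * (l : ℝ) ^ 6)
    (j := 100 * (l : ℝ) ^ 526) (by positivity) (by positivity) (by positivity) (by positivity)
    (by rw [div_le_one (by positivity)]; exact one_le_pow₀ (by linarith only [hx])) (by positivity) rfl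
    (by
      have := num_H1 hx (Nat.cast_nonneg _) ha hp
      rw [hV]
      simpa only [hF, Nat.cast_pow] using this)
    (by
      have := num_H2 hx ha
      rw [hV]
      simpa only [Nat.cast_pow] using this)
  have hκ : 1 / (4 * (l : ℝ) ^ 14) ≤ p - 1 / (l : ℝ) ^ 15 := by
    have : 1 / (4 * (l : ℝ) ^ 14) + 1 / (l : ℝ) ^ 15 ≤ 1 / (3 * (l : ℝ) ^ 14) := by
      rw [← sub_nonneg, show 1 / (3 * (l : ℝ) ^ 14) - (1 / (4 * (l : ℝ) ^ 14) + 1 / (l : ℝ) ^ 15) =
        (l / 12 - 1) / l ^ 15 by field_simp; ring]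
      exact div_nonneg (by linarith only [hx]) (by positivity)
    linarith only [hp, this]
  obtain ⟨t0, t1⟩ := num_theta hl
  have hq : (1000 : ℝ) ≤ (l : ℝ) ^ 13 := by
    simpa using pw hx (c := 1000) le_rfl (show 0 < 13 by norm_num)
  have hlo : 999 / 1000 / (l : ℝ) ^ 13 ≤ (1 - (l : ℝ) ^ 3 * (1 / (l : ℝ) ^ 5 + 1 / (l : ℝ) ^ 15)) /
      (l : ℝ) ^ 13 - (1 - (l : ℝ) ^ 13 * (1 / (4 * l ^ 14))) ^ l ^ 3 := by
    refine le_trans ?_ (sub_le_sub_left t1 _)
    rw [← sub_nonneg, show (1 - (l : ℝ) ^ 3 * (1 / (l : ℝ) ^ 5 + 1 / (l : ℝ) ^ 15)) /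
      (l : ℝ) ^ 13 - 1 / l ^ 15 - 999 / 1000 / (l : ℝ) ^ 13 =
      (l ^ 12 / 1000 - 2 * l ^ 10 - 1) / l ^ 25 by field_simp; ring]
    refine div_nonneg ?_ (by positivity)
    have a1 := pw hx (c := 1000) le_rfl (show 11 < 12 by norm_num)
    have a2 := pw hx (c := 3) (by norm_num) (show 10 < 11 by norm_num)
    have a3 : (1 : ℝ) ≤ l ^ 10 := one_le_pow₀ (by linarith only [hx])
    linarith only [a1, a2, a3]
  have hhi : 1 / (l : ℝ) ^ 13 + (1 - (l : ℝ) ^ 13 * (1 / (4 * l ^ 14))) ^ l ^ 3 ≤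
      1001 / 1000 / (l : ℝ) ^ 13 := by
    refine le_trans (add_le_add_right t1 _) ?_
    rw [← sub_nonneg, show 1001 / 1000 / (l : ℝ) ^ 13 - (1 / (l : ℝ) ^ 13 + 1 / l ^ 15) =
      (l ^ 2 / 1000 - 1) / l ^ 15 by field_simp; ring]
    refine div_nonneg ?_ (by positivity)
    linarith only [hx, pw hx (c := 1000) le_rfl (show 0 < 2 by norm_num), pow_zero (l : ℝ)]
  have := core_of_reading h hJ hnb (r.mono hκ) hS (c := 1 / 100) rfl rfl
    (by simp only [hF, Fintype.card_fin, Nat.cast_pow]; exact le_trans (by positivity) hlo)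
    (by simp only [hF, Fintype.card_fin, Nat.cast_pow]; positivity)
    (by
      simp only [hF, Fintype.card_fin, Nat.cast_pow]
      refine hhi.trans ?_
      rw [div_le_one (by positivity)]
      linarith only [hq]) (by norm_num)
    (by
      simp only [hF, Fintype.card_fin, Nat.cast_pow, hW]
      rw [show (l : ℝ) ^ 676 = (l ^ 13) ^ 52 by ring]
      refine num_final hq ?_ ?_ hlo (by positivity) hhi
      · rw [← pow_mul]; exact_mod_cast hw1
      · rw [← pow_mul]; exact_mod_cast hw2)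
  linarith only [this]

end Pool.Agent.Work.MP_c7de0c_pr.Neg
end

-- merged part: Pool.Agent.Work.MP_c7de0c_pr.NegEdge
section
/-!
Permutations of the vertices acting on the possible edges; a rigid labelling of the edges.
-/

set_option linter.unusedSectionVars false

namespace Pool.Agent.Work.MP_c7de0c_pr.Neg

open Finset

variable {n : ℕ}

/-- the action of permutations of the vertices on the possible edges -/
def act : Equiv.Perm (Fin n) →* Equiv.Perm (Edge n) :=
  MonoidHom.toHomPerm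
    { toFun := fun σ e => ⟨e.1.map σ, by rw [Sym2.isDiag_map σ.injective]; exact e.2⟩
      map_one' := by
        funext e
        apply Subtype.ext
        simp [Function.End.one_def]
      map_mul' := fun σ π => by
        funext e
        apply Subtype.ext
        simp [Function.End.mul_def, Sym2.map_map] }

lemma act_val (σ : Equiv.Perm (Fin n)) (e : Edge n) : (act σ e).1 = e.1.map σ := rfl

lemma card_edge : Fintype.card (Edge n) = n.choose 2 := by
  simpa using Sym2.card_subtype_not_diag (α := Fin n)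

lemma support_act (σ : Equiv.Perm (Fin n)) :
    σ.support.card * (n - 2) ≤ 2 * (act σ).support.card := by
  classical
  have h1 := card_le_mul_card_image_of_maps_to (f := fun x : Fin n × Fin n => s(x.1, x.2))
    (s := σ.support.biUnion fun v => (univ \ {v, σ v}).image fun x => (v, x))
    (t := (act σ).support.image Subtype.val) (fun x hx => by
      simp only [mem_biUnion, mem_image, mem_sdiff, mem_univ, true_and, mem_insert, mem_singleton,
        not_or, Equiv.Perm.mem_support] at hx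
      obtain ⟨v, hv, y, ⟨h1, h2⟩, rfl⟩ := hx
      refine mem_image.2 ⟨⟨s(v, y), by simpa using Ne.symm h1⟩, Equiv.Perm.mem_support.2 fun h => ?_,
        rfl⟩
      have := congrArg Subtype.val h
      simp only [act_val, Sym2.map_mk, Sym2.eq_iff] at this
      rcases this with h | h
      · exact hv h.1
      · exact h2 h.1.symm) 2 (fun e _ => by
      induction e using Sym2.ind with
      | _ a b =>
        refine le_trans (card_le_card (t := {(a, b), (b, a)}) fun x hx => ?_) card_le_two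
        have := (mem_filter.1 hx).2
        simp only [Sym2.eq_iff] at this
        simp only [mem_insert, mem_singleton, Prod.ext_iff]
        exact this)
  rw [card_image_of_injective _ Subtype.val_injective, card_biUnion] at h1
  · refine le_trans ?_ h1
    rw [← smul_eq_mul, ← sum_const]
    refine sum_le_sum fun v _ => ?_
    rw [card_image_of_injective _ (Prod.mk_right_injective v), card_sdiff_of_subset (subset_univ _),
      card_univ, Fintype.card_fin]
    exact Nat.sub_le_sub_left card_le_two _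
  · intro v _ v' _ hv
    simp only [Function.onFun, disjoint_left, mem_image]
    rintro _ ⟨x, -, rfl⟩ ⟨y, -, h⟩
    exact hv (congrArg Prod.fst h).symm

lemma sum_perm {x : ℝ} (hx : 0 ≤ x) (h : (n : ℝ) ^ 2 * x ≤ 1) :
    ∑ σ ∈ (univ : Finset (Equiv.Perm (Fin n))).erase 1, x ^ σ.support.card ≤
      2 * ((n : ℝ) ^ 2 * x) := by
  classical
  have h1 : ∑ σ : Equiv.Perm (Fin n), x ^ σ.support.card ≤ (1 + n * x) ^ n := by
    have h2 : ∀ σ : Equiv.Perm (Fin n), x ^ σ.support.card =
        ∏ i, if σ i = i then 1 else x := fun σ => by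
      rw [prod_ite, prod_const_one, one_mul, prod_const]; rfl
    calc _ = ∑ f ∈ univ.image (fun σ : Equiv.Perm (Fin n) => (σ : Fin n → Fin n)),
          ∏ i, if f i = i then 1 else x := by
          rw [sum_image fun _ _ _ _ h => DFunLike.coe_injective h]
          exact sum_congr rfl fun σ _ => h2 σ
      _ ≤ ∑ f : Fin n → Fin n, ∏ i, if f i = i then 1 else x :=
          sum_le_sum_of_subset_of_nonneg (subset_univ _) fun f _ _ =>
            prod_nonneg fun i _ => by split_ifs <;> positivity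
      _ = ∏ i : Fin n, ∑ j : Fin n, if j = i then 1 else x := by
          rw [Finset.prod_univ_sum, Fintype.piFinset_univ]
      _ ≤ ∏ _i : Fin n, (1 + n * x) := by
          refine prod_le_prod (fun i _ => sum_nonneg fun j _ => by split_ifs <;> positivity)
            fun i _ => ?_
          refine (sum_le_sum (g := fun j => (if j = i then 1 else 0) + x) fun j _ => ?_).trans ?_
          · split_ifs <;> linarith only [hx]
          · simp [sum_add_distrib]
      _ = _ := by simp
  have h3 : (1 + n * x) ^ n ≤ Real.exp ((n : ℝ) ^ 2 * x) := by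
    rw [show (n : ℝ) ^ 2 * x = n * (n * x) by ring, Real.exp_nat_mul]
    exact pow_le_pow_left₀ (by positivity) (by linarith [Real.add_one_le_exp (n * x)]) _
  have h4 := Real.abs_exp_sub_one_le (x := (n : ℝ) ^ 2 * x) (by rwa [abs_of_nonneg (by positivity)])
  rw [abs_of_nonneg (show 0 ≤ (n : ℝ) ^ 2 * x by positivity)] at h4
  rw [← add_sum_erase _ _ (mem_univ 1)] at h1
  simp only [Equiv.Perm.support_one, card_empty, pow_zero] at h1
  linarith only [h3, h4, h1, le_abs_self (Real.exp ((n : ℝ) ^ 2 * x) - 1)]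

/-- a labelling of the possible edges by blocks and classes -/
structure Lab (n b K : ℕ) (β : Edge n → Option (Fin K)) (κ : Edge n → ZMod 3) : Prop where
  small : ∀ k, (univ.filter fun e => β e = k).card ≤ 3 * b
  large : ∀ e, β e ≠ none → 2 * b ≤ (univ.filter fun f => β f = β e ∧ κ f ≠ κ e).card
  rigid : ∀ σ : Equiv.Perm (Fin n), σ ≠ 1 → 2 * (bad β (act σ)).card ≤ (act σ).support.card

lemma exists_lab {b : ℕ} (hb : 0 < b) (h1 : 72 * b + 2 ≤ n)
    (h2 : 4 * (3 * b) ^ 2 * 4 ^ (72 * b) ≤ n.choose 2)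
    (h3 : (n : ℝ) ^ 2 * (1 / 2) ^ ((n - 2) / 2) < 1 / 2) : ∃ K β κ, Lab n b K β κ := by
  classical
  set N := n.choose 2 with hN
  let β : (Fin (N / (3 * b)) × ZMod 3 × Fin b) ⊕ Fin (N % (3 * b)) → Option (Fin (N / (3 * b))) :=
    Sum.elim (fun x => some x.1) fun _ => none
  let κ : (Fin (N / (3 * b)) × ZMod 3 × Fin b) ⊕ Fin (N % (3 * b)) → ZMod 3 :=
    Sum.elim (fun x => x.2.1) fun _ => 0
  have hne : Nonempty (Edge n ≃ (Fin (N / (3 * b)) × ZMod 3 × Fin b) ⊕ Fin (N % (3 * b))) :=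
    ⟨Fintype.equivOfCardEq (by
      rw [card_edge]
      simp only [Fintype.card_sum, Fintype.card_prod, Fintype.card_fin, ZMod.card]
      exact (Nat.div_add_mod' _ _).symm)⟩
  have hs : ∀ k, (univ.filter fun x => β x = k).card ≤ 3 * b := by
    rintro (_ | k)
    · refine le_trans (card_le_card (t := univ.image Sum.inr) ?_) (card_image_le.trans ?_)
      · rintro (x | x) hx
        · simp [β] at hx
        · simp
      · simpa using (Nat.mod_lt _ (by omega)).le
    · refine le_trans (card_le_card (t := univ.image fun y => Sum.inl (k, y)) ?_)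
        (card_image_le.trans ?_)
      · rintro (x | x) hx
        · simp only [β, mem_filter, mem_univ, true_and, Sum.elim_inl, Option.some.injEq] at hx
          exact mem_image.2 ⟨x.2, mem_univ _, by rw [← hx]⟩
        · simp [β] at hx
      · simp
  have hl : ∀ e, β e ≠ none → 2 * b ≤ (univ.filter fun f => β f = β e ∧ κ f ≠ κ e).card := by
    rintro (x | x) hx
    · refine le_trans (le_of_eq ?_) (card_le_card_of_injOn (s := (univ.erase x.2.1) ×ˢ univ)
        (fun y => Sum.inl (x.1, y)) (fun y hy => ?_) fun y _ y' _ h => ?_)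
      · simp
      · simpa [β, κ] using hy
      · simpa using h
    · simp [β] at hx
  obtain ⟨τ, hτ⟩ := exists_le_av fun τ : Edge n ≃ _ =>
    ∑ σ ∈ (univ : Finset (Equiv.Perm (Fin n))).erase 1,
      ind ((act σ).support.card < 2 * (bad (fun e => β (τ e)) (act σ)).card)
  rw [av_sum] at hτ
  have h4 := sum_perm (n := n) (x := (1 / 2) ^ ((n - 2) / 2)) (by positivity) (by linarith only [h3])
  have h5 : ∀ σ ∈ (univ : Finset (Equiv.Perm (Fin n))).erase 1, av (fun τ : Edge n ≃ _ =>
      ind ((act σ).support.card < 2 * (bad (fun e => β (τ e)) (act σ)).card)) ≤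
      ((1 / 2 : ℝ) ^ ((n - 2) / 2)) ^ σ.support.card := by
    intro σ hσ
    have a1 := support_act σ
    have a2 : 0 < σ.support.card :=
      card_pos.2 (nonempty_iff_ne_empty.2 fun h =>
        (mem_erase.1 hσ).1 (Equiv.Perm.support_eq_empty_iff.1 h))
    set μ := (act σ).support.card with hμ
    have a3 : μ ≤ N := by rw [hN, ← card_edge]; exact card_le_univ _
    have a4 : 36 * b ≤ μ := by
      have := Nat.mul_le_mul_right (n - 2) a2
      omega
    have a5 : 36 * b * (μ / (36 * b)) ≤ μ := Nat.mul_div_le _ _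
    have a6 : μ < 36 * b * (μ / (36 * b) + 1) := Nat.lt_mul_div_succ _ (by omega)
    have a7 : 0 < μ / (36 * b) := Nat.div_pos a4 (by omega)
    set R := μ / (36 * b)
    have a8 := av_bad (E := Edge n) β hs (by omega) (act σ) (R := R)
      (by rw [card_edge]; nlinarith only [hb, a3, a5, a4])
    refine le_trans (av_mono fun τ => ind_mono fun h => by linarith only [a5, h]) (a8.trans ?_)
    have a9 : (4 * ((3 * b : ℕ) : ℝ) ^ 2 / Fintype.card (Edge n)) ≤ (1 / 4) ^ (72 * b) := by
      have : 0 < N := by omega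
      rw [card_edge, one_div_pow, div_le_div_iff₀ (by exact_mod_cast this) (by positivity), one_mul]
      exact_mod_cast h2
    calc _ ≤ (2 : ℝ) ^ μ * ((1 / 4) ^ (72 * b)) ^ R := by gcongr
      _ ≤ (2 : ℝ) ^ μ * (1 / 4) ^ μ := by
          rw [← pow_mul]
          exact mul_le_mul_of_nonneg_left
            (pow_le_pow_of_le_one (by norm_num) (by norm_num) (by nlinarith only [a6, a7])) (by positivity)
      _ = (1 / 2) ^ μ := by rw [← mul_pow]; norm_num
      _ ≤ _ := by
          rw [← pow_mul]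
          refine pow_le_pow_of_le_one (by norm_num) (by norm_num) ?_
          have := Nat.mul_div_le (n - 2) 2
          nlinarith only [a1, this]
  refine ⟨_, fun e => β (τ e), fun e => κ (τ e), card_fiber_equiv β hs τ, fun e he => ?_,
    fun σ hσ => ?_⟩
  · refine (hl _ he).trans (card_le_card_of_injOn τ.symm (fun x hx => ?_) τ.symm.injective.injOn)
    simpa using hx
  · by_contra hn
    have h6 := single_le_sum (f := fun σ : Equiv.Perm (Fin n) =>
      ind ((act σ).support.card < 2 * (bad (fun e => β (τ e)) (act σ)).card))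
      (fun _ _ => ind_nonneg _) (mem_erase.2 ⟨hσ, mem_univ σ⟩)
    rw [ind_pos (not_le.1 hn)] at h6
    linarith only [h3, hτ, h4, h6, h5, sum_le_sum h5]

end Pool.Agent.Work.MP_c7de0c_pr.Neg
end

-- merged part: Pool.Agent.Work.MP_c7de0c_pr.NegRigid
section
/-!
A locally dependent distribution avoids the conflicts of at most one relabelling.
-/

set_option linter.unusedSectionVars false

namespace Pool.Agent.Work.MP_c7de0c_pr.Neg

open Finset

variable {E K L : Type*} [Fintype E] [DecidableEq E] [DecidableEq K] [DecidableEq L]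
  {D : SimpleGraph E} {p : ℝ} {w : Finset E → ℝ}

/-- no two present elements lie in the same block and in different classes -/
def Free (β : E → K) (κ : E → L) (x : E → Prop) : Prop :=
  ∀ e f, x e → x f → β f = β e → κ f = κ e

open Classical in
/-- the elements with a conflict that the dependency graph misses -/
noncomputable def defic (D : SimpleGraph E) (β : E → K) (κ : E → L) : Finset E :=
  univ.filter fun e => ∃ f, β f = β e ∧ κ f ≠ κ e ∧ ¬ D.Adj e f

lemma pr_free (h : Dep D p w) {d s : ℕ} (hD : ∀ v, (D.neighborSet v).ncard ≤ d) (β : E → K)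
    (κ : E → L) (hs : ∀ k, (univ.filter fun e => β e = k).card ≤ s) {p₁ : ℝ} (h0 : 0 ≤ p₁)
    (hp : p₁ ≤ p) : ∃ k : ℕ, (defic D β κ).card ≤ 2 * (d + 1) * s * k ∧
      pr w (fun X => Free β κ (· ∈ X)) ≤ (1 - p₁ ^ 2) ^ k := by
  classical
  have h1 : ∀ e, ∃ f, e ∈ defic D β κ → β f = β e ∧ κ f ≠ κ e ∧ ¬ D.Adj e f := fun e => by
    by_cases he : e ∈ defic D β κ
    · exact (mem_filter.1 he).2.imp fun f hf _ => hf
    · exact ⟨e, fun h => absurd h he⟩
  choose g hg using h1
  obtain ⟨k, hk, hp⟩ := many h (defic D β κ) (I := fun e X => e ∈ X ∧ g e ∈ X)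
    (S := fun e => {e, g e}) (fun e _ X Y hXY hX =>
      ⟨(hXY _ (by simp)).1 hX.1, (hXY _ (by simp)).1 hX.2⟩) (a := 2 * (d + 1) * s)
    (fun e _ => by
      refine ⟨(({e, g e} : Finset E).biUnion fun x => insert x (D.neighborFinset x)).biUnion
        fun y => univ.filter fun f => β f = β y, card_biUnion_le.trans ?_, ?_, fun f hf hn => ?_⟩
      · refine (sum_le_sum (g := fun _ => s) fun x _ => hs _).trans ?_
        rw [sum_const, smul_eq_mul]
        refine Nat.mul_le_mul_right _ (card_biUnion_le.trans ?_)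
        refine (sum_le_sum (g := fun _ => d + 1) fun x _ => (card_insert_le _ _).trans ?_).trans ?_
        · have := hD x
          rw [Set.ncard_eq_toFinset_card'] at this
          exact Nat.add_le_add_right this 1
        · rw [sum_const, smul_eq_mul]
          exact Nat.mul_le_mul_right _ card_le_two
      · exact mem_biUnion.2 ⟨e, mem_biUnion.2 ⟨e, by simp, by simp⟩, by simp⟩
      · have h2 : ∃ x ∈ ({e, g e} : Finset E), ∃ y ∈ ({f, g f} : Finset E), y = x ∨ D.Adj x y := by
          by_contra hc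
          push Not at hc
          exact hn ⟨disjoint_left.2 fun x hx hx' => (hc x hx x hx').1 rfl,
            fun x hx y hy => (hc x hx y hy).2⟩
        obtain ⟨x, hx, y, hy, hxy⟩ := h2
        refine mem_biUnion.2 ⟨y, mem_biUnion.2 ⟨x, hx, by simpa using hxy⟩, ?_⟩
        simp only [mem_insert, mem_singleton] at hy
        rcases hy with rfl | rfl
        · simp
        · simpa using (hg f hf).1.symm)
    (ε := p₁ ^ 2) (fun e he => by
      obtain ⟨a1, a2, a3⟩ := hg e he
      rw [pr_and h (A := fun X => e ∈ X) (B := fun X => g e ∈ X) (S := {e}) (T := {g e})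
        (fun X Y hXY hX => (hXY _ (by simp)).1 hX) (fun X Y hXY hX => (hXY _ (by simp)).1 hX)
        ⟨disjoint_singleton.2 fun h => a2 (by rw [← h]), by simpa using a3⟩, pr_mem h, pr_mem h]
      linarith only [h0, hp, mul_nonneg_of_nonpos_of_nonpos (Mathlib.Tactic.Linarith.sub_nonpos_of_le h0) (Mathlib.Tactic.Linarith.sub_nonpos_of_le hp), mul_nonneg_of_nonpos_of_nonpos (Mathlib.Tactic.Linarith.sub_nonpos_of_le hp) (Mathlib.Tactic.Linarith.sub_nonpos_of_le hp)])
  exact ⟨k, hk, (pr_mono h fun X hX e he hI =>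
    (hg e he).2.1 (hX e (g e) hI.1 hI.2 (hg e he).1)).trans hp⟩

lemma support_le {β : E → Option K} {κ : E → L} {b d s : ℕ}
    (hD : ∀ v, (D.neighborSet v).ncard ≤ d) (hd : d + 4 ≤ 4 * b)
    (hs : (univ.filter fun e => β e = none).card ≤ s)
    (hl : ∀ e, β e ≠ none → 2 * b ≤ (univ.filter fun f => β f = β e ∧ κ f ≠ κ e).card)
    (φ χ : Equiv.Perm E) :
    (φ * χ⁻¹).support.card ≤ (bad β (φ * χ⁻¹)).card +
      (defic D (fun e => β (φ e)) fun e => κ (φ e)).card +
      (defic D (fun e => β (χ e)) fun e => κ (χ e)).card + 2 * s := by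
  classical
  have h1 : (φ * χ⁻¹).support ⊆ bad β (φ * χ⁻¹) ∪
      (defic D (fun e => β (φ e)) fun e => κ (φ e)).image χ ∪
      (defic D (fun e => β (χ e)) fun e => κ (χ e)).image χ ∪
      (univ.filter fun e => β e = none) ∪
      (univ.filter fun e => β e = none).image (φ * χ⁻¹).symm := by
    intro e' he
    obtain ⟨e, rfl⟩ := χ.surjective e'
    by_contra hn
    simp only [mem_union, not_or] at hn
    obtain ⟨⟨⟨⟨n1, n2⟩, n3⟩, n4⟩, n5⟩ := hn
    have m2 : ∀ f, β (φ f) = β (φ e) → κ (φ f) ≠ κ (φ e) → D.Adj e f := fun f a1 a2 => by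
      by_contra a3
      exact n2 (mem_image_of_mem _ (mem_filter.2 ⟨mem_univ _, f, a1, a2, a3⟩))
    have m3 : ∀ f, β (χ f) = β (χ e) → κ (χ f) ≠ κ (χ e) → D.Adj e f := fun f a1 a2 => by
      by_contra a3
      exact n3 (mem_image_of_mem _ (mem_filter.2 ⟨mem_univ _, f, a1, a2, a3⟩))
    have m4 := hl (χ e) fun h => n4 (mem_filter.2 ⟨mem_univ _, h⟩)
    have m5 := hl (φ e) fun h => n5 (mem_image.2 ⟨φ e, mem_filter.2 ⟨mem_univ _, h⟩, by
      rw [Equiv.symm_apply_eq]; simp⟩)
    have c1 : ∀ ψ : Equiv.Perm E, (univ.filter fun f => β f = β (ψ e) ∧ κ f ≠ κ (ψ e)).card ≤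
        (univ.filter fun f => β (ψ f) = β (ψ e) ∧ κ (ψ f) ≠ κ (ψ e)).card := fun ψ =>
      card_le_card_of_injOn ψ.symm (fun x hx => by simpa using hx) ψ.symm.injective.injOn
    have c2 := card_union_add_card_inter
      (univ.filter fun f => β (φ f) = β (φ e) ∧ κ (φ f) ≠ κ (φ e))
      (univ.filter fun f => β (χ f) = β (χ e) ∧ κ (χ f) ≠ κ (χ e))
    have c3 : ((univ.filter fun f => β (φ f) = β (φ e) ∧ κ (φ f) ≠ κ (φ e)) ∪
        (univ.filter fun f => β (χ f) = β (χ e) ∧ κ (χ f) ≠ κ (χ e))).card ≤ d := by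
      have := hD e
      rw [Set.ncard_eq_toFinset_card'] at this
      refine le_trans (card_le_card fun f hf => ?_) this
      simp only [mem_union, mem_filter, mem_univ, true_and] at hf
      simpa using hf.elim (fun h => m2 f h.1 h.2) fun h => m3 f h.1 h.2
    refine n1 (mem_filter.2 ⟨mem_univ _, Equiv.Perm.mem_support.1 he, le_trans ?_
      (card_le_card_of_injOn (s := (univ.filter fun f => β (φ f) = β (φ e) ∧ κ (φ f) ≠ κ (φ e)) ∩
        (univ.filter fun f => β (χ f) = β (χ e) ∧ κ (χ f) ≠ κ (χ e))) χ (fun f hf => ?_)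
        χ.injective.injOn)⟩)
    · have := c1 φ
      have := c1 χ
      omega
    · simp only [coe_inter, coe_filter, mem_univ, true_and, Set.mem_inter_iff,
        Set.mem_setOf_eq] at hf
      simpa using ⟨hf.2.1, hf.1.1⟩
  refine (card_le_card h1).trans ?_
  refine (card_union_le _ _).trans ?_
  rw [two_mul, ← add_assoc]
  refine add_le_add ((card_union_le _ _).trans (add_le_add ((card_union_le _ _).trans
    (add_le_add ((card_union_le _ _).trans (add_le_add le_rfl card_image_le)) card_image_le)) hs))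
    (card_image_le.trans hs)

theorem rigid {n b K d : ℕ} {β : Edge n → Option (Fin K)} {κ : Edge n → ZMod 3}
    (hL : Lab n b K β κ) {D : SimpleGraph (Edge n)} {p : ℝ} {w : Finset (Edge n) → ℝ}
    (h : Dep D p w) (hD : ∀ v, (D.neighborSet v).ncard ≤ d) (hd : d + 4 ≤ 4 * b) {p₁ : ℝ}
    (h0 : 0 ≤ p₁) (h1 : p₁ ≤ 1) (hp : p₁ ≤ p) (hn : 48 * b + 2 ≤ n)
    (hx : (n : ℝ) ^ 2 * (1 - p₁ ^ 2) ^ ((n - 2) / (96 * (d + 1) * b)) ≤ 1) :
    ∃ π : Equiv.Perm (Fin n), pr w (fun X => ∃ σ ∈ univ.erase π,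
        Free (fun e => β (act σ e)) (fun e => κ (act σ e)) (· ∈ X)) ≤
      2 * ((n : ℝ) ^ 2 * (1 - p₁ ^ 2) ^ ((n - 2) / (96 * (d + 1) * b))) := by
  classical
  obtain ⟨π, -, hπ⟩ := exists_min_image univ (fun σ : Equiv.Perm (Fin n) =>
    (defic D (fun e => β (act σ e)) fun e => κ (act σ e)).card) univ_nonempty
  have y0 : 0 ≤ 1 - p₁ ^ 2 := by linarith only [h1, h0, mul_nonneg_of_nonpos_of_nonpos (Mathlib.Tactic.Linarith.sub_nonpos_of_le h0) (Mathlib.Tactic.Linarith.sub_nonpos_of_le h1)]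
  have y1 : 1 - p₁ ^ 2 ≤ 1 := by linarith only [sq_nonneg p₁]
  refine ⟨π, (pr_exists_le h _ _).trans (le_trans ?_ (sum_perm (pow_nonneg y0 _) hx))⟩
  refine le_trans (sum_le_sum (g := fun σ =>
    ((1 - p₁ ^ 2) ^ ((n - 2) / (96 * (d + 1) * b))) ^ (σ * π⁻¹).support.card) fun σ hσ => ?_)
    (le_of_eq (sum_equiv (Equiv.mulRight π⁻¹) (fun σ => by simp [mul_inv_eq_one]) fun _ _ => rfl))
  have a0 : σ * π⁻¹ ≠ 1 := fun h => (mem_erase.1 hσ).1 (mul_inv_eq_one.1 h)
  obtain ⟨k, hk, hp⟩ := pr_free h hD (fun e => β (act σ e)) (fun e => κ (act σ e))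
    (card_fiber_equiv β hL.small (act σ)) h0 hp
  have a1 := support_le hD hd (hL.small none) hL.large (act σ) (act π)
  rw [← map_inv, ← map_mul] at a1
  have a2 := hL.rigid _ a0
  have a3 := support_act (σ * π⁻¹)
  have a4 := hπ σ (mem_univ _)
  have a5 : 0 < (σ * π⁻¹).support.card :=
    card_pos.2 (nonempty_iff_ne_empty.2 fun h => a0 (Equiv.Perm.support_eq_empty_iff.1 h))
  have a6 := Nat.mul_le_mul_right (n - 2) a5
  have a7 : (σ * π⁻¹).support.card * (n - 2) ≤ 16 * (2 * (d + 1) * (3 * b) * k) := by omega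
  refine hp.trans ?_
  rw [← pow_mul]
  refine pow_le_pow_of_le_one y0 y1 ?_
  have a8 := Nat.mul_div_le (n - 2) (96 * (d + 1) * b)
  refine Nat.le_of_mul_le_mul_left (c := 96 * (d + 1) * b) ?_ (by
    have : 0 < b := by omega
    positivity)
  calc _ = (σ * π⁻¹).support.card * (96 * (d + 1) * b * ((n - 2) / (96 * (d + 1) * b))) := by ring
    _ ≤ (σ * π⁻¹).support.card * (n - 2) := Nat.mul_le_mul_left _ a8
    _ ≤ _ := a7.trans (le_of_eq (by ring))

end Pool.Agent.Work.MP_c7de0c_pr.Neg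
end

-- merged part: Pool.Agent.Work.MP_c7de0c_pr.NegHonest
section
/-!
The distribution generated by uniform hidden coordinates.
-/

set_option linter.unusedSectionVars false

namespace Pool.Agent.Work.MP_c7de0c_pr.Neg

open Finset Polynomial

lemma av_shift {Ω G : Type*} [Fintype Ω] [AddCommGroup Ω] [Fintype G] [AddCommGroup G]
    (h : Ω → G) (hh : ∀ a, ∃ δ, ∀ ω, h (ω + δ) = h ω + a) :
    av (fun ω => ind (h ω = 0)) = 1 / Fintype.card G := by
  classical
  have h1 : ∀ a ∈ (univ : Finset G), av (fun ω => ind (h ω = 0)) =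
      av (fun ω => ind (h ω + a = 0)) := fun a _ => by
    obtain ⟨δ, hδ⟩ := hh a
    rw [← av_equiv (Equiv.addRight δ)]
    simp [hδ]
  have h2 : (0 : ℝ) < Fintype.card G := by exact_mod_cast Fintype.card_pos
  rw [eq_div_iff h2.ne', mul_comm, ← nsmul_eq_mul, ← card_univ, ← sum_const, sum_congr rfl h1,
    ← av_sum, ← av_const (Ω := Ω) 1]
  congr 1
  ext ω
  simp [ind, add_eq_zero_iff_neg_eq]

section hidden

variable {C A : Type*} [Fintype C] [DecidableEq C] [Fintype A] [Nonempty A]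
  {E : Type*} [Fintype E] [DecidableEq E]

lemma av_indep (S : Finset C) (f g : (C → A) → ℝ)
    (hf : ∀ ω ω', (∀ c ∈ S, ω c = ω' c) → f ω = f ω')
    (hg : ∀ ω ω', (∀ c ∉ S, ω c = ω' c) → g ω = g ω') :
    av (fun ω => f ω * g ω) = av f * av g := by
  classical
  let e := (Equiv.piEquivPiSubtypeProd (· ∈ S) fun _ => A).symm
  have h1 : ∀ a b, f (e (a, b)) = f (e (a, Classical.arbitrary _)) := fun a b =>
    hf _ _ fun c hc => by simp [e, Equiv.piEquivPiSubtypeProd_symm_apply, hc]
  have h2 : ∀ a b, g (e (a, b)) = g (e (Classical.arbitrary _, b)) := fun a b =>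
    hg _ _ fun c hc => by simp [e, Equiv.piEquivPiSubtypeProd_symm_apply, hc]
  rw [← av_equiv e, ← av_equiv e f, ← av_equiv e g, av_prod, av_prod, av_prod]
  have h3 : (fun a => av fun b => f (e (a, b)) * g (e (a, b))) = fun a =>
      f (e (a, Classical.arbitrary _)) * av fun b => g (e (Classical.arbitrary _, b)) := by
    ext a
    rw [← av_mul_left]
    congr 1
    ext b
    rw [h1, h2]
  have h4 : (fun a => av fun b => f (e (a, b))) = fun a => f (e (a, Classical.arbitrary _)) := by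
    ext a
    rw [funext (h1 a), av_const]
  have h5 : (fun a => av fun b => g (e (a, b))) = fun _ =>
      av fun b => g (e (Classical.arbitrary _, b)) := by
    ext a
    rw [funext (h2 a)]
  rw [h3, h4, h5, av_mul_right, av_const]

lemma ex_law {Ω : Type*} [Fintype Ω] (X : Ω → Finset E) (f : Finset E → ℝ) :
    ex (fun Y => av fun ω => ind (X ω = Y)) f = av fun ω => f (X ω) := by
  unfold ex
  simp only [← av_mul_right]
  rw [← av_sum]
  congr 1
  ext ω
  simp [ind]

lemma exists_hidden (supp : E → Finset C) (X : (C → A) → Finset E)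
    (hdet : ∀ e ω ω', (∀ c ∈ supp e, ω c = ω' c) → e ∈ X ω → e ∈ X ω') {p : ℝ}
    (hp : ∀ e, av (fun ω => ind (e ∈ X ω)) = p) :
    ∃ (D : SimpleGraph E) (w : Finset E → ℝ), Dep D p w ∧
      (∀ e f, D.Adj e f → ¬ Disjoint (supp e) (supp f)) ∧
      ∀ Q : Finset E → Prop, pr w Q = av fun ω => ind (Q (X ω)) := by
  classical
  refine ⟨⟨fun e f => e ≠ f ∧ ¬ Disjoint (supp e) (supp f),
    ⟨fun e f h => ⟨h.1.symm, fun h' => h.2 h'.symm⟩⟩, ⟨fun e h => h.1 rfl⟩⟩,
    fun Y => av fun ω => ind (X ω = Y), ⟨fun Y => av_nonneg fun _ => ind_nonneg _, ?_,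
      fun e => ?_, fun S T hST hadj f g => ?_⟩, fun e f h => h.2, fun Q => ?_⟩
  · have := ex_law X fun _ => 1
    rw [av_const] at this
    simpa [ex] using this
  · rw [ex_law, ← hp e]
    congr 1
    ext ω
    by_cases h : e ∈ X ω <;> simp [ind, h]
  · rw [ex_law, ex_law, ex_law]
    have h1 : ∀ (R : Finset E) ω ω', (∀ e ∈ R, ∀ c ∈ supp e, ω c = ω' c) → X ω ∩ R = X ω' ∩ R := by
      intro R ω ω' h
      ext e
      simp only [mem_inter]
      exact and_congr_left fun he =>
        ⟨hdet e _ _ (h e he), hdet e _ _ fun c hc => (h e he c hc).symm⟩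
    refine av_indep (S.biUnion supp) _ _ (fun ω ω' h => ?_) fun ω ω' h => ?_
    · rw [h1 S ω ω' fun e he c hc => h c (mem_biUnion.2 ⟨e, he, hc⟩)]
    · rw [h1 T ω ω' fun e he c hc => h c fun hc' => ?_]
      obtain ⟨e', he', hc'⟩ := mem_biUnion.1 hc'
      exact hadj e' he' e he ⟨fun h => disjoint_left.1 hST he' (h ▸ he),
        fun h => disjoint_left.1 h hc' hc⟩
  · rw [pr_eq_ex_ind, ex_law]

end hidden

variable {E : Type*} [Fintype E] [DecidableEq E] {F : Type*} [Field F] [Fintype F] [DecidableEq F]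
  {V : Type*} [AddCommGroup V] [Module F V] [Fintype V] [DecidableEq V] {t : ℕ}
  {ρ γ : Type*} [Fintype ρ] [DecidableEq ρ] [Fintype γ] [DecidableEq γ]

lemma poly_shift [Nonempty (Fin t)] {ξ : Fin t → F} (hξ : Function.Injective ξ)
    (z : Fin t × V → F) (e : V × V) (c x : F) :
    (poly ξ (fun g => z g + c) e).eval x = (poly ξ z e).eval x + c := by
  unfold poly
  rw [show (fun j => z (grp ξ e j) + c) = (fun j => z (grp ξ e j)) + c • (1 : Fin t → F) by
    ext j; simp, map_add, map_smul, Lagrange.interpolate_one hξ.injOn univ_nonempty]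
  simp

lemma av_not_good [Nonempty γ] {G C B : Type*} [Fintype C] [DecidableEq C] [Fintype B]
    [AddCommGroup B] (j : G → C) (hj : Function.Injective j) (W : List (ρ × γ → G)) :
    av (fun ω : C → B × F => ind (¬ Good W fun g => (ω (j g)).2)) ≤
      W.length / (Fintype.card F : ℝ) ^ Fintype.card ρ := by
  classical
  induction W with
  | nil => simp [Good, ind, av_const]
  | cons T W ih =>
    refine le_trans (av_mono (g := fun ω => ind (Function.Injective T ∧
      (fun i => ∑ c, (ω (j (T (i, c)))).2) = 0) + ind (¬ Good W fun g => (ω (j g)).2))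
      fun ω => le_trans (ind_mono fun h => ?_) (ind_or_le _ _)) ?_
    · by_contra hn
      rw [not_or, not_not] at hn
      refine h fun T' hT' hi => ?_
      rcases List.mem_cons.1 hT' with rfl | hT'
      · by_contra hc
        push Not at hc
        exact hn.1 ⟨hi, funext hc⟩
      · exact hn.2 T' hT' hi
    · rw [av_add, List.length_cons, Nat.cast_succ, add_div, add_comm]
      refine add_le_add ih ?_
      by_cases hT : Function.Injective T
      · have := av_shift (fun (ω : C → B × F) i => ∑ c, (ω (j (T (i, c)))).2) fun a =>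
          ⟨fun x => (0, ∑ i, if x = j (T (i, Classical.arbitrary γ)) then a i else 0), fun ω => by
            ext i
            simp [sum_add_distrib, hj.eq_iff, hT.eq_iff, ite_and]⟩
        rw [Fintype.card_fun, Nat.cast_pow] at this
        exact le_trans (av_mono fun ω => ind_mono fun h => h.2) this.le
      · refine le_trans (av_mono (g := fun _ => 0) fun ω => (ind_neg fun h => hT h.1).le) ?_
        rw [av_const]
        positivity

theorem honest [Nonempty (Fin t)] [Nonempty γ] {ξ : Fin t → F} (hξ : Function.Injective ξ)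
    {ι : (V × V) × F × F → E} (hι : Function.Injective ι) {K : Type*} [Fintype K] [DecidableEq K]
    (β : E → K) (κ : E → ZMod 3) {s : ℕ} (hs : ∀ k, (univ.filter fun e => β e = k).card ≤ s)
    (W : List (ρ × γ → Fin t × V)) :
    ∃ (D : SimpleGraph E) (w : Finset E → ℝ),
      (∀ v, (D.neighborSet v).ncard ≤ s + t * Fintype.card V * Fintype.card F ^ 2) ∧
      Dep D (1 / (3 * Fintype.card F)) w ∧
      pr w (fun X => ¬ (Free β κ (· ∈ X) ∧ ∃ z, Good W z ∧ ConsOn ξ ι univ z X)) ≤
        W.length / (Fintype.card F : ℝ) ^ Fintype.card ρ := by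
  classical
  let g : E → (K ⊕ (Fin t × V) ⊕ E → ZMod 3 × F) → F := fun e ω =>
    if e ∈ Set.range ι then (poly ξ (fun x => (ω (.inr (.inl x))).2) (Function.invFun ι e).1).eval
      (Function.invFun ι e).2.1 - (Function.invFun ι e).2.2 else (ω (.inr (.inr e))).2
  let supp : E → Finset (K ⊕ (Fin t × V) ⊕ E) := fun e =>
    insert (.inl (β e)) (if e ∈ Set.range ι then
      univ.image fun j => .inr (.inl (grp ξ (Function.invFun ι e).1 j)) else {.inr (.inr e)})
  obtain ⟨D, w, h, hD, hQ⟩ := exists_hidden supp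
    (fun ω => univ.filter fun e => ((ω (.inl (β e))).1 - κ e, g e ω) = 0) (fun e ω ω' hω he => by
      simp only [mem_filter, mem_univ, true_and] at he ⊢
      rw [← he, hω _ (mem_insert_self _ _)]
      congr 1
      by_cases hr : e ∈ Set.range ι
      · simp only [g, if_pos hr, poly]
        congr 4
        ext j
        rw [hω _ (mem_insert_of_mem (by
          rw [if_pos hr]; exact mem_image.2 ⟨j, mem_univ _, rfl⟩))]
      · simp only [g, if_neg hr]
        rw [hω _ (mem_insert_of_mem (by rw [if_neg hr]; exact mem_singleton_self _))])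
    (p := 1 / (3 * Fintype.card F)) (fun e => by
      have := av_shift (fun ω : K ⊕ (Fin t × V) ⊕ E → ZMod 3 × F =>
        ((ω (.inl (β e))).1 - κ e, g e ω)) fun a => ⟨fun _ => a, fun ω => by
          ext
          · simp only [Pi.add_apply, Prod.fst_add]; ring
          · by_cases hr : e ∈ Set.range ι
            · simp only [g, if_pos hr, Pi.add_apply, Prod.snd_add, poly_shift hξ]; ring
            · simp only [g, if_neg hr, Pi.add_apply, Prod.snd_add]⟩
      simpa using this)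
  refine ⟨D, w, fun v => ?_, h, ?_⟩
  · rw [Set.ncard_eq_toFinset_card']
    refine le_trans (card_le_card (t := (univ.filter fun e => β e = β v) ∪
      univ.image fun x : Fin t × V × F × F =>
        ι (pick ξ (grp ξ (Function.invFun ι v).1 x.1) x.2.1, x.2.2)) fun f hf => ?_)
      ((card_union_le _ _).trans (add_le_add (hs _) (card_image_le.trans (le_of_eq ?_))))
    · obtain ⟨c, h1, h2⟩ := not_disjoint_iff.1 (hD v f (by simpa using hf))
      have hne : v ≠ f := D.ne_of_adj (by simpa using hf)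
      simp only [supp, mem_insert] at h1 h2
      rcases h1 with rfl | h1
      · rcases h2 with h2 | h2
        · exact mem_union_left _ (by simpa using h2.symm)
        · split_ifs at h2 <;> simp at h2
      · rcases h2 with rfl | h2
        · split_ifs at h1 <;> simp at h1
        · split_ifs at h1 h2 with a1 a2 a2
          · obtain ⟨j, -, rfl⟩ := mem_image.1 h1
            obtain ⟨j', -, h2⟩ := mem_image.1 h2
            obtain ⟨i, rfl⟩ := a2
            rw [Function.leftInverse_invFun hι] at h2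
            simp only [Sum.inr.injEq, Sum.inl.injEq] at h2
            refine mem_union_right _ (mem_image.2 ⟨(j, i.1.2, i.2), mem_univ _, ?_⟩)
            rw [← h2]
            simp [grp, pick]
          · obtain ⟨j, -, rfl⟩ := mem_image.1 h1
            simp at h2
          · obtain ⟨j, -, rfl⟩ := mem_image.1 h2
            simp at h1
          · rw [mem_singleton.1 h1] at h2
            simp [hne] at h2
    · simp [pow_two, mul_assoc]
  · rw [hQ]
    refine le_trans (av_mono fun ω => ind_mono ?_)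
      (av_not_good (F := F) (C := K ⊕ (Fin t × V) ⊕ E) (B := ZMod 3) (fun x => .inr (.inl x))
        (Sum.inr_injective.comp Sum.inl_injective) W)
    refine fun hn hg => hn ⟨fun e f he hf hef => ?_, _, hg, fun e _ xa he => ?_⟩
    · simp only [mem_filter, mem_univ, true_and, Prod.mk_eq_zero, sub_eq_zero] at he hf
      rw [← he.1, ← hf.1, hef]
    · simp only [mem_filter, mem_univ, true_and, Prod.mk_eq_zero, g, Set.mem_range_self, if_true,
        Function.leftInverse_invFun hι _, sub_eq_zero] at he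
      exact he.2

end Pool.Agent.Work.MP_c7de0c_pr.Neg
end

-- merged part: Pool.Agent.Work.MP_c7de0c_pr.NegMain
section
/-!
A monotone property without lower and upper thresholds.
-/

namespace Pool.Agent.Work.MP_c7de0c_pr.Neg

open Finset MeasureTheory Filter Asymptotics Topology

lemma tendsto_sq_mul_pow {c : ℝ} (h0 : 0 ≤ c) (h1 : c < 1) {A : ℕ} (hA : 0 < A) :
    Tendsto (fun n : ℕ => (n : ℝ) ^ 2 * c ^ ((n - 2) / A)) atTop (𝓝 0) := by
  have hk : Tendsto (fun n : ℕ => (n - 2) / A) atTop atTop :=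
    (Nat.tendsto_div_const_atTop hA.ne').comp (tendsto_sub_atTop_nat 2)
  have h2 := (tendsto_pow_const_mul_const_pow_of_abs_lt_one 2
    (show |c| < 1 by rwa [abs_of_nonneg h0])).comp hk
  have h3 := h2.const_mul ((2 * A + 2 : ℝ) ^ 2)
  rw [mul_zero] at h3
  refine squeeze_zero' (Eventually.of_forall fun n => by positivity) ?_ h3
  filter_upwards [hk.eventually_ge_atTop 1] with n hn
  have h4 : n - 2 < A * ((n - 2) / A + 1) := Nat.lt_mul_div_succ _ hA
  have h5 : n ≤ (2 * A + 2) * ((n - 2) / A) := by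
    set k := (n - 2) / A
    have : n ≤ A * (k + 1) + 2 := by omega
    nlinarith only [hn, this]
  have h6 : (n : ℝ) ≤ (2 * A + 2) * ((n - 2) / A : ℕ) := by exact_mod_cast h5
  simp only [Function.comp]
  rw [← mul_assoc, ← mul_pow]
  gcongr

lemma eventually_le_choose (c : ℕ) : ∀ᶠ n : ℕ in atTop, c ≤ n.choose 2 := by
  filter_upwards [eventually_ge_atTop c, eventually_ge_atTop 3] with n h1 h2
  refine h1.trans ?_
  rw [Nat.choose_two_right, Nat.le_div_iff_mul_le (by norm_num)]
  exact Nat.mul_le_mul_left _ (by omega)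

lemma eventually_le_div_log (c : ℕ) : ∀ᶠ n : ℕ in atTop, (c : ℝ) ≤ n / Real.log n := by
  have h1 := (Real.isLittleO_log_id_atTop.comp_tendsto tendsto_natCast_atTop_atTop).def
    (c := 1 / (c + 1)) (by positivity)
  filter_upwards [h1, eventually_ge_atTop 2] with n h1 h2
  have h3 : 0 < Real.log n := Real.log_pos (by exact_mod_cast h2)
  simp only [Function.comp, id, Real.norm_eq_abs, abs_of_pos h3, Nat.abs_cast] at h1
  rw [le_div_iff₀ h3]
  rw [one_div, ← div_eq_inv_mul, le_div_iff₀ (by positivity)] at h1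
  linarith only [h3, h1]

lemma exists_diag (R : ℕ → ℕ → Prop) (h : ∀ j, ∀ᶠ n in atTop, R j n) :
    ∃ j : ℕ → ℕ, Tendsto j atTop atTop ∧ ∀ᶠ n in atTop, R (j n) n := by
  classical
  choose N hN using fun j => eventually_atTop.1 (h j)
  refine ⟨fun n => Nat.findGreatest (fun i => N i ≤ n) n, tendsto_atTop.2 fun i => ?_, ?_⟩
  · filter_upwards [eventually_ge_atTop i, eventually_ge_atTop (N i)] with n h1 h2
    exact Nat.le_findGreatest h1 h2
  · filter_upwards [eventually_ge_atTop (N 0)] with n h1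
    exact hN _ _ (Nat.findGreatest_spec (P := fun i => N i ≤ n) (Nat.zero_le n) h1)

/-- the properties of the class of graphs on `n` vertices built with parameter `l` -/
structure Stage (l n : ℕ) (P : Set (SimpleGraph (Fin n))) : Prop where
  upper : IsUpperSet P
  iso : ∀ G H : SimpleGraph (Fin n), Nonempty (G ≃g H) → G ∈ P → H ∈ P
  low : ∀ p μ, 1 / (3 * (l : ℝ) ^ 14) ≤ p → IsDepDist n p (7 * l ^ 559) μ → 1 / 200 ≤ μ.real P
  high : ∃ μ, IsDepDist n (1 / (3 * (l : ℝ) ^ 13)) (7 * l ^ 559) μ ∧ μ.real P ≤ 1 / 10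

theorem stage {l : ℕ} (hl : 1000 ≤ l) (F : Type) [Field F] [Fintype F] [DecidableEq F]
    (hF : Fintype.card F = l ^ 13) : ∀ᶠ n in atTop, ∃ P, Stage l n P := by
  classical
  obtain ⟨ξ, W, hξ, hW, hcore⟩ := core hl F hF
  have l0 : 0 < l := by omega
  have hx : (1000 : ℝ) ≤ l := by exact_mod_cast hl
  obtain ⟨b, hb⟩ : ∃ b, b = 2 * l ^ 559 := ⟨_, rfl⟩
  obtain ⟨d, hd⟩ : ∃ d, d = 7 * l ^ 559 := ⟨_, rfl⟩
  obtain ⟨p₁, hp₁⟩ : ∃ p₁ : ℝ, p₁ = 1 / (3 * (l : ℝ) ^ 14) := ⟨_, rfl⟩
  have e1 : l ^ 1 ≤ l ^ 559 := Nat.pow_le_pow_right l0 (by norm_num)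
  rw [pow_one] at e1
  have b0 : 0 < b := by omega
  have p0 : 0 < p₁ := by rw [hp₁]; positivity
  have p1 : p₁ ≤ 1 := by
    rw [hp₁, div_le_one (by positivity)]
    linarith only [hx, one_le_pow₀ (show (1 : ℝ) ≤ l by linarith) (n := 14)]
  have t1 := tendsto_sq_mul_pow (c := 1 / 2) (by norm_num) (by norm_num) (A := 2) (by norm_num)
  have t2 := tendsto_sq_mul_pow (c := 1 - p₁ ^ 2) (by linarith only [p1, p0, mul_nonneg_of_nonpos_of_nonpos (le_of_lt (Mathlib.Tactic.Linarith.sub_neg_of_lt p0)) (Mathlib.Tactic.Linarith.sub_nonpos_of_le p1)]) (by linarith only [p0, mul_pos_of_neg_of_neg (Mathlib.Tactic.Linarith.sub_neg_of_lt p0) (Mathlib.Tactic.Linarith.sub_neg_of_lt p0)])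
    (A := 96 * (d + 1) * b) (by positivity)
  filter_upwards [eventually_ge_atTop (72 * b + 2),
    eventually_le_choose (4 * (3 * b) ^ 2 * 4 ^ (72 * b)),
    t1.eventually (gt_mem_nhds (show (0 : ℝ) < 1 / 2 by norm_num)),
    t2.eventually (gt_mem_nhds (show (0 : ℝ) < 1 / 400 by norm_num)),
    eventually_le_choose (Fintype.card (((Fin 40 → F) × (Fin 40 → F)) × F × F))]
    with n c1 c2 c3 c4 c5
  obtain ⟨K, β, κ, hL⟩ := exists_lab b0 c1 c2 c3
  obtain ⟨ι⟩ := Function.Embedding.nonempty_of_card_le (β := Edge n) (c5.trans card_edge.ge)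
  let Fam : Equiv.Perm (Fin n) → SimpleGraph (Fin n) → Prop := fun σ G =>
    Free (fun e => β (act σ e)) (fun e => κ (act σ e)) (fun e => e.1 ∈ G.edgeSet) ∧
      ∃ z, Good W z ∧ ∀ i, ((act σ)⁻¹ (ι i)).1 ∈ G.edgeSet → Ok ξ z i
  have hFam : ∀ σ X, Fam σ (ofFin X) ↔
      Free (fun e => β (act σ e)) (fun e => κ (act σ e)) (· ∈ X) ∧
        ∃ z, Good W z ∧ ConsOn ξ (fun i => (act σ)⁻¹ (ι i)) univ z X := by
    intro σ X
    simp only [Fam, mem_ofFin, ConsOn, mem_univ, true_imp_iff, Prod.forall]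
  refine ⟨{G | ∀ σ, ¬ Fam σ G}, fun G H hGH hG σ hH => hG σ ?_, fun G H ⟨φ⟩ hG σ hH => ?_,
    fun p μ hp hμ => ?_, ?_⟩
  · obtain ⟨h1, z, hz, h2⟩ := hH
    exact ⟨fun e f he hf => h1 e f (SimpleGraph.edgeSet_mono hGH he)
      (SimpleGraph.edgeSet_mono hGH hf), z, hz, fun i hi => h2 i (SimpleGraph.edgeSet_mono hGH hi)⟩
  · obtain ⟨h1, z, hz, h2⟩ := hH
    have h3 : ∀ e : Edge n, e.1 ∈ G.edgeSet → (act φ.toEquiv e).1 ∈ H.edgeSet := fun e he =>
      φ.map_mem_edgeSet_iff.2 he
    refine hG (σ * φ.toEquiv) ⟨fun e f he hf => ?_, z, hz, fun i hi => h2 i ?_⟩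
    · simp only [map_mul, Equiv.Perm.mul_apply]
      exact h1 _ _ (h3 e he) (h3 f hf)
    · simpa using h3 _ hi
  · obtain ⟨D, w, hD, h, hw⟩ := hμ.exists_dep
    obtain ⟨π, hπ⟩ := rigid hL h (hd ▸ hD) (by omega) p0.le p1 (hp₁ ▸ hp) (by omega) (by linarith only [c4])
    have h1 := hcore _ D p w (fun i => (act π)⁻¹ (ι i))
      h ((act π)⁻¹.injective.comp ι.injective) hD hp
    have h2 := pr_le_add h (A := fun X => ¬ ofFin X ∈ {G | ∀ σ, ¬ Fam σ G})
      (B := fun X => ∃ z, Good W z ∧ ConsOn ξ (fun i => (act π)⁻¹ (ι i)) univ z X)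
      (C := fun X => ∃ σ ∈ univ.erase π,
        Free (fun e => β (act σ e)) (fun e => κ (act σ e)) (· ∈ X)) fun X hX => by
        simp only [Set.mem_ofPred_eq, not_forall, not_not, hFam] at hX
        obtain ⟨σ, h1, h2⟩ := hX
        by_cases hσ : σ = π
        · exact Or.inl (hσ ▸ h2)
        · exact Or.inr ⟨σ, mem_erase.2 ⟨hσ, mem_univ _⟩, h1⟩
    rw [h.pr_not] at h2
    rw [hw]
    linarith only [c4, hπ, h1, h2]
  · have : Nonempty (Fin (l ^ 11)) := ⟨⟨0, by positivity⟩⟩
    have : Nonempty (Fin (l ^ 3)) := ⟨⟨0, by positivity⟩⟩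
    obtain ⟨D, w, hD, h, hw⟩ := honest hξ ι.injective β κ hL.small W
    rw [hF, Nat.cast_pow] at h
    obtain ⟨μ, hμ, hr⟩ := h.exists_isDepDist (d := 7 * l ^ 559) fun v => (hD v).trans (by
      have : l ^ 557 ≤ l ^ 559 := Nat.pow_le_pow_right l0 (by norm_num)
      rw [Fintype.card_fun, Fintype.card_fin, hF, ← pow_mul, ← pow_mul, ← pow_add, ← pow_add]
      norm_num
      omega)
    refine ⟨μ, hμ, ?_⟩
    rw [hr]
    refine le_trans (pr_mono h ?_) (hw.trans ?_)
    · exact fun X hX hn => hX 1 ((hFam 1 X).2 (by simpa using hn))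
    · have q0 : (0 : ℝ) < Fintype.card F := by exact_mod_cast Fintype.card_pos
      rw [Fintype.card_fin, div_le_div_iff₀ (by positivity) (by norm_num), one_mul, mul_comm]
      exact_mod_cast hW

lemma isLittleO_of_mul_le {f g r : ℕ → ℝ} (hr : Tendsto r atTop atTop)
    (h : ∀ᶠ n in atTop, r n * |f n| ≤ |g n|) : f =o[atTop] g := by
  refine isLittleO_iff.2 fun c hc => ?_
  filter_upwards [h, hr.eventually_ge_atTop (1 / c)] with n h1 h2
  rw [Real.norm_eq_abs, Real.norm_eq_abs]
  rw [div_le_iff₀ hc] at h2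
  linarith only [h1, hc, h2, abs_nonneg (f n), mul_le_mul_of_nonneg_left h1 hc.le,
    mul_le_mul_of_nonneg_right h2 (abs_nonneg (f n))]

theorem no_thresholds :
    ∃ (P : (n : ℕ) → Set (SimpleGraph (Fin n))) (d : ℕ → ℕ),
      (∀ n, IsUpperSet (P n)) ∧
      (∀ (n : ℕ) (G H : SimpleGraph (Fin n)), Nonempty (G ≃g H) → G ∈ P n → H ∈ P n) ∧
      (∀ᶠ n in atTop, (P n).Nonempty ∧ P n ≠ Set.univ) ∧
      (fun n => (d n : ℝ)) =O[atTop] (fun n => (n : ℝ) / Real.log n) ∧
      ¬ ∃ L U : ℕ → ℝ,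
        (∀ p : ℕ → ℝ, (∀ n, p n ∈ Set.Icc (0 : ℝ) 1) → p =o[atTop] L →
          ∀ μ : (n : ℕ) → Measure (SimpleGraph (Fin n)), (∀ n, IsDepDist n (p n) (d n) (μ n)) →
            Tendsto (fun n => (μ n).real (P n)ᶜ) atTop (𝓝 1)) ∧
        (∀ p : ℕ → ℝ, (∀ n, 0 ≤ p n) → U =o[atTop] p →
          ∀ μ : (n : ℕ) → Measure (SimpleGraph (Fin n)),
            (∀ n, IsDepDist n (min (p n) 1) (d n) (μ n)) →
            Tendsto (fun n => (μ n).real (P n)) atTop (𝓝 1)) ∧
        (∀ p : ℕ → ℝ, (∀ n, p n ∈ Set.Icc (0 : ℝ) 1) → L =o[atTop] p → p =o[atTop] U →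
          ∃ μ₁ μ₂ : (n : ℕ) → Measure (SimpleGraph (Fin n)),
            (∀ n, IsDepDist n (p n) (d n) (μ₁ n)) ∧ (∀ n, IsDepDist n (p n) (d n) (μ₂ n)) ∧
            Tendsto (fun n => (μ₁ n).real (P n)) atTop (𝓝 1) ∧
            Tendsto (fun n => (μ₂ n).real (P n)ᶜ) atTop (𝓝 1)) := by
  classical
  obtain ⟨j, hj, hR⟩ := exists_diag (fun j n => (∃ P, Stage ((2 ^ (j + 3)) ^ 4) n P) ∧
    ((7 * ((2 ^ (j + 3)) ^ 4) ^ 559 : ℕ) : ℝ) ≤ n / Real.log n) fun j => by
      have : Fintype (GaloisField 2 ((j + 3) * 4 * 13)) := Fintype.ofFinite _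
      refine (stage ?_ (GaloisField 2 ((j + 3) * 4 * 13)) ?_).and (eventually_le_div_log _)
      · have : 2 ^ 3 ≤ 2 ^ (j + 3) := Nat.pow_le_pow_right (by norm_num) (by omega)
        exact le_trans (by norm_num) (Nat.pow_le_pow_left this 4)
      · rw [← Nat.card_eq_fintype_card, GaloisField.card _ _ (by omega), pow_mul, pow_mul]
  obtain ⟨r, hr⟩ : ∃ r : ℕ → ℕ, r = fun n => 2 ^ (j n + 3) := ⟨_, rfl⟩
  have hR' : ∀ᶠ n in atTop, (∃ P, Stage (r n ^ 4) n P) ∧
      ((7 * (r n ^ 4) ^ 559 : ℕ) : ℝ) ≤ n / Real.log n := by rw [hr]; exact hR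
  have r1 : ∀ n, (1 : ℝ) ≤ r n := fun n => by
    rw [hr]; exact_mod_cast Nat.one_le_two_pow
  have rt : Tendsto (fun n => (r n : ℝ)) atTop atTop := by
    refine tendsto_natCast_atTop_atTop.comp (tendsto_atTop_mono (fun n => ?_) hj)
    rw [hr]
    exact (Nat.le_add_right _ 3).trans Nat.lt_two_pow_self.le
  have hP : ∀ n, ∃ P : Set (SimpleGraph (Fin n)), IsUpperSet P ∧
      (∀ G H : SimpleGraph (Fin n), Nonempty (G ≃g H) → G ∈ P → H ∈ P) ∧
      ((∃ P, Stage (r n ^ 4) n P) → Stage (r n ^ 4) n P) := fun n => by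
    by_cases h : ∃ P, Stage (r n ^ 4) n P
    · exact h.imp fun P hP => ⟨hP.upper, hP.iso, fun _ => hP⟩
    · exact ⟨Set.univ, isUpperSet_univ, fun _ _ _ _ => trivial, fun h' => absurd h' h⟩
  choose P hup hiso hst using hP
  have hS : ∀ᶠ n in atTop, Stage (r n ^ 4) n (P n) := hR'.mono fun n h => hst n h.1
  have hq : ∀ k n, (1 / (3 * (r n : ℝ) ^ k)) ∈ Set.Icc (0 : ℝ) 1 := fun k n => by
    have := one_le_pow₀ (r1 n) (n := k)
    exact ⟨by positivity, by rw [div_le_one (by positivity)]; linarith only [this]⟩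
  have hq' : ∀ k n, (r n : ℝ) * (1 / (3 * (r n : ℝ) ^ (k + 1))) = 1 / (3 * (r n : ℝ) ^ k) :=
    fun k n => by
      have := r1 n
      field_simp
      ring
  have low : ∀ᶠ n in atTop, ∀ p μ, 1 / (3 * (r n : ℝ) ^ 56) ≤ p →
      IsDepDist n p (7 * (r n ^ 4) ^ 559) μ → μ.real (P n)ᶜ ≤ 199 / 200 :=
    hS.mono fun n h p μ hp hμ => by
      have := h.low p μ (by rwa [Nat.cast_pow, ← pow_mul]) hμ
      rw [hμ.compl]
      linarith only [this]
  have high : ∀ᶠ n in atTop, ∃ μ, IsDepDist n (1 / (3 * (r n : ℝ) ^ 52)) (7 * (r n ^ 4) ^ 559) μ ∧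
      μ.real (P n) ≤ 1 / 10 := hS.mono fun n h => by
    have := h.high
    rwa [Nat.cast_pow, ← pow_mul] at this
  refine ⟨P, fun n => 7 * (r n ^ 4) ^ 559, hup, hiso, ?_, ?_, ?_⟩
  · filter_upwards [low, high] with n h1 ⟨μ, hμ, h2⟩
    have h3 := hμ.compl
    constructor
    · obtain ⟨ν, hν⟩ := exists_isDepDist n (7 * (r n ^ 4) ^ 559) zero_le_one le_rfl
      have h4 := h1 1 ν (hq 56 n).2 hν
      rw [hν.compl] at h4
      rw [Set.nonempty_iff_ne_empty]
      intro h
      rw [h, measureReal_empty] at h4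
      linarith only [h4]
    · intro h
      have h4 := h3 ∅
      rw [h, ← Set.compl_empty, h4, measureReal_empty] at h2
      linarith
  · refine IsBigO.of_bound' (hR'.mono fun n h => ?_)
    rw [Real.norm_eq_abs, Real.norm_eq_abs, Nat.abs_cast]
    exact h.2.trans (le_abs_self _)
  rintro ⟨L, U, h1, h2, h3⟩
  have a1 : ∀ᶠ n in atTop, |L n| < 1 / (3 * (r n : ℝ) ^ 55) := by
    have hp : ∀ n, (if 1 / (3 * (r n : ℝ) ^ 55) ≤ |L n| then 1 / (3 * (r n : ℝ) ^ 56) else 0) ∈
        Set.Icc (0 : ℝ) 1 := fun n => by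
      split_ifs
      · exact hq 56 n
      · exact ⟨le_rfl, zero_le_one⟩
    choose μ hμ using fun n => exists_isDepDist n (7 * (r n ^ 4) ^ 559) (hp n).1 (hp n).2
    have := h1 _ hp (isLittleO_of_mul_le rt (Eventually.of_forall fun n => by
      split_ifs with h
      · rw [abs_of_nonneg (hq 56 n).1, hq' 55 n]; exact h
      · simp)) μ hμ
    filter_upwards [this.eventually (lt_mem_nhds (show (199 / 200 : ℝ) < 1 by norm_num)), low]
      with n b1 b2
    by_contra hn
    have b3 := hμ n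
    rw [if_pos (not_lt.1 hn)] at b3
    linarith only [b1, b2, b3, b2 _ _ le_rfl b3]
  have a2 : ∀ᶠ n in atTop, 1 / (3 * (r n : ℝ) ^ 53) < |U n| := by
    have hμ : ∀ n, ∃ μ, IsDepDist n (min (if |U n| ≤ 1 / (3 * (r n : ℝ) ^ 53) then
        1 / (3 * (r n : ℝ) ^ 52) else r n * |U n|) 1) (7 * (r n ^ 4) ^ 559) μ ∧
        (|U n| ≤ 1 / (3 * (r n : ℝ) ^ 53) → (∃ μ, IsDepDist n (1 / (3 * (r n : ℝ) ^ 52))
          (7 * (r n ^ 4) ^ 559) μ ∧ μ.real (P n) ≤ 1 / 10) → μ.real (P n) ≤ 1 / 10) := fun n => by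
      have := r1 n
      split_ifs with h
      · rw [min_eq_left (hq 52 n).2]
        by_cases h' : ∃ μ, IsDepDist n (1 / (3 * (r n : ℝ) ^ 52))
          (7 * (r n ^ 4) ^ 559) μ ∧ μ.real (P n) ≤ 1 / 10
        · exact h'.imp fun μ hμ => ⟨hμ.1, fun _ _ => hμ.2⟩
        · exact (exists_isDepDist n _ (hq 52 n).1 (hq 52 n).2).imp fun μ hμ =>
            ⟨hμ, fun _ h => absurd h h'⟩
      · exact (exists_isDepDist n _ (le_min (by positivity) zero_le_one) (min_le_right _ _)).imp
          fun μ hμ => ⟨hμ, fun h' => absurd h' h⟩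
    choose μ hμ hμ' using hμ
    have := h2 _ (fun n => by
      have := r1 n
      split_ifs <;> positivity) (isLittleO_of_mul_le rt (Eventually.of_forall fun n => by
      have := r1 n
      split_ifs with h
      · rw [abs_of_nonneg (hq 52 n).1, ← hq' 52 n]
        exact mul_le_mul_of_nonneg_left h (by positivity)
      · exact le_abs_self _)) μ hμ
    filter_upwards [this.eventually (lt_mem_nhds (show (1 / 10 : ℝ) < 1 by norm_num)), high]
      with n b1 b2
    by_contra hn
    linarith only [b1, hμ', hn, b2, hμ' n (not_lt.1 hn) b2]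
  obtain ⟨-, μ, -, hμ, -, h4⟩ := h3 _ (hq 54)
    (isLittleO_of_mul_le rt (a1.mono fun n h => by
      rw [abs_of_nonneg (hq 54 n).1, ← hq' 54 n]
      exact mul_le_mul_of_nonneg_left h.le (by linarith [r1 n])))
    (isLittleO_of_mul_le rt (a2.mono fun n h => by
      rw [abs_of_nonneg (hq 54 n).1, hq' 53 n]
      exact h.le))
  obtain ⟨n, b1, b2⟩ := ((h4.eventually (lt_mem_nhds (show (199 / 200 : ℝ) < 1 by norm_num))).and
    low).exists
  have b3 : 1 / (3 * (r n : ℝ) ^ 56) ≤ 1 / (3 * (r n : ℝ) ^ 54) := by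
    have := r1 n
    gcongr
    norm_num
  linarith only [b1, b2, b3, hμ, b2 _ _ b3 (hμ n)]

end Pool.Agent.Work.MP_c7de0c_pr.Neg
end
end
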